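import Mathlib

/-!
# A binomial inequality
-/

namespace Pool.Agent.H146.BV

open Nat

theorem fac_ge (p q : ℕ) : (p + 1) * (q + 1) * (p ! * q !) ≤ (p + q + 1)! := by
  induction q with
  | zero => simp [Nat.factorial_succ]
  | succ q ih =>
    have e1 : p + (q + 1) + 1 = (p + q + 1) + 1 := by ring
    rw [e1, Nat.factorial_succ (p + q + 1), Nat.factorial_succ q]
    calc (p + 1) * (q + 1 + 1) * (p ! * ((q + 1) * q !)) =
        (q + 2) * ((p + 1) * (q + 1) * (p ! * q !)) := by ring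
      _ ≤ (p + q + 1 + 1) * (p + q + 1)! := Nat.mul_le_mul (by omega) ih

theorem fac_gt {p q : ℕ} (hp : 1 ≤ p) (hq : 1 ≤ q) :
    (p + 1) * (q + 1) * (p ! * q !) < (p + q + 1)! := by
  obtain ⟨q, rfl⟩ : ∃ r, q = r + 1 := ⟨q - 1, by omega⟩
  have e1 : p + (q + 1) + 1 = (p + q + 1) + 1 := by ring
  rw [e1, Nat.factorial_succ (p + q + 1), Nat.factorial_succ q]
  have ih := fac_ge p q
  have hpos : 0 < (p + q + 1)! := Nat.factorial_pos _
  calc (p + 1) * (q + 1 + 1) * (p ! * ((q + 1) * q !)) =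
      (q + 2) * ((p + 1) * (q + 1) * (p ! * q !)) := by ring
    _ ≤ (q + 2) * (p + q + 1)! := Nat.mul_le_mul le_rfl ih
    _ < (p + q + 1 + 1) * (p + q + 1)! := Nat.mul_lt_mul_of_pos_right (by omega) hpos

/-- The product inequality behind the comparison of binomials. -/
theorem prod_ge (p q s t : ℕ) :
    (p + s + 1) * (q + t + 1) * (p ! * q ! * s ! * t !) ≤ (p + q + 1)! * (s + t + 1)! := by
  calc (p + s + 1) * (q + t + 1) * (p ! * q ! * s ! * t !)
      ≤ ((p + 1) * (s + 1)) * ((q + 1) * (t + 1)) * (p ! * q ! * s ! * t !) := by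
        apply Nat.mul_le_mul _ le_rfl
        apply Nat.mul_le_mul <;> nlinarith
    _ = ((p + 1) * (q + 1) * (p ! * q !)) * ((s + 1) * (t + 1) * (s ! * t !)) := by ring
    _ ≤ (p + q + 1)! * (s + t + 1)! := Nat.mul_le_mul (fac_ge p q) (fac_ge s t)

theorem prod_gt {p q s t : ℕ} (h : ¬ ((p = 0 ∧ t = 0) ∨ (q = 0 ∧ s = 0))) :
    (p + s + 1) * (q + t + 1) * (p ! * q ! * s ! * t !) < (p + q + 1)! * (s + t + 1)! := by
  have hpq : 0 < (p + q + 1)! := Nat.factorial_pos _
  have hst : 0 < (s + t + 1)! := Nat.factorial_pos _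
  have hfp : 0 < p ! * q ! * s ! * t ! := by
    have := Nat.factorial_pos p
    have := Nat.factorial_pos q
    have := Nat.factorial_pos s
    have := Nat.factorial_pos t
    positivity
  have h1 : (p + s + 1) * (q + t + 1) ≤ ((p + 1) * (s + 1)) * ((q + 1) * (t + 1)) := by
    apply Nat.mul_le_mul <;> nlinarith
  have e : ((p + 1) * (s + 1)) * ((q + 1) * (t + 1)) * (p ! * q ! * s ! * t !) =
      ((p + 1) * (q + 1) * (p ! * q !)) * ((s + 1) * (t + 1) * (s ! * t !)) := by ring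
  have hA : 0 < (p + 1) * (q + 1) * (p ! * q !) := by
    have := Nat.factorial_pos p
    have := Nat.factorial_pos q
    positivity
  have hB : 0 < (s + 1) * (t + 1) * (s ! * t !) := by
    have := Nat.factorial_pos s
    have := Nat.factorial_pos t
    positivity
  by_cases c1 : 1 ≤ p ∧ 1 ≤ q
  · calc (p + s + 1) * (q + t + 1) * (p ! * q ! * s ! * t !)
        ≤ ((p + 1) * (s + 1)) * ((q + 1) * (t + 1)) * (p ! * q ! * s ! * t !) :=
          Nat.mul_le_mul h1 le_rfl
      _ = _ := e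
      _ < (p + q + 1)! * ((s + 1) * (t + 1) * (s ! * t !)) :=
          Nat.mul_lt_mul_of_pos_right (fac_gt c1.1 c1.2) hB
      _ ≤ (p + q + 1)! * (s + t + 1)! := Nat.mul_le_mul le_rfl (fac_ge s t)
  · by_cases c2 : 1 ≤ s ∧ 1 ≤ t
    · calc (p + s + 1) * (q + t + 1) * (p ! * q ! * s ! * t !)
          ≤ ((p + 1) * (s + 1)) * ((q + 1) * (t + 1)) * (p ! * q ! * s ! * t !) :=
            Nat.mul_le_mul h1 le_rfl
        _ = _ := e
        _ < ((p + 1) * (q + 1) * (p ! * q !)) * (s + t + 1)! :=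
            Nat.mul_lt_mul_of_pos_left (fac_gt c2.1 c2.2) hA
        _ ≤ (p + q + 1)! * (s + t + 1)! := Nat.mul_le_mul (fac_ge p q) le_rfl
    · have h2 : (p + s + 1) * (q + t + 1) < ((p + 1) * (s + 1)) * ((q + 1) * (t + 1)) := by
        by_cases c3 : 1 ≤ p ∧ 1 ≤ s
        · have k1 : p + s + 1 < (p + 1) * (s + 1) := by nlinarith [c3.1, c3.2]
          have k2 : q + t + 1 ≤ (q + 1) * (t + 1) := by nlinarith
          calc (p + s + 1) * (q + t + 1) < ((p + 1) * (s + 1)) * (q + t + 1) :=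
                Nat.mul_lt_mul_of_pos_right k1 (by omega)
            _ ≤ _ := Nat.mul_le_mul le_rfl k2
        · have c4 : 1 ≤ q ∧ 1 ≤ t := by omega
          have k1 : p + s + 1 ≤ (p + 1) * (s + 1) := by nlinarith
          have k2 : q + t + 1 < (q + 1) * (t + 1) := by nlinarith [c4.1, c4.2]
          calc (p + s + 1) * (q + t + 1) < (p + s + 1) * ((q + 1) * (t + 1)) :=
                Nat.mul_lt_mul_of_pos_left k2 (by omega)
            _ ≤ _ := Nat.mul_le_mul k1 le_rfl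
      calc (p + s + 1) * (q + t + 1) * (p ! * q ! * s ! * t !)
          < ((p + 1) * (s + 1)) * ((q + 1) * (t + 1)) * (p ! * q ! * s ! * t !) :=
            Nat.mul_lt_mul_of_pos_right h2 hfp
        _ = _ := e
        _ ≤ (p + q + 1)! * (s + t + 1)! := Nat.mul_le_mul (fac_ge p q) (fac_ge s t)

section
variable (p q s t : ℕ)

theorem binom_id :
    (p + q + 1)! * (s + t + 1)! * ((p + q + s + t + 2).choose (p + q + 1)) =
      (p + q + s + t + 2)! := by
  have h := Nat.choose_mul_factorial_mul_factorial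
    (show p + q + 1 ≤ p + q + s + t + 2 by omega)
  have e : p + q + s + t + 2 - (p + q + 1) = s + t + 1 := by omega
  rw [e] at h
  rw [← h]; ring

theorem binom_id2 :
    (p + s + 1)! * (q + t + 1)! * ((p + q + s + t + 2).choose (p + s + 1)) =
      (p + q + s + t + 2)! := by
  have h := Nat.choose_mul_factorial_mul_factorial
    (show p + s + 1 ≤ p + q + s + t + 2 by omega)
  have e : p + q + s + t + 2 - (p + s + 1) = q + t + 1 := by omega
  rw [e] at h
  rw [← h]; ring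

theorem binom_id3 : (p + s).choose p * (p ! * s !) = (p + s)! := by
  have h := Nat.choose_mul_factorial_mul_factorial (show p ≤ p + s by omega)
  rw [Nat.add_sub_cancel_left] at h
  rw [← h]; ring

/-- both sides after clearing denominators -/
theorem binom_scale :
    ((p + q + s + t + 2).choose (p + s + 1) * ((p + s).choose p * (q + t).choose q)) *
      ((p + s + 1) * (q + t + 1) * (p ! * q ! * s ! * t !)) =
    ((p + q + s + t + 2).choose (p + q + 1)) * ((p + q + 1)! * (s + t + 1)!) := by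
  have h1 := binom_id p q s t
  have h2 := binom_id2 p q s t
  have h3 := binom_id3 p s
  have h4 := binom_id3 q t
  rw [Nat.factorial_succ (p + s), Nat.factorial_succ (q + t), ← h3, ← h4, ← h1] at h2
  linarith

end

/-- the comparison of binomials -/
theorem binom_ge (p q s t : ℕ) :
    (p + q + s + t + 2).choose (p + q + 1) ≤
      (p + q + s + t + 2).choose (p + s + 1) * ((p + s).choose p * (q + t).choose q) := by
  have h1 := binom_scale p q s t
  have h2 := prod_ge p q s t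
  have hfp : 0 < (p + s + 1) * (q + t + 1) * (p ! * q ! * s ! * t !) := by
    have := Nat.factorial_pos p
    have := Nat.factorial_pos q
    have := Nat.factorial_pos s
    have := Nat.factorial_pos t
    positivity
  have h3 := Nat.mul_le_mul (le_refl ((p + q + s + t + 2).choose (p + q + 1))) h2
  rw [← h1] at h3
  exact Nat.le_of_mul_le_mul_right h3 hfp

theorem binom_gt {p q s t : ℕ} (h : ¬ ((p = 0 ∧ t = 0) ∨ (q = 0 ∧ s = 0))) :
    (p + q + s + t + 2).choose (p + q + 1) <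
      (p + q + s + t + 2).choose (p + s + 1) * ((p + s).choose p * (q + t).choose q) := by
  have h1 := binom_scale p q s t
  have h2 := prod_gt h
  have hc : 0 < (p + q + s + t + 2).choose (p + q + 1) := Nat.choose_pos (by omega)
  have h3 := Nat.mul_lt_mul_of_pos_left h2 hc
  rw [← h1] at h3
  exact Nat.lt_of_mul_lt_mul_right h3

/-- version with natural subtraction: `f + g = n`, ranks `r` and `k - r` -/
theorem binom_ge' {f g r k : ℕ} (hr : 1 ≤ r) (hrf : r + 1 ≤ f) (hkr : r + 1 ≤ k)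
    (hg : k - r + 1 ≤ g) :
    (f + g - 2).choose (k - 1) ≤
      (f + g - 2).choose (f - 1) * ((f - 2).choose (r - 1) * (g - 2).choose (k - r - 1)) := by
  obtain ⟨p, rfl⟩ : ∃ p, r = p + 1 := ⟨r - 1, by omega⟩
  obtain ⟨q, rfl⟩ : ∃ q, k = p + 1 + q + 1 := ⟨k - p - 2, by omega⟩
  obtain ⟨s, rfl⟩ : ∃ s, f = p + s + 2 := ⟨f - p - 2, by omega⟩
  obtain ⟨t, rfl⟩ : ∃ t, g = q + t + 2 := ⟨g - q - 2, by omega⟩
  have e1 : p + s + 2 + (q + t + 2) - 2 = p + q + s + t + 2 := by omega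
  have e2 : p + 1 + q + 1 - 1 = p + q + 1 := by omega
  have e3 : p + s + 2 - 1 = p + s + 1 := by omega
  have e4 : p + s + 2 - 2 = p + s := by omega
  have e5 : p + 1 - 1 = p := by omega
  have e6 : q + t + 2 - 2 = q + t := by omega
  have e7 : p + 1 + q + 1 - (p + 1) - 1 = q := by omega
  rw [e1, e2, e3, e4, e5, e6, e7]
  exact binom_ge p q s t

theorem binom_eq' {f g r k : ℕ} (hr : 1 ≤ r) (hrf : r + 1 ≤ f) (hkr : r + 1 ≤ k)
    (hg : k - r + 1 ≤ g)
    (heq : (f + g - 2).choose (f - 1) * ((f - 2).choose (r - 1) * (g - 2).choose (k - r - 1)) ≤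
      (f + g - 2).choose (k - 1)) : (r = 1 ∧ g = k) ∨ (r + 1 = k ∧ f = k) := by
  obtain ⟨p, rfl⟩ : ∃ p, r = p + 1 := ⟨r - 1, by omega⟩
  obtain ⟨q, rfl⟩ : ∃ q, k = p + 1 + q + 1 := ⟨k - p - 2, by omega⟩
  obtain ⟨s, rfl⟩ : ∃ s, f = p + s + 2 := ⟨f - p - 2, by omega⟩
  obtain ⟨t, rfl⟩ : ∃ t, g = q + t + 2 := ⟨g - q - 2, by omega⟩
  have e1 : p + s + 2 + (q + t + 2) - 2 = p + q + s + t + 2 := by omega
  have e2 : p + 1 + q + 1 - 1 = p + q + 1 := by omega
  have e3 : p + s + 2 - 1 = p + s + 1 := by omega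
  have e4 : p + s + 2 - 2 = p + s := by omega
  have e5 : p + 1 - 1 = p := by omega
  have e6 : q + t + 2 - 2 = q + t := by omega
  have e7 : p + 1 + q + 1 - (p + 1) - 1 = q := by omega
  rw [e1, e2, e3, e4, e5, e6, e7] at heq
  by_contra hcon
  have : ¬ ((p = 0 ∧ t = 0) ∨ (q = 0 ∧ s = 0)) := by omega
  have := binom_gt this
  omega

/-- `(n-2) C(n-3,k-1) = (n-k-1) C(n-2,k-1)` with `n = m + 3`, `k = j + 1`. -/
theorem binom_del {n k : ℕ} (hn : 3 ≤ n) (hk : 1 ≤ k) (hkn : k + 1 ≤ n) :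
    (n - 2) * (n - 3).choose (k - 1) = (n - k - 1) * (n - 2).choose (k - 1) := by
  obtain ⟨m, rfl⟩ : ∃ m, n = m + 3 := ⟨n - 3, by omega⟩
  obtain ⟨j, rfl⟩ : ∃ j, k = j + 1 := ⟨k - 1, by omega⟩
  have e1 : m + 3 - 2 = m + 1 := by omega
  have e2 : m + 3 - 3 = m := by omega
  have e3 : j + 1 - 1 = j := by omega
  have e4 : m + 3 - (j + 1) - 1 = m + 1 - j := by omega
  rw [e1, e2, e3, e4]
  have := Nat.choose_mul_succ_eq m j
  linarith

theorem binom_con {n k : ℕ} (hn : 3 ≤ n) (hk : 2 ≤ k) :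
    (n - 2) * (n - 3).choose (k - 2) = (k - 1) * (n - 2).choose (k - 1) := by
  obtain ⟨m, rfl⟩ : ∃ m, n = m + 3 := ⟨n - 3, by omega⟩
  obtain ⟨j, rfl⟩ : ∃ j, k = j + 2 := ⟨k - 2, by omega⟩
  have e1 : m + 3 - 2 = m + 1 := by omega
  have e2 : m + 3 - 3 = m := by omega
  have e3 : j + 2 - 1 = j + 1 := by omega
  have e4 : j + 2 - 2 = j := by omega
  rw [e1, e2, e3, e4]
  have := Nat.add_one_mul_choose_eq m j
  linarith

end Pool.Agent.H146.BV
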