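import Pool.Agent.H146.BV.Main2

/-!
# The equality case
-/

namespace Pool.Agent.H146.BV

open Finset

variable {α : Type} [DecidableEq α] {S : Finset α} {ρ : Finset α → ℕ}

/-- The bases are the sets of the right size with at most one element outside `G`. -/
def IsT (S : Finset α) (ρ : Finset α → ℕ) : Prop :=
  ∃ G ⊆ S, G.card = ρ S ∧ ∀ B, IsBas S ρ B ↔ (B ⊆ S ∧ B.card = ρ S ∧ (B \ G).card ≤ 1)

/-- The uniform matroid of rank two on four elements. -/
def IsU24 (S : Finset α) (ρ : Finset α → ℕ) : Prop :=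
  S.card = 4 ∧ ρ S = 2 ∧ ∀ B, IsBas S ρ B ↔ (B ⊆ S ∧ B.card = 2)

/-- exchange connectivity -/
theorem exch_conn (h : IsRk S ρ) (hc : Conn S ρ) (φ : α → ℤ)
    (hφ : ∀ B, IsBas S ρ B → ∀ a ∈ B, ∀ b ∈ S, b ∉ B → IsBas S ρ (insert b (B.erase a)) →
      φ a = φ b) {a b : α} (ha : a ∈ S) (hb : b ∈ S) : φ b = φ a := by
  by_contra hne
  set A := S.filter (fun x => φ x = φ a) with hA
  have hAS : A ⊆ S := filter_subset _ _
  have hsep := hc A hAS ⟨a, by simp [hA, ha]⟩ (by
    intro heq
    have : b ∈ A := by rw [heq]; exact hb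
    rw [hA, mem_filter] at this
    exact hne this.2)
  obtain ⟨I, _, i2, i3, i4⟩ := exists_basis h (I := ∅) (X := A) (by rw [h.zero, card_empty])
    (empty_subset _) hAS
  obtain ⟨B, j1, j2, j3, j4⟩ := exists_basis h i3 (i2.trans hAS : I ⊆ S) subset_rfl
  have hB : IsBas S ρ B := ⟨j2, j3, by rw [← j3, j4]⟩
  set J := B \ A with hJ
  have hJB : J ⊆ B := sdiff_subset
  have hJi : ρ J = J.card := indep_sub h j2 j3 hJB
  have hJA : J ⊆ S \ A := sdiff_subset_sdiff j2 subset_rfl
  have hJc : J.card + I.card ≤ B.card := by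
    rw [← card_union_of_disjoint]
    · exact card_le_card (union_subset hJB j1)
    · rw [disjoint_left]
      intro t t1 t2
      exact (mem_sdiff.1 t1).2 (i2 t2)
  obtain ⟨B2, k1, k2, k3, k4⟩ := exists_basis h hJi hJA sdiff_subset
  have hlt : J.card < B2.card := by
    have := hB.2.2
    omega
  obtain ⟨y, hy, hyJ⟩ : ∃ y ∈ B2, y ∉ J := by
    by_contra hcon
    push Not at hcon
    have := card_le_card (show B2 ⊆ J from hcon)
    omega
  have hyA := mem_sdiff.1 (k2 hy)
  have hyB : y ∉ B := fun h => hyJ (mem_sdiff.2 ⟨h, hyA.2⟩)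
  have hyJi : ρ (insert y J) = (insert y J).card :=
    indep_sub h (k2.trans sdiff_subset) k3 (insert_subset hy k1)
  obtain ⟨B3, l1, l2, l3, l4⟩ := exists_basis h hyJi
    (insert_subset_insert y hJB : insert y J ⊆ insert y B) (insert_subset hyA.1 j2)
  have hB3S : B3 ⊆ S := l2.trans (insert_subset hyA.1 j2)
  have hr : ρ (insert y B) = ρ S := by
    apply le_antisymm (h.mono (insert_subset hyA.1 j2) subset_rfl)
    rw [← j4]; exact h.mono1 B j2 y hyA.1
  have hc3 : B3.card = ρ S := by rw [← l3, l4, hr]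
  have hcB : (insert y B).card = ρ S + 1 := by
    rw [card_insert_of_notMem hyB, hB.2.2]
  obtain ⟨x, hx, hx3⟩ : ∃ x ∈ insert y B, x ∉ B3 := by
    by_contra hcon
    push Not at hcon
    have := card_le_card (show insert y B ⊆ B3 from hcon)
    omega
  have hxy : x ≠ y := by
    rintro rfl
    exact hx3 (l1 (mem_insert_self _ _))
  have hxB : x ∈ B := by
    rcases mem_insert.1 hx with h1 | h1
    · exact absurd h1 hxy
    · exact h1
  have hxA : x ∈ A := by
    by_contra hcon
    exact hx3 (l1 (mem_insert_of_mem (mem_sdiff.2 ⟨hxB, hcon⟩)))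
  have hB3 : B3 = insert y (B.erase x) := by
    apply eq_of_subset_of_card_le
    · intro t ht
      rcases mem_insert.1 (l2 ht) with h1 | h1
      · exact mem_insert.2 (Or.inl h1)
      · refine mem_insert_of_mem (mem_erase.2 ⟨?_, h1⟩)
        rintro rfl
        exact hx3 ht
    · rw [card_insert_of_notMem (fun h => hyB (mem_of_mem_erase h)), card_erase_of_mem hxB, hc3,
        hB.2.2]
      have : 1 ≤ B.card := card_pos.2 ⟨x, hxB⟩
      have := hB.2.2
      omega
  have hfin := hφ B hB x hxB y hyA.1 hyB (by rw [← hB3]; exact ⟨hB3S, l3, hc3⟩)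
  apply hyA.2
  rw [hA, mem_filter] at hxA ⊢
  exact ⟨hyA.1, by rw [← hfin, hxA.2]⟩

/-- A set of type one gives a matroid of type `T`. -/
theorem isT_of_type1 (h : IsRk S ρ) (hc : Conn S ρ) (hk : 2 ≤ ρ S) {F : Finset α}
    (hF : F ⊆ S) (hne : F.Nonempty) (h1 : ρ F = 1) (h2 : (S \ F).card = ρ S)
    (hcG : Conn (S \ F) (con ρ F)) : IsT S ρ := by
  refine ⟨S \ F, sdiff_subset, h2, ?_⟩
  have hneS : F ≠ S := by
    rintro rfl
    simp at h2; omega
  have hSc : 2 ≤ S.card := hk.trans (h.le_card subset_rfl)
  have hG : ρ (S \ F) = ρ S := by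
    have a1 := hc F hF hne hneS
    have a2 := h.mono (sdiff_subset : S \ F ⊆ S) subset_rfl
    omega
  intro B
  constructor
  · intro hB
    refine ⟨hB.1, hB.2.2, ?_⟩
    have e : B \ (S \ F) = F ∩ B := by
      ext t; simp only [mem_sdiff, mem_inter, not_and, not_not]
      constructor
      · rintro ⟨a, b⟩; exact ⟨b (hB.1 a), a⟩
      · rintro ⟨a, b⟩; exact ⟨b, fun _ => a⟩
    rw [e, ← h1]
    exact hB.inter_le h hF
  · rintro ⟨b1, b2, b3⟩
    refine ⟨b1, ?_, b2⟩
    by_cases hz : (B \ (S \ F)).card = 0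
    · rw [card_eq_zero, sdiff_eq_empty_iff_subset] at hz
      have : B = S \ F := eq_of_subset_of_card_le hz (by rw [h2, b2])
      rw [this, hG, h2]
    · have hone : (B \ (S \ F)).card = 1 := by omega
      obtain ⟨f, hf⟩ := card_eq_one.1 hone
      have hfm : f ∈ B \ (S \ F) := by rw [hf]; exact mem_singleton_self f
      rw [mem_sdiff] at hfm
      have hfS := b1 hfm.1
      have hfF : f ∈ F := by
        by_contra hcon
        exact hfm.2 (mem_sdiff.2 ⟨hfS, hcon⟩)
      -- the part of B inside S \ F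
      have hBc : (B ∩ (S \ F)).card + 1 = ρ S := by
        have := card_sdiff_add_card_inter B (S \ F)
        omega
      obtain ⟨g, hg, hgB⟩ : ∃ g ∈ S \ F, g ∉ B := by
        by_contra hcon
        push Not at hcon
        have : B ∩ (S \ F) = S \ F := inter_eq_right.2 hcon
        rw [this] at hBc; omega
      have hBI : B ∩ (S \ F) = (S \ F).erase g := by
        apply eq_of_subset_of_card_le
        · intro t ht
          rw [mem_inter] at ht
          exact mem_erase.2 ⟨fun h => hgB (h ▸ ht.1), ht.2⟩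
        · rw [card_erase_of_mem hg]; omega
      -- rank
      have hel := (hcG.elem (h.con hF) (by omega) hg).2
      simp only [con] at hel
      have u1 : S \ F ∪ F = S := sdiff_union_of_subset hF
      have u2 : (S \ F).erase g ∪ F ⊆ S := union_subset ((erase_subset _ _).trans sdiff_subset) hF
      have u3 := h.mono (subset_union_right : F ⊆ (S \ F).erase g ∪ F) u2
      have u4 := h.mono hF subset_rfl
      rw [u1] at hel
      have hBF : ρ S ≤ ρ (B ∪ F) := by
        have : (S \ F).erase g ∪ F ⊆ B ∪ F := by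
          rw [← hBI]
          exact union_subset_union inter_subset_left subset_rfl
        have := h.mono this (union_subset b1 hF)
        omega
      have hspan : ρ (B ∪ F) = ρ B := by
        apply span_eq h b1 F hF
        intro x hx
        have hxS := hF hx
        have e1 : ρ {f} = 1 := (hc.elem h hSc hfS).1
        have e2 : ρ (insert x {f}) = ρ {f} := by
          have a1 := h.mono1 {f} (singleton_subset_iff.2 hfS) x hxS
          have a2 := h.mono (insert_subset hx (singleton_subset_iff.2 hfF)) hF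
          omega
        have e3 := closure_lem h (singleton_subset_iff.2 hfS) hxS e2 b1
        have e4 : B ∪ insert x {f} = insert x B := by
          ext t; simp only [mem_union, mem_insert, mem_singleton]
          constructor
          · rintro (a | a | a)
            · exact Or.inr a
            · exact Or.inl a
            · exact Or.inr (a ▸ hfm.1)
          · rintro (a | a)
            · exact Or.inr (Or.inl a)
            · exact Or.inl a
        have e5 : B ∪ {f} = B := by
          ext t; simp only [mem_union, mem_singleton]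
          constructor
          · rintro (a | a)
            · exact a
            · exact a ▸ hfm.1
          · exact Or.inl
        rw [e4, e5] at e3
        exact e3
      have := h.mono b1 subset_rfl
      omega

theorem double_count (T : Finset α) (M : Finset (Finset α)) (w : Finset α → ℤ) :
    ∑ e ∈ T, ∑ F ∈ M, (if e ∈ F then w F else 0) = ∑ F ∈ M, w F * ((F ∩ T).card : ℤ) := by
  rw [sum_comm]
  apply sum_congr rfl
  intro F _
  rw [sum_ite_mem, sum_const, nsmul_eq_mul, inter_comm]
  ring

/-- Numerical consequence of equality when all sets of nonzero weight have type two. -/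
theorem numeric (h : IsRk S ρ) (hc : Conn S ρ) (hk : 2 ≤ ρ S) (hk2 : ρ S + 2 ≤ S.card)
    (hA : ∀ B, IsBas S ρ B → Asum S ρ B = beta S ρ)
    (hBs : ∀ B, IsBas S ρ B → Bsum S ρ B = beta S ρ)
    (hT : ∀ F ∈ mid S, beta F ρ * beta (S \ F) (con ρ F) ≠ 0 → ρ F + 1 = ρ S ∧ F.card = ρ S) :
    ρ S = 2 ∧ S.card = 4 := by
  have hSc : 2 ≤ S.card := by omega
  set w : Finset α → ℤ := fun F => beta F ρ * beta (S \ F) (con ρ F) with hw
  set N : ℤ := ∑ F ∈ mid S, w F with hN
  have hwn : ∀ F ∈ mid S, 0 ≤ w F := fun F hF =>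
    mul_nonneg (h.sub (mem_mid.1 hF).1).beta_nonneg (h.con (mem_mid.1 hF).1).beta_nonneg
  have hNn : 0 ≤ N := sum_nonneg hwn
  set φ : α → ℤ := fun e => beta (S.erase e) (con ρ {e}) +
    ∑ F ∈ mid S, (if e ∈ F then w F else 0) with hφ
  have htm : ∀ B, IsBas S ρ B → ∀ F ∈ mid S, w F * (((F ∩ (S \ B)).card : ℤ)) =
      tm S ρ B F + w F := by
    intro B hB F hF
    have f1 := (mem_mid.1 hF).1
    by_cases hz : w F = 0
    · have : tm S ρ B F = 0 := by
        unfold tm
        change _ * w F = 0
        rw [hz, mul_zero]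
      rw [hz, this]; ring
    · obtain ⟨t1, t2⟩ := hT F hF hz
      have e1 : (F ∩ (S \ B)).card + (F ∩ B).card = F.card := by
        rw [← card_union_of_disjoint]
        · congr 1
          ext t; simp only [mem_union, mem_inter, mem_sdiff]
          constructor
          · rintro (a | a) <;> exact a.1
          · intro ht
            by_cases htB : t ∈ B
            · exact Or.inr ⟨ht, htB⟩
            · exact Or.inl ⟨ht, f1 ht, htB⟩
        · rw [disjoint_left]; intro t a1 a2
          exact (mem_sdiff.1 (mem_inter.1 a1).2).2 (mem_inter.1 a2).2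
      unfold tm
      change _ = _ * w F + w F
      have e2 : ((F ∩ (S \ B)).card : ℤ) = (ρ F : ℤ) - ((F ∩ B).card : ℤ) + 1 := by
        have : ((F ∩ (S \ B)).card : ℤ) + ((F ∩ B).card : ℤ) = (F.card : ℤ) := by
          exact_mod_cast e1
        have h3 : (F.card : ℤ) = (ρ F : ℤ) + 1 := by
          have : F.card = ρ F + 1 := by omega
          rw [this]; push_cast; ring
        linarith
      rw [e2]; ring
  have hΦ : ∀ B, IsBas S ρ B → ∑ e ∈ S \ B, φ e = beta S ρ + N := by
    intro B hB
    simp only [hφ]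
    rw [sum_add_distrib, double_count, sum_congr rfl (htm B hB), sum_add_distrib, ← hN,
      ← hA B hB]
    unfold Asum; ring
  have hconst : ∀ a ∈ S, ∀ b ∈ S, φ b = φ a := by
    intro a ha b hb
    refine exch_conn h hc φ ?_ ha hb
    intro B hB x hx y hy hyB hB'
    have h1 := hΦ B hB
    have h2 := hΦ _ hB'
    have hxS := hB.1 hx
    have hxy : x ≠ y := fun h => hyB (h ▸ hx)
    have e1 : S \ insert y (B.erase x) = insert x ((S \ B).erase y) := by
      ext t; simp only [mem_sdiff, mem_insert, mem_erase]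
      constructor
      · rintro ⟨a, b⟩
        push Not at b
        by_cases htx : t = x
        · exact Or.inl htx
        · exact Or.inr ⟨b.1, a, b.2 htx⟩
      · rintro (a | ⟨a, b, c⟩)
        · subst a
          refine ⟨hxS, ?_⟩
          rintro (c | c)
          · exact hxy c
          · exact c.1 rfl
        · refine ⟨b, ?_⟩
          rintro (d | d)
          · exact a d
          · exact c d.2
    have hx2 : x ∉ (S \ B).erase y := by simp [hx]
    rw [e1, sum_insert hx2] at h2
    rw [← add_sum_erase _ _ (mem_sdiff.2 ⟨hy, hyB⟩)] at h1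
    linarith
  obtain ⟨B, hB⟩ := exists_IsBas h
  obtain ⟨s, hs⟩ : S.Nonempty := by rw [← card_pos]; omega
  set c := φ s with hcdef
  set X := beta S ρ + N with hX
  have hXpos : 0 < X := by
    have := hc.beta_pos h hSc
    omega
  -- first equation
  have eq1 : ((S.card : ℤ) - ρ S) * c = X := by
    rw [← hΦ B hB, sum_congr rfl (fun e he => hconst s hs e (mem_sdiff.1 he).1), sum_const,
      nsmul_eq_mul, card_sdiff_of_subset hB.1, Nat.cast_sub (card_le_card hB.1), hB.2.2]
  -- second equation
  have hψ : ∀ e ∈ S, beta (S.erase e) ρ + ∑ F ∈ mid S, (if e ∈ F then 0 else w F) = X - c := by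
    intro e he
    obtain ⟨g1, g2⟩ := hc.elem h hSc he
    have h1 := beta_del_con h he g1 g2 hSc
    have h2 := hconst s hs e he
    have h3 : ∑ F ∈ mid S, (if e ∈ F then w F else 0) + ∑ F ∈ mid S, (if e ∈ F then 0 else w F) =
        N := by
      rw [hN, ← sum_add_distrib]
      apply sum_congr rfl
      intro F _
      split_ifs <;> ring
    simp only [hφ] at h2
    simp only [hφ] at hcdef
    rw [hX, hcdef]
    linarith
  have eq2 : (ρ S : ℤ) * (X - c) = X := by
    have h1 : ∑ e ∈ B, (beta (S.erase e) ρ + ∑ F ∈ mid S, (if e ∈ F then 0 else w F)) =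
        (ρ S : ℤ) * (X - c) := by
      rw [sum_congr rfl (fun e he => hψ e (hB.1 he)), sum_const, nsmul_eq_mul, hB.2.2]
    rw [← h1, sum_add_distrib]
    have h2 : ∑ e ∈ B, ∑ F ∈ mid S, (if e ∈ F then 0 else w F) =
        ∑ F ∈ mid S, (tm S ρ B F + w F) := by
      rw [sum_comm]
      apply sum_congr rfl
      intro F hF
      have f1 := (mem_mid.1 hF).1
      have e0 : ∑ e ∈ B, (if e ∈ F then 0 else w F) = w F * ((B \ F).card : ℤ) := by
        have : ∀ e ∈ B, (if e ∈ F then 0 else w F) = if e ∈ B \ F then w F else 0 := by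
          intro e he
          by_cases heF : e ∈ F <;> simp [heF, he]
        rw [sum_congr rfl this, sum_ite_mem, sum_const, nsmul_eq_mul,
          inter_eq_right.2 (sdiff_subset : B \ F ⊆ B)]
        ring
      rw [e0]
      by_cases hz : w F = 0
      · have : tm S ρ B F = 0 := by
          unfold tm
          change _ * w F = 0
          rw [hz, mul_zero]
        rw [hz, this]; ring
      · obtain ⟨t1, t2⟩ := hT F hF hz
        have e1 : (B \ F).card + (F ∩ B).card = B.card := by
          rw [inter_comm]; exact card_sdiff_add_card_inter B F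
        unfold tm
        change _ = _ * w F + w F
        have e2 : ((B \ F).card : ℤ) = (ρ F : ℤ) - ((F ∩ B).card : ℤ) + 1 := by
          have h3 : ((B \ F).card : ℤ) + ((F ∩ B).card : ℤ) = (B.card : ℤ) := by
            exact_mod_cast e1
          have h4 : (B.card : ℤ) = (ρ F : ℤ) + 1 := by
            rw [hB.2.2, ← t1]; push_cast; ring
          linarith
        rw [e2]; ring
    rw [h2, sum_add_distrib, ← hN]
    have h3 := hBs B hB
    unfold Bsum at h3
    rw [hX]; linarith
  -- conclusion
  obtain ⟨n', hn'⟩ : ∃ n', S.card = ρ S + n' := ⟨S.card - ρ S, by omega⟩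
  have hn2 : 2 ≤ n' := by omega
  have q1 : (n' : ℤ) * c = X := by
    rw [← eq1, hn']; push_cast; ring
  have q2 : (ρ S : ℤ) * n' * X = (ρ S + n') * X := by
    have : (ρ S : ℤ) * n' * (X - c) = n' * X := by
      have e : (ρ S : ℤ) * n' * (X - c) = n' * ((ρ S : ℤ) * (X - c)) := by ring
      rw [e, eq2]
    have h5 : (ρ S : ℤ) * n' * X = (ρ S : ℤ) * (n' * c) + (ρ S : ℤ) * n' * (X - c) := by ring
    rw [h5, this, q1]; ring
  have q3 : (ρ S : ℤ) * n' = ρ S + n' := mul_right_cancel₀ hXpos.ne' q2
  have q4 : ρ S * n' = ρ S + n' := by exact_mod_cast q3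
  have q5 : (ρ S - 1) * (n' - 1) = 1 := by
    obtain ⟨a, ha⟩ : ∃ a, ρ S = a + 1 := ⟨ρ S - 1, by omega⟩
    obtain ⟨b, hb⟩ : ∃ b, n' = b + 1 := ⟨n' - 1, by omega⟩
    rw [ha, hb] at q4 ⊢
    simp only [Nat.add_sub_cancel]
    nlinarith
  have q6 := Nat.eq_one_of_mul_eq_one_right q5
  have q7 := Nat.eq_one_of_mul_eq_one_left q5
  omega

theorem isU24_of (h : IsRk S ρ) (hc : Conn S ρ) (hk : ρ S = 2) (hn : S.card = 4)
    (hno : ∀ F ∈ mid S, Conn F ρ → Conn (S \ F) (con ρ F) → ¬ (ρ F = 1 ∧ (S \ F).card = ρ S)) :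
    IsU24 S ρ := by
  refine ⟨hn, hk, ?_⟩
  intro B
  constructor
  · intro hB
    exact ⟨hB.1, by rw [hB.2.2, hk]⟩
  · rintro ⟨b1, b2⟩
    refine ⟨b1, ?_, by rw [b2, hk]⟩
    by_contra hne
    have hel : ∀ x ∈ S, ρ {x} = 1 := fun x hx => (hc.elem h (by omega) hx).1
    obtain ⟨x, hx⟩ : B.Nonempty := by rw [← card_pos]; omega
    have u1 := h.le_card b1
    have u2 := h.mono (singleton_subset_iff.2 hx) b1
    rw [hel x (b1 hx)] at u2
    have hr : ρ B = 1 := by omega
    have hmid : B ∈ mid S := mem_mid.2 ⟨b1, by omega, by omega⟩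
    have cG : (S \ B).card = 2 := by rw [card_sdiff_of_subset b1]; omega
    have hcB : Conn B ρ := by
      intro A hA hAne hAB
      obtain ⟨y, hy⟩ := hAne
      obtain ⟨z, hz⟩ : (B \ A).Nonempty := by
        rw [sdiff_nonempty]; exact fun h => hAB (subset_antisymm hA h)
      have v1 := h.mono (singleton_subset_iff.2 hy) (hA.trans b1)
      have v2 := h.mono (singleton_subset_iff.2 hz) (sdiff_subset.trans b1)
      rw [hel y (b1 (hA hy))] at v1
      rw [hel z (b1 (mem_sdiff.1 hz).1)] at v2
      omega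
    have hx1 : ∀ x ∈ S \ B, 2 ≤ ρ (insert x B) := by
      intro x hx
      rw [mem_sdiff] at hx
      have hsub : insert x B ⊆ S := insert_subset hx.1 b1
      have hcc : (insert x B).card = 3 := by rw [card_insert_of_notMem hx.2, b2]
      have h1 := hc (insert x B) hsub ⟨x, mem_insert_self _ _⟩ (by
        intro heq; rw [heq] at hcc; omega)
      have h2 := h.le_card (sdiff_subset : S \ insert x B ⊆ S)
      rw [card_sdiff_of_subset hsub, hcc, hn] at h2
      omega
    have hcG : Conn (S \ B) (con ρ B) := by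
      intro A hA hAne hAB
      obtain ⟨y, hy⟩ := hAne
      obtain ⟨z, hz⟩ : ((S \ B) \ A).Nonempty := by
        rw [sdiff_nonempty]; exact fun h => hAB (subset_antisymm hA h)
      have v1 : 1 ≤ con ρ B A := by
        have w1 := hx1 y (hA hy)
        have w2 : insert y B ⊆ A ∪ B := insert_subset (mem_union_left _ hy) subset_union_right
        have w3 := h.mono w2 (union_subset (hA.trans sdiff_subset) b1)
        simp only [con]; omega
      have v2 : 1 ≤ con ρ B ((S \ B) \ A) := by
        have w1 := hx1 z (mem_sdiff.1 hz).1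
        have w2 : insert z B ⊆ (S \ B) \ A ∪ B :=
          insert_subset (mem_union_left _ hz) subset_union_right
        have w3 := h.mono w2 (union_subset (sdiff_subset.trans sdiff_subset) b1)
        simp only [con] at w3 ⊢; omega
      have v3 : con ρ B (S \ B) = 1 := by
        simp only [con]; rw [sdiff_union_of_subset b1]; omega
      omega
    exact hno B hmid hcB hcG ⟨hr, by omega⟩

/-- **Classification of equality.** -/
theorem classify [Fintype α] (h : IsRk S ρ) (hc : Conn S ρ) (hS : 2 ≤ S.card)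
    (heq : Vol S ρ ≤ (beta S ρ : ℝ) * ((S.card - 2).choose (ρ S - 1))) :
    IsT S ρ ∨ IsU24 S ρ := by
  obtain ⟨k1, k2⟩ := hc.rank_bounds h hS
  obtain ⟨s, hs⟩ : S.Nonempty := by rw [← card_pos]; omega
  by_cases hk1 : ρ S = 1
  · left
    refine ⟨{s}, singleton_subset_iff.2 hs, by rw [card_singleton, hk1], ?_⟩
    intro B
    constructor
    · intro hB
      refine ⟨hB.1, hB.2.2, ?_⟩
      have := card_le_card (sdiff_subset : B \ {s} ⊆ B)
      have := hB.2.2
      omega
    · rintro ⟨b1, b2, _⟩
      refine ⟨b1, ?_, b2⟩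
      rw [hk1] at b2
      obtain ⟨x, rfl⟩ := card_eq_one.1 b2
      rw [card_singleton]
      exact (hc.elem h hS (singleton_subset_iff.1 b1)).1
  by_cases hk2 : ρ S + 1 = S.card
  · left
    refine ⟨S.erase s, erase_subset _ _, by rw [card_erase_of_mem hs]; omega, ?_⟩
    intro B
    constructor
    · intro hB
      refine ⟨hB.1, hB.2.2, ?_⟩
      have h1 : B \ S.erase s ⊆ {s} := by
        intro t ht
        rw [mem_sdiff, mem_erase] at ht
        rw [mem_singleton]
        by_contra hne
        exact ht.2 ⟨hne, hB.1 ht.1⟩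
      have := card_le_card h1
      rwa [card_singleton] at this
    · rintro ⟨b1, b2, _⟩
      refine ⟨b1, ?_, b2⟩
      have hc1 : (S \ B).card = 1 := by rw [card_sdiff_of_subset b1]; omega
      obtain ⟨x, hx⟩ := card_eq_one.1 hc1
      have hxS : x ∈ S := by
        have : x ∈ S \ B := by rw [hx]; exact mem_singleton_self x
        exact (mem_sdiff.1 this).1
      have hB : B = S.erase x := by
        rw [← sdiff_singleton_eq_erase, ← hx, Finset.sdiff_sdiff_eq_self b1]
      rw [hB, (hc.elem h hS hxS).2, ← b2, hB]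
  by_cases hty : ∃ F ∈ mid S, Conn F ρ ∧ Conn (S \ F) (con ρ F) ∧ ρ F = 1 ∧ (S \ F).card = ρ S
  · obtain ⟨F, hF, hcF, hcG, t1, t2⟩ := hty
    left
    obtain ⟨f1, f2, f3⟩ := mem_mid.1 hF
    exact isT_of_type1 h hc (by omega) f1 (by rw [← card_pos]; omega) t1 t2 hcG
  · right
    push Not at hty
    have hT : ∀ F ∈ mid S, beta F ρ * beta (S \ F) (con ρ F) ≠ 0 →
        ρ F + 1 = ρ S ∧ F.card = ρ S := by
      intro F hF hne
      obtain ⟨f1, f2, f3⟩ := mem_mid.1 hF
      have hcF : Conn F ρ := by
        by_contra hcon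
        exact hne (by rw [beta_eq_zero_of_not_conn (h.sub f1) hcon, zero_mul])
      have hcG : Conn (S \ F) (con ρ F) := by
        by_contra hcon
        exact hne (by rw [beta_eq_zero_of_not_conn (h.con f1) hcon, mul_zero])
      rcases flacet_type h hc (by omega) (by omega) heq hF hcF hcG with h1 | h1
      · exact absurd h1.2 (hty F hF hcF hcG h1.1)
      · exact h1
    have hnum := numeric h hc (by omega) (by omega)
      (fun B hB => (eq_conseq h hc (by omega) (by omega) heq hB).1)
      (fun B hB => (eq_conseq h hc (by omega) (by omega) heq hB).2.1) hT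
    exact isU24_of h hc hnum.1 hnum.2 (fun F hF h1 h2 h3 => hty F hF h1 h2 h3.1 h3.2)

end Pool.Agent.H146.BV
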