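import Pool.Agent.H146.BV.Class

/-!
# The converse: volumes of the extremal matroids
-/

namespace Pool.Agent.H146.BV

open MeasureTheory Finset
open scoped ENNReal Nat Pointwise

variable {α : Type} [DecidableEq α] {S : Finset α} {ρ : Finset α → ℕ}

theorem PP_nonempty (h : IsRk S ρ) : (PP S ρ).Nonempty := by
  obtain ⟨B, hB⟩ := exists_IsBas h
  exact ⟨_, ev_mem_PP hB⟩

theorem pieces (h : IsRk S ρ) {B F : Finset α} (hB : IsBas S ρ B) (hF : F ⊆ S)
    (hc : (F ∩ B).card = ρ F) : IsBas F ρ (F ∩ B) ∧ IsBas (S \ F) (con ρ F) (B \ F) := by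
  have h1 := indep_sub h hB.1 hB.2.1 (inter_subset_right : F ∩ B ⊆ B)
  have h2 := card_sdiff_add_card_inter B F
  rw [inter_comm] at h2
  have h3 : B \ F ∪ F = B ∪ F := by
    ext t; simp only [mem_union, mem_sdiff]; tauto
  have h4 : ρ (B ∪ F) = ρ S := by
    apply le_antisymm (h.mono (union_subset hB.1 hF) subset_rfl)
    rw [← hB.2.2, ← hB.2.1]
    exact h.mono subset_union_left (union_subset hB.1 hF)
  have h5 := hB.2.2
  have h6 := h.mono hF subset_rfl
  refine ⟨⟨inter_subset_left, h1, hc⟩, ⟨sdiff_subset_sdiff hB.1 subset_rfl, ?_, ?_⟩⟩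
  · simp only [con]; rw [h3, h4]; omega
  · simp only [con]; rw [sdiff_union_of_subset hF]; omega

theorem cover1 (h : IsRk S ρ) {B F : Finset α} (hF : F ⊆ S)
    (hcov : ∀ B', IsBas S ρ B' → B' ≠ B → (F ∩ B').card = ρ F) : PP S ρ ⊆ Lam S ρ B F := by
  have hK : Convex ℝ (PP F ρ + PP (S \ F) (con ρ F)) :=
    (convex_convexHull ℝ _).add (convex_convexHull ℝ _)
  have hne : (PP F ρ + PP (S \ F) (con ρ F)).Nonempty :=
    (PP_nonempty (h.sub hF)).add (PP_nonempty (h.con hF))
  have h1 : PP S ρ ⊆ convexHull ℝ (insert (ev B) (PP F ρ + PP (S \ F) (con ρ F))) := by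
    apply convexHull_mono
    rintro x ⟨B', hB', rfl⟩
    by_cases hBB : B' = B
    · exact Set.mem_insert_iff.2 (Or.inl (by rw [hBB]))
    · refine Or.inr ?_
      obtain ⟨p1, p2⟩ := pieces h hB' hF (hcov B' hB' hBB)
      refine ⟨_, ev_mem_PP p1, _, ev_mem_PP p2, ?_⟩
      funext i
      simp only [ev, Pi.add_apply, mem_inter, mem_sdiff]
      by_cases hi : i ∈ B' <;> by_cases hiF : i ∈ F <;> simp [hi, hiF]
  rw [convexHull_insert hne, hK.convexHull_eq] at h1
  intro z hz
  obtain ⟨a, ha, p, hp, hseg⟩ := mem_convexJoin.1 (h1 hz)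
  rw [Set.mem_singleton_iff] at ha
  subst ha
  obtain ⟨x, hx, y, hy, rfl⟩ := hp
  obtain ⟨u, v, hu, hv, huv, rfl⟩ := hseg
  refine ⟨v, ⟨hv, by linarith⟩, x, hx, y, hy, ?_⟩
  rw [← huv]
  simp

theorem Vol_le_of_cover [Fintype α] (h : IsRk S ρ) {B F : Finset α} (hB : IsBas S ρ B)
    (hF : F ⊆ S) (hne : F.Nonempty) (hneS : F ≠ S) (hlt : (F ∩ B).card < ρ F)
    (hcov : ∀ B', IsBas S ρ B' → B' ≠ B → (F ∩ B').card = ρ F) :
    Vol S ρ ≤ ((ρ F : ℝ) - (F ∩ B).card) * ((S.card - 2).choose (F.card - 1)) *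
      (Vol F ρ * Vol (S \ F) (con ρ F)) := by
  obtain ⟨e, he⟩ := hne
  have heS := hF he
  rw [Vol_eq heS, ← vol_Lam h hB hF ⟨e, he⟩ hneS hlt heS]
  apply mul_le_mul_of_nonneg_left _ (by positivity)
  apply ENNReal.toReal_mono
  · exact ((measure_mono (Lam_subset h hB hF)).trans_lt
      (hm_lt_top isCompact_PP.measurableSet fun z hz => (PP_facts h hz).2.2.1)).ne
  · exact measure_mono (cover1 h hF hcov)

/-- rank one without loops -/
theorem Vol_rank1 [Fintype α] : ∀ (m : ℕ) (S : Finset α) (ρ : Finset α → ℕ), S.card = m →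
    1 ≤ m → IsRk S ρ → ρ S = 1 → (∀ x ∈ S, ρ {x} = 1) → Vol S ρ ≤ 1 := by
  intro m
  induction m with
  | zero => intro S ρ _ h; omega
  | succ m ih =>
    intro S ρ hm _ h h1 hx
    by_cases hm0 : m = 0
    · obtain ⟨e, rfl⟩ := card_eq_one.1 (show S.card = 1 by omega)
      rw [Vol_single h]
    · obtain ⟨e, he⟩ : S.Nonempty := by rw [← card_pos]; omega
      have ce : (S.erase e).card = m := by rw [card_erase_of_mem he]; omega
      obtain ⟨f, hf⟩ : (S.erase e).Nonempty := by rw [← card_pos]; omega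
      have hfS := mem_of_mem_erase hf
      have hB : IsBas S ρ {e} := ⟨singleton_subset_iff.2 he, by rw [hx e he, card_singleton],
        by rw [card_singleton, h1]⟩
      have hr : ρ (S.erase e) = 1 := by
        have a1 := h.mono (singleton_subset_iff.2 hf) (erase_subset e S)
        have a2 := h.mono (erase_subset e S) subset_rfl
        rw [hx f hfS] at a1
        omega
      have hi : (S.erase e ∩ {e}).card = 0 := by
        rw [card_eq_zero]; ext t; simp
      have key := Vol_le_of_cover h hB (erase_subset e S) ⟨f, hf⟩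
        (by intro heq; rw [heq] at ce; omega) (by rw [hi, hr]; exact one_pos) (by
          intro B' hB' hne
          have hc : B'.card = 1 := by rw [hB'.2.2, h1]
          obtain ⟨x, rfl⟩ := card_eq_one.1 hc
          have hxS := singleton_subset_iff.1 hB'.1
          have hxe : x ≠ e := by
            rintro rfl; exact hne rfl
          rw [inter_singleton_of_mem (mem_erase.2 ⟨hxe, hxS⟩), card_singleton, hr])
      have hS1 : S \ S.erase e = {e} := by
        rw [← sdiff_singleton_eq_erase, Finset.sdiff_sdiff_eq_self (singleton_subset_iff.2 he)]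
      have hv1 : Vol (S \ S.erase e) (con ρ (S.erase e)) = 1 := by
        have := h.con (erase_subset e S)
        rw [hS1] at this ⊢
        exact Vol_single this
      rw [hv1, hi, hr, ce, hm] at key
      have e1 : m + 1 - 2 = m - 1 := by omega
      rw [e1, Nat.choose_self] at key
      have h3 := ih (S.erase e) ρ ce (by omega) (h.delE e) hr
        (fun x hx' => hx x (mem_of_mem_erase hx'))
      norm_num at key
      linarith

/-- circuits -/
theorem Vol_circuit [Fintype α] : ∀ (m : ℕ) (S : Finset α) (ρ : Finset α → ℕ), S.card = m →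
    1 ≤ m → IsRk S ρ → ρ S + 1 = m → (∀ x ∈ S, ρ (S.erase x) = ρ S) → Vol S ρ ≤ 1 := by
  intro m
  induction m with
  | zero => intro S ρ _ h; omega
  | succ m ih =>
    intro S ρ hm _ h h1 hx
    by_cases hm0 : m = 0
    · obtain ⟨e, rfl⟩ := card_eq_one.1 (show S.card = 1 by omega)
      rw [Vol_single h]
    · obtain ⟨e, he⟩ : S.Nonempty := by rw [← card_pos]; omega
      have ce : (S.erase e).card = m := by rw [card_erase_of_mem he]; omega
      obtain ⟨f, hf⟩ : (S.erase e).Nonempty := by rw [← card_pos]; omega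
      have hfS := mem_of_mem_erase hf
      have hfe := ne_of_mem_erase hf
      have hB : IsBas S ρ (S.erase e) := ⟨erase_subset _ _, by rw [hx e he, ce]; omega,
        by rw [ce]; omega⟩
      have hr : ρ {e} = 1 := by
        have a1 : ρ (S.erase f) = (S.erase f).card := by
          rw [hx f hfS, card_erase_of_mem hfS]; omega
        have := indep_sub h (erase_subset f S) a1
          (singleton_subset_iff.2 (mem_erase.2 ⟨hfe.symm, he⟩))
        rwa [card_singleton] at this
      have hi : ({e} ∩ S.erase e).card = 0 := by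
        rw [card_eq_zero]; ext t; simp
      have key := Vol_le_of_cover h hB (singleton_subset_iff.2 he) (singleton_nonempty e)
        (by intro heq; rw [← heq, card_singleton] at hm; omega) (by rw [hi, hr]; exact one_pos) (by
          intro B' hB' hne
          have heB : e ∈ B' := by
            by_contra hcon
            apply hne
            apply eq_of_subset_of_card_le
            · intro t ht
              exact mem_erase.2 ⟨fun h => hcon (h ▸ ht), hB'.1 ht⟩
            · rw [ce, hB'.2.2]; omega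
          rw [singleton_inter_of_mem heB, card_singleton, hr])
      have hv1 : Vol {e} ρ = 1 := Vol_single (h.sub (singleton_subset_iff.2 he))
      rw [hv1, hi, hr, hm, card_singleton, sdiff_singleton_eq_erase] at key
      have hr2 : con ρ {e} (S.erase e) = ρ S - 1 := by
        simp only [con]
        rw [union_comm, ← insert_eq, insert_erase he, hr]
      have h3 := ih (S.erase e) (con ρ {e}) ce (by omega) (h.conE he) (by rw [hr2]; omega) (by
        intro x hx'
        rw [hr2]
        simp only [con]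
        have hxS := mem_of_mem_erase hx'
        have hxe := ne_of_mem_erase hx'
        rw [erase_erase_comm, union_comm, ← insert_eq, insert_erase (mem_erase.2 ⟨hxe.symm, he⟩),
          hx x hxS, hr])
      norm_num at key
      linarith

/-- upper bound for the volume of matroids of type `T` -/
theorem Vol_T [Fintype α] (h : IsRk S ρ) (hc : Conn S ρ) (hS : 2 ≤ S.card) (hT : IsT S ρ) :
    Vol S ρ ≤ ((S.card - 2).choose (ρ S - 1)) := by
  obtain ⟨G, hG, hGc, hbas⟩ := hT
  obtain ⟨k1, k2⟩ := hc.rank_bounds h hS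
  have hBG : IsBas S ρ G := (hbas G).2 ⟨hG, hGc, by simp⟩
  have hFc : (S \ G).card = S.card - ρ S := by rw [card_sdiff_of_subset hG, hGc]
  obtain ⟨f, hf⟩ : (S \ G).Nonempty := by rw [← card_pos]; omega
  have hfS := (mem_sdiff.1 hf).1
  obtain ⟨g, hg⟩ : G.Nonempty := by rw [← card_pos]; omega
  have hel : ∀ x ∈ S, ρ {x} = 1 := fun x hx => (hc.elem h hS hx).1
  -- rank of the parallel class
  have hrF : ρ (S \ G) = 1 := by
    have a1 := h.mono (singleton_subset_iff.2 hf) sdiff_subset
    rw [hel f hfS] at a1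
    obtain ⟨I, _, i2, i3, i4⟩ := exists_basis h (I := ∅) (X := S \ G) (by rw [h.zero, card_empty])
      (empty_subset _) sdiff_subset
    obtain ⟨B, j1, j2, j3, j4⟩ := exists_basis h i3 (i2.trans sdiff_subset : I ⊆ S) subset_rfl
    have hB : IsBas S ρ B := ⟨j2, j3, by rw [← j3, j4]⟩
    have h1 := ((hbas B).1 hB).2.2
    have h2 : I ⊆ B \ G := fun t ht => mem_sdiff.2 ⟨j1 ht, (mem_sdiff.1 (i2 ht)).2⟩
    have := card_le_card h2
    omega
  have hi : ((S \ G) ∩ G).card = 0 := by
    rw [card_eq_zero]; ext t; simp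
  have e1 : ∀ B, B ⊆ S → (S \ G) ∩ B = B \ G := by
    intro B hB
    ext t; simp only [mem_inter, mem_sdiff]
    constructor
    · rintro ⟨⟨_, b⟩, c⟩; exact ⟨c, b⟩
    · rintro ⟨a, b⟩; exact ⟨⟨hB a, b⟩, a⟩
  have key := Vol_le_of_cover h hBG (sdiff_subset : S \ G ⊆ S) ⟨f, hf⟩
    (by intro heq; rw [heq] at hFc; omega) (by rw [hi, hrF]; exact one_pos) (by
      intro B' hB' hne
      obtain ⟨b1, b2, b3⟩ := (hbas B').1 hB'
      rw [e1 B' b1, hrF]
      have : (B' \ G).card ≠ 0 := by
        intro hz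
        rw [card_eq_zero, sdiff_eq_empty_iff_subset] at hz
        exact hne (eq_of_subset_of_card_le hz (by omega))
      omega)
  have hGG : S \ (S \ G) = G := Finset.sdiff_sdiff_eq_self hG
  have v1 : Vol (S \ G) ρ ≤ 1 := Vol_rank1 _ (S \ G) ρ rfl (card_pos.2 ⟨f, hf⟩)
    (h.sub sdiff_subset) hrF (fun x hx => hel x (mem_sdiff.1 hx).1)
  have hu : G ∪ S \ G = S := union_sdiff_of_subset hG
  have hcon : con ρ (S \ G) G = ρ S - 1 := by
    simp only [con]; rw [hu, hrF]
  have v2 : Vol (S \ (S \ G)) (con ρ (S \ G)) ≤ 1 := by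
    have hIs := h.con (sdiff_subset : S \ G ⊆ S)
    rw [hGG] at hIs ⊢
    apply Vol_circuit _ G _ rfl (card_pos.2 ⟨g, hg⟩) hIs
    · rw [hcon]; omega
    · intro x hx
      rw [hcon]
      simp only [con]
      rw [hrF]
      have hxS := hG hx
      have hfx : f ∉ G.erase x := fun h => (mem_sdiff.1 hf).2 (mem_of_mem_erase h)
      have hBx : IsBas S ρ (insert f (G.erase x)) := by
        rw [hbas]
        refine ⟨insert_subset hfS ((erase_subset _ _).trans hG), ?_, ?_⟩
        · rw [card_insert_of_notMem hfx, card_erase_of_mem hx, hGc]; omega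
        · have : insert f (G.erase x) \ G ⊆ {f} := by
            intro t ht
            rw [mem_sdiff, mem_insert, mem_erase] at ht
            rw [mem_singleton]
            rcases ht with ⟨a | a, b⟩
            · exact a
            · exact absurd a.2 b
          have := card_le_card this
          rwa [card_singleton] at this
      have h5 : ρ S ≤ ρ (G.erase x ∪ S \ G) := by
        rw [← hBx.2.2, ← hBx.2.1]
        apply h.mono
        · apply insert_subset (mem_union_right _ hf) subset_union_left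
        · exact union_subset ((erase_subset _ _).trans hG) sdiff_subset
      have h6 := h.mono (union_subset ((erase_subset x G).trans hG) (sdiff_subset : S \ G ⊆ S))
        subset_rfl
      omega
  have v12 : Vol (S \ G) ρ * Vol (S \ (S \ G)) (con ρ (S \ G)) ≤ 1 :=
    mul_le_one₀ v1 Vol_nonneg v2
  rw [hi, hrF, hFc] at key
  have e2 : (S.card - 2).choose (S.card - ρ S - 1) = (S.card - 2).choose (ρ S - 1) := by
    rw [← Nat.choose_symm (show ρ S - 1 ≤ S.card - 2 by omega)]
    congr 1
    omega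
  rw [e2] at key
  have h7 := mul_le_mul_of_nonneg_left v12
    (Nat.cast_nonneg ((S.card - 2).choose (ρ S - 1)) : (0 : ℝ) ≤ _)
  push_cast at key
  linarith

/-! ### The uniform matroid of rank two on four elements -/

theorem mem_PP_rank1 (h : IsRk S ρ) (h1 : ρ S = 1) (hx : ∀ x ∈ S, ρ {x} = 1) {y : α → ℝ}
    (y1 : ∀ i ∉ S, y i = 0) (y2 : ∀ i ∈ S, 0 ≤ y i) (y3 : ∑ i ∈ S, y i = 1) : y ∈ PP S ρ := by
  have hconv : Convex ℝ (PP S ρ) := convex_convexHull ℝ _
  have key := hconv.sum_mem (t := S) (w := y) (z := fun i => ev {i}) y2 y3 (by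
    intro i hi
    apply ev_mem_PP
    exact ⟨singleton_subset_iff.2 hi, by rw [hx i hi, card_singleton],
      by rw [card_singleton, h1]⟩)
  convert key using 1
  funext j
  rw [Finset.sum_apply]
  simp only [Pi.smul_apply, ev, mem_singleton, smul_eq_mul, mul_ite, mul_one, mul_zero]
  by_cases hj : j ∈ S
  · rw [sum_ite_eq, if_pos hj]
  · rw [sum_ite_eq, if_neg hj, y1 j hj]

theorem mem_PP_circuit (h1 : ρ S + 1 = S.card)
    (hx : ∀ x ∈ S, ρ (S.erase x) = ρ S) {y : α → ℝ}
    (y1 : ∀ i ∉ S, y i = 0) (y2 : ∀ i ∈ S, y i ≤ 1) (y3 : ∑ i ∈ S, y i = ρ S) :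
    y ∈ PP S ρ := by
  have hconv : Convex ℝ (PP S ρ) := convex_convexHull ℝ _
  have hc : (S.card : ℝ) = ρ S + 1 := by rw [← h1]; push_cast; ring
  have hs1 : ∑ i ∈ S, (1 - y i) = 1 := by
    rw [sum_sub_distrib, y3, sum_const, nsmul_eq_mul, mul_one, hc]; ring
  have key := hconv.sum_mem (t := S) (w := fun i => 1 - y i) (z := fun i => ev (S.erase i))
    (fun i hi => by have := y2 i hi; linarith) hs1 (by
    intro i hi
    apply ev_mem_PP
    refine ⟨erase_subset _ _, ?_, ?_⟩
    · rw [hx i hi, card_erase_of_mem hi]; omega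
    · rw [card_erase_of_mem hi]; omega)
  convert key using 1
  funext j
  rw [Finset.sum_apply]
  simp only [Pi.smul_apply, ev, mem_erase, smul_eq_mul]
  by_cases hj : j ∈ S
  · have : ∀ i ∈ S, (1 - y i) * (if j ≠ i ∧ j ∈ S then (1 : ℝ) else 0) =
        (1 - y i) - (if j = i then 1 - y i else 0) := by
      intro i _
      by_cases hji : j = i
      · simp [hji]
      · simp [hji, hj]
    rw [sum_congr rfl this, sum_sub_distrib, hs1, sum_ite_eq, if_pos hj]; ring
  · have : ∀ i ∈ S, (1 - y i) * (if j ≠ i ∧ j ∈ S then (1 : ℝ) else 0) = 0 := by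
      intro i _
      simp [hj]
    rw [sum_congr rfl this, y1 j hj]; simp

end Pool.Agent.H146.BV
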