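import Mathlib

/-!
# Definitions: beta invariant and normalised volume of the base polytope

All matroids are matroids on `Fin n` with ground set everything (the hypothesis `M.E = Set.univ` of
the theorems). Subsets of the ground set are `Finset (Fin n)`.
-/

namespace Pool.Agent.H146.BV.Defs

open MeasureTheory
open scoped Nat

variable {n : ℕ}

/-- The rank of a set, as a natural number. -/
noncomputable def rk (M : Matroid (Fin n)) (A : Finset (Fin n)) : ℕ :=
  (M.eRk (A : Set (Fin n))).toNat

/-- The beta invariant `(-1)^(r(M)) ∑_A (-1)^|A| r(A)`, the sum over all subsets `A` of `[n]`. -/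
noncomputable def betaInv (M : Matroid (Fin n)) : ℤ :=
  (-1) ^ rk M Finset.univ * ∑ A : Finset (Fin n), (-1) ^ A.card * (rk M A : ℤ)

/-- Connectivity: there is no nonempty proper subset `A` with `r(A) + r([n] \ A) = r(M)`. -/
def IsConnected (M : Matroid (Fin n)) : Prop :=
  ∀ A : Finset (Fin n), A.Nonempty → A ≠ Finset.univ → rk M A + rk M Aᶜ ≠ rk M Finset.univ

/-- The base polytope: the convex hull of the vectors `e_B`, `B` a base. -/
noncomputable def basePolytope (M : Matroid (Fin n)) : Set (Fin n → ℝ) :=
  convexHull ℝ {x | ∃ B : Finset (Fin n), M.IsBase (B : Set (Fin n)) ∧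
    x = fun i => if i ∈ B then 1 else 0}

/-- Forget the last coordinate: `(x_1, ..., x_n) ↦ (x_1, ..., x_(n-1))`. -/
def dropLast (x : Fin n → ℝ) : Fin (n - 1) → ℝ := fun i => x (Fin.castLE (Nat.sub_le n 1) i)

/-- The normalised volume: `(n-1)!` times the `(n-1)`-dimensional Lebesgue volume of the image of
the base polytope under `(x_1, ..., x_n) ↦ (x_1, ..., x_(n-1))`. -/
noncomputable def normVol (M : Matroid (Fin n)) : ℝ :=
  ((n - 1)! : ℝ) * (volume (dropLast '' basePolytope M)).toReal

/-- `M` is isomorphic to the minimal matroid `T_{k,n}`. The edges of the multigraph obtained from a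
cycle of length `k + 1` by replacing one edge with `n - k` parallel edges are labelled so that
`0, ..., k - 1` are the `k` unreplaced edges of the cycle and `k, ..., n - 1` are the parallel
edges; its spanning trees are the sets of `k` edges with at most one of the parallel edges. -/
def IsIsoT (k : ℕ) (M : Matroid (Fin n)) : Prop :=
  ∃ σ : Equiv.Perm (Fin n), ∀ B : Finset (Fin n),
    M.IsBase (B : Set (Fin n)) ↔ B.card = k ∧ (B.filter fun i => k ≤ (σ i : ℕ)).card ≤ 1

/-- `M` is the uniform matroid `U_{2,4}` (a matroid on four elements, the bases being all sets of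
two elements). -/
def IsIsoU24 (M : Matroid (Fin n)) : Prop :=
  n = 4 ∧ ∀ B : Finset (Fin n), M.IsBase (B : Set (Fin n)) ↔ B.card = 2

end Pool.Agent.H146.BV.Defs
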