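import Pool.Agent.H146.BV.U24
import Pool.Agent.H146.BV.Defs

/-!
# The final statement
-/

namespace Pool.Agent.H146.BV

open MeasureTheory Finset Defs
open scoped ENNReal Nat

variable {n : ℕ}

theorem eRk_fin (M : Matroid (Fin n)) (A : Finset (Fin n)) : M.eRk (A : Set (Fin n)) = (rk M A : ℕ∞) := by
  unfold rk
  rw [ENat.natCast_toNat]
  have h := M.eRk_le_encard (A : Set (Fin n))
  have h2 : (A : Set (Fin n)).encard ≠ ⊤ := by
    rw [Set.encard_ne_top_iff]; exact A.finite_toSet
  exact ne_top_of_le_ne_top h2 h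

theorem isRk_rk (M : Matroid (Fin n)) : IsRk (univ : Finset (Fin n)) (rk M) where
  zero := by simp [rk]
  mono1 := fun A _ e _ => by
    have h := M.eRk_mono (show (A : Set (Fin n)) ⊆ ((insert e A : Finset (Fin n)) : Set (Fin n)) by
      exact_mod_cast subset_insert e A)
    rw [eRk_fin, eRk_fin] at h
    exact_mod_cast h
  unit := fun A _ e _ => by
    have h := M.eRk_insert_le_add_one e (A : Set (Fin n))
    rw [← coe_insert, eRk_fin, eRk_fin] at h
    exact_mod_cast h
  submod := fun A _ B _ => by
    have h := M.eRk_inter_add_eRk_union_le (A : Set (Fin n)) (B : Set (Fin n))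
    rw [← coe_inter, ← coe_union, eRk_fin, eRk_fin, eRk_fin, eRk_fin] at h
    have h' : rk M (A ∩ B) + rk M (A ∪ B) ≤ rk M A + rk M B := by exact_mod_cast h
    omega

theorem conn_of (M : Matroid (Fin n)) (hc : IsConnected M) :
    Conn (univ : Finset (Fin n)) (rk M) := by
  intro A _ hne hneS
  have h1 := hc A hne hneS
  have h2 := (isRk_rk M).union_le (A := A) (B := univ \ A) (subset_univ _) (subset_univ _)
  have h3 : A ∪ univ \ A = univ := union_sdiff_of_subset (subset_univ _)
  rw [h3] at h2
  rw [← compl_eq_univ_sdiff] at h2 ⊢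
  omega

theorem isBas_iff (M : Matroid (Fin n)) (B : Finset (Fin n)) :
    IsBas univ (rk M) B ↔ M.IsBase (B : Set (Fin n)) := by
  have hr : M.eRank = (rk M univ : ℕ∞) := by
    rw [← eRk_fin, coe_univ, M.eRk_univ_eq]
  constructor
  · rintro ⟨_, h2, h3⟩
    have hI : M.Indep (B : Set (Fin n)) := by
      rw [Matroid.indep_iff_eRk_eq_encard_of_finite B.finite_toSet, eRk_fin, h2,
        Set.encard_coe_eq_coe_finsetCard]
    apply hI.isBase_of_eRk_ge B.finite_toSet
    rw [eRk_fin, hr, h2, h3]
  · intro hB
    have h1 : (rk M B : ℕ∞) = B.card := by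
      rw [← eRk_fin, hB.indep.eRk_eq_encard, Set.encard_coe_eq_coe_finsetCard]
    have h2 : (B.card : ℕ∞) = rk M univ := by
      rw [← hr, ← hB.encard_eq_eRank, Set.encard_coe_eq_coe_finsetCard]
    exact ⟨subset_univ _, by exact_mod_cast h1, by exact_mod_cast h2⟩

theorem betaInv_eq (M : Matroid (Fin n)) : betaInv M = beta univ (rk M) := by
  unfold betaInv beta altSum
  rw [powerset_univ]

theorem basePolytope_eq (M : Matroid (Fin n)) :
    basePolytope M = PP univ (rk M) := by
  unfold basePolytope PP
  congr 1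
  ext x
  constructor
  · rintro ⟨B, hB, rfl⟩
    exact ⟨B, (isBas_iff M B).2 hB, rfl⟩
  · rintro ⟨B, hB, rfl⟩
    exact ⟨B, (isBas_iff M B).1 hB, rfl⟩

/-- The hyperplane measure is the measure of the projection. -/
theorem hm_proj {m : ℕ} {c : ℝ} {P : Set (Fin (m + 1) → ℝ)} (hP : IsCompact P)
    (hsum : ∀ x ∈ P, ∑ i, x i = c) :
    hm univ (Fin.last m) c P = volume ((fun (x : Fin (m + 1) → ℝ) (i : Fin m) => x i.castSucc) '' P) := by
  set π : (Fin (m + 1) → ℝ) → (Fin m → ℝ) := fun x i => x i.castSucc with hπ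
  have hcont : Continuous π := by fun_prop
  have mP : MeasurableSet P := hP.measurableSet
  have mQ : MeasurableSet (π '' P) := (hP.image hcont).measurableSet
  have herase : (univ : Finset (Fin (m + 1))).erase (Fin.last m) =
      (univ : Finset (Fin m)).image Fin.castSucc := by
    ext i
    simp only [mem_erase, mem_univ, and_true, mem_image, true_and]
    constructor
    · intro h
      exact ⟨i.castPred h, Fin.castSucc_castPred i h⟩
    · rintro ⟨j, rfl⟩
      exact (Fin.castSucc_lt_last j).ne
  have hind : ind univ (Fin.last m) c P =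
      ((π '' P).indicator (fun _ => (1 : ℝ≥0∞))) ∘ π := by
    funext x
    unfold ind
    simp only [Function.comp]
    have hπtr : π (tr univ (Fin.last m) c x) = π x := by
      funext i
      simp only [hπ, tr]
      rw [if_neg (Fin.castSucc_lt_last i).ne, if_pos (mem_univ _)]
    by_cases hx : tr univ (Fin.last m) c x ∈ P
    · have h2 : π x ∈ π '' P := ⟨_, hx, hπtr⟩
      rw [Set.indicator_of_mem hx, Set.indicator_of_mem h2]
    · have h2 : π x ∉ π '' P := by
        rintro ⟨y, hy, hyx⟩
        apply hx
        have : tr univ (Fin.last m) c x = y := by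
          have hall : ∀ i : Fin m, y i.castSucc = x i.castSucc := fun i => congrFun hyx i
          funext i
          simp only [tr]
          by_cases hi : i = Fin.last m
          · rw [if_pos hi, hi]
            have h5 := hsum y hy
            rw [Fin.sum_univ_castSucc] at h5
            have h6 : ∑ j ∈ univ.erase (Fin.last m), x j = ∑ j : Fin m, x j.castSucc := by
              rw [herase, sum_image (fun a _ b _ hab => Fin.castSucc_injective _ hab)]
            rw [h6, ← sum_congr rfl (fun j _ => hall j), ← h5]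
            ring
          · rw [if_neg hi, if_pos (mem_univ _)]
            have := hall (i.castPred hi)
            rw [Fin.castSucc_castPred] at this
            exact this.symm
        rw [this]; exact hy
      rw [Set.indicator_of_notMem hx, Set.indicator_of_notMem h2]
  rw [hm_lmarg mP 0, hind, herase]
  have key := lmarginal_image (X := fun _ : Fin (m + 1) => ℝ) (μ := fun _ => (volume : Measure ℝ))
    (e := (Fin.castSucc : Fin m → Fin (m + 1))) (Fin.castSucc_injective m) univ
    (f := (π '' P).indicator (fun _ => (1 : ℝ≥0∞))) (measurable_const.indicator mQ) 0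
  refine key.trans ?_
  rw [lmarginal_univ]
  change ∫⁻ x : Fin m → ℝ, (π '' P).indicator (fun _ => (1 : ℝ≥0∞)) x
    ∂(Measure.pi fun _ => (volume : Measure ℝ)) = _
  rw [← volume_pi]
  exact lintegral_indicator_one mQ

theorem normVol_eq {m : ℕ} (M : Matroid (Fin (m + 1))) :
    normVol M = Vol univ (rk M) := by
  rw [Vol_eq (mem_univ (Fin.last m)), card_univ, Fintype.card_fin]
  rw [hm_proj isCompact_PP (fun x hx => by
    exact (PP_facts (isRk_rk M) hx).2.1)]
  unfold normVol
  rw [basePolytope_eq M]
  rfl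

theorem isT_iff (M : Matroid (Fin n)) {k : ℕ} (hk : rk M univ = k) (hkn : k ≤ n) :
    IsT univ (rk M) ↔ IsIsoT k M := by
  have hcard : (univ.filter fun i : Fin n => (i : ℕ) < k).card = k := by
    rw [Fin.card_filter_val_lt, min_eq_right hkn]
  constructor
  · rintro ⟨G, _, hG, hb⟩
    obtain ⟨σ, hσ⟩ := Equiv.Perm.exists_map_finset_eq G (univ.filter fun i : Fin n => (i : ℕ) < k)
      (by rw [hcard, hG, hk])
    have hmem : ∀ i, i ∈ G ↔ (σ i : ℕ) < k := by
      intro i
      have h1 : σ i ∈ G.map σ.toEmbedding ↔ i ∈ G := by simp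
      rw [← h1, hσ]; simp
    refine ⟨σ, fun B => ?_⟩
    rw [← isBas_iff, hb, hk]
    have e : B \ G = B.filter fun i => k ≤ (σ i : ℕ) := by
      ext i; simp only [mem_sdiff, mem_filter, hmem, not_lt]
    rw [e]
    simp
  · rintro ⟨σ, hσ⟩
    refine ⟨univ.filter fun i => (σ i : ℕ) < k, subset_univ _, ?_, ?_⟩
    · have : (univ.filter fun i => (σ i : ℕ) < k).map σ.toEmbedding =
          univ.filter fun i : Fin n => (i : ℕ) < k := by
        ext j
        simp only [mem_map, mem_filter, mem_univ, true_and, Equiv.coe_toEmbedding]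
        constructor
        · rintro ⟨i, hi, rfl⟩; exact hi
        · intro hj
          exact ⟨σ.symm j, by simpa using hj, by simp⟩
      rw [← card_map σ.toEmbedding, this, hcard, hk]
    · intro B
      rw [isBas_iff, hσ, hk]
      have e : B \ (univ.filter fun i => (σ i : ℕ) < k) = B.filter fun i => k ≤ (σ i : ℕ) := by
        ext i; simp only [mem_sdiff, mem_filter, mem_univ, true_and, not_lt]
      rw [e]
      simp

theorem isU24_iff (M : Matroid (Fin n)) : IsU24 univ (rk M) ↔ IsIsoU24 M := by
  constructor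
  · rintro ⟨h1, _, h3⟩
    rw [card_univ, Fintype.card_fin] at h1
    refine ⟨h1, fun B => ?_⟩
    rw [← isBas_iff, h3]; simp
  · rintro ⟨h1, h2⟩
    obtain ⟨B, hB⟩ := exists_IsBas (isRk_rk M)
    have h3 := (h2 B).1 ((isBas_iff M B).1 hB)
    refine ⟨by rw [card_univ, Fintype.card_fin, h1], by rw [← hB.2.2, h3], fun B => ?_⟩
    rw [isBas_iff, h2]; simp

/-- The full statement. -/
theorem main_final (n : ℕ) (hn : 2 ≤ n) (k : ℕ) (M : Matroid (Fin n)) (hk : M.eRank = k)
    (hc : IsConnected M) :
    (betaInv M : ℝ) * ((n - 2).choose (k - 1) : ℝ) ≤ normVol M ∧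
      ((betaInv M : ℝ) * ((n - 2).choose (k - 1) : ℝ) = normVol M ↔ IsIsoT k M ∨ IsIsoU24 M) := by
  obtain ⟨m, rfl⟩ : ∃ m, n = m + 1 := ⟨n - 1, by omega⟩
  have hr : rk M univ = k := by
    have : (rk M univ : ℕ∞) = k := by
      rw [← eRk_fin, coe_univ, M.eRk_univ_eq, hk]
    exact_mod_cast this
  have hS : 2 ≤ (univ : Finset (Fin (m + 1))).card := by
    rw [card_univ, Fintype.card_fin]; exact hn
  have hkn : k ≤ m + 1 := by
    have := (isRk_rk M).le_card (subset_refl univ)
    rw [card_univ, Fintype.card_fin, hr] at this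
    exact this
  have h := full (isRk_rk M) (conn_of M hc) hS
  rw [card_univ, Fintype.card_fin, hr, ← betaInv_eq, ← normVol_eq, isT_iff M hr hkn,
    isU24_iff] at h
  exact h

end Pool.Agent.H146.BV
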