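import Mathlib

/-!
# Volumes in a coordinate hyperplane
-/

namespace Pool.Agent.H146.BV

open MeasureTheory Finset Function
open scoped ENNReal

variable {α : Type} [DecidableEq α]

/-- Keep the coordinates of `S.erase e`, fill in the coordinate `e`, zero elsewhere. -/
noncomputable def tr (S : Finset α) (e : α) (c : ℝ) (x : α → ℝ) : α → ℝ :=
  fun i => if i = e then c - ∑ j ∈ S.erase e, x j else if i ∈ S then x i else 0

theorem tr_congr {S : Finset α} {e : α} {c : ℝ} {x y : α → ℝ}
    (h : ∀ j ∈ S.erase e, x j = y j) : tr S e c x = tr S e c y := by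
  funext i
  simp only [tr]
  by_cases hi : i = e
  · rw [if_pos hi, if_pos hi, sum_congr rfl h]
  · rw [if_neg hi, if_neg hi]
    by_cases hS : i ∈ S
    · rw [if_pos hS, if_pos hS, h i (mem_erase.2 ⟨hi, hS⟩)]
    · rw [if_neg hS, if_neg hS]

theorem measurable_tr (S : Finset α) (e : α) (c : ℝ) : Measurable (tr S e c) := by
  rw [measurable_pi_iff]
  intro i
  unfold tr
  by_cases hi : i = e
  · simp only [hi, if_true]
    exact measurable_const.sub (Finset.measurable_sum _ fun j _ => measurable_pi_apply j)
  · simp only [hi, if_false]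
    by_cases hS : i ∈ S
    · simp only [hS, if_true]; exact measurable_pi_apply i
    · simp only [hS, if_false]; exact measurable_const

/-- The hyperplane measure. -/
noncomputable def hm (S : Finset α) (e : α) (c : ℝ) : Measure (α → ℝ) :=
  Measure.map (fun y : (↥(S.erase e) → ℝ) =>
    tr S e c (updateFinset (0 : α → ℝ) (S.erase e) y)) volume

theorem measurable_ext (S : Finset α) (e : α) (c : ℝ) :
    Measurable (fun y : (↥(S.erase e) → ℝ) =>
      tr S e c (updateFinset (0 : α → ℝ) (S.erase e) y)) :=
  (measurable_tr S e c).comp measurable_updateFinset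

theorem hm_apply {S : Finset α} {e : α} {c : ℝ} {K : Set (α → ℝ)} (hK : MeasurableSet K) :
    hm S e c K = volume ((fun y : (↥(S.erase e) → ℝ) =>
      tr S e c (updateFinset (0 : α → ℝ) (S.erase e) y)) ⁻¹' K) :=
  Measure.map_apply (measurable_ext S e c) hK

/-- The indicator function attached to a set. -/
noncomputable def ind (S : Finset α) (e : α) (c : ℝ) (K : Set (α → ℝ)) : (α → ℝ) → ℝ≥0∞ :=
  fun x => K.indicator (fun _ => 1) (tr S e c x)

theorem measurable_ind {S : Finset α} {e : α} {c : ℝ} {K : Set (α → ℝ)} (hK : MeasurableSet K) :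
    Measurable (ind S e c K) :=
  (measurable_const.indicator hK).comp (measurable_tr S e c)

theorem hm_lmarg {S : Finset α} {e : α} {c : ℝ} {K : Set (α → ℝ)} (hK : MeasurableSet K)
    (x : α → ℝ) :
    hm S e c K = (∫⋯∫⁻_(S.erase e), ind S e c K ∂(fun _ : α => (volume : Measure ℝ))) x := by
  rw [← lintegral_indicator_one hK, hm, lintegral_map (measurable_one.indicator hK)
    (measurable_ext S e c)]
  unfold lmarginal
  apply lintegral_congr
  intro y
  unfold ind
  congr 1
  apply tr_congr
  intro j hj
  simp only [updateFinset, dif_pos hj]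

/-- change of the distinguished element -/
theorem hm_indep {S : Finset α} {e f : α} (he : e ∈ S) (hf : f ∈ S) {c : ℝ} {K : Set (α → ℝ)}
    (hK : MeasurableSet K) : hm S e c K = hm S f c K := by
  by_cases hef : e = f
  · rw [hef]
  rw [hm_lmarg hK 0, hm_lmarg hK 0]
  have h1 : S.erase e = insert f ((S.erase e).erase f) :=
    (insert_erase (mem_erase.2 ⟨fun h => hef h.symm, hf⟩)).symm
  have h2 : S.erase f = insert e ((S.erase e).erase f) := by
    rw [erase_right_comm]
    exact (insert_erase (mem_erase.2 ⟨hef, he⟩)).symm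
  set T := (S.erase e).erase f with hT
  have heT : e ∉ T := by simp [hT]
  have hfT : f ∉ T := by simp [hT]
  rw [h1, h2, lmarginal_insert' _ (measurable_ind hK) hfT, lmarginal_insert' _ (measurable_ind hK) heT]
  congr 1
  funext x
  -- substitution
  have h3 : ∀ t : ℝ, ind S e c K (update x f t) =
      ind S f c K (update x e ((c - ∑ j ∈ T, x j) - t)) := by
    intro t
    unfold ind
    congr 1
    funext i
    simp only [tr]
    rw [h1, h2, sum_insert hfT, sum_insert heT]
    have s1 : ∑ j ∈ T, update x f t j = ∑ j ∈ T, x j :=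
      sum_congr rfl fun j hj => update_of_ne (ne_of_mem_of_not_mem hj hfT) _ _
    have s2 : ∑ j ∈ T, update x e ((c - ∑ j ∈ T, x j) - t) j = ∑ j ∈ T, x j :=
      sum_congr rfl fun j hj => update_of_ne (ne_of_mem_of_not_mem hj heT) _ _
    rw [s1, s2, update_self, update_self]
    by_cases hi : i = e
    · subst hi
      rw [if_pos rfl, if_neg hef, if_pos he, update_self]; ring
    · rw [if_neg hi]
      by_cases hi2 : i = f
      · subst hi2
        rw [if_pos hf, if_pos rfl, update_self]; ring
      · rw [if_neg hi2, update_of_ne hi2, update_of_ne hi]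
  simp_rw [h3]
  exact lintegral_sub_left_eq_self (fun t => ind S f c K (update x e t)) _

/-- scaling -/
theorem hm_scale {S : Finset α} {e : α} (he : e ∈ S) {c : ℝ} {b : α → ℝ}
    {s : ℝ} (hs : 0 < s) (hb : ∀ i ∉ S, b i = 0) {K : Set (α → ℝ)} (hK : MeasurableSet K) :
    hm S e ((1 - s) * (∑ i ∈ S, b i) + s * c) K =
      ENNReal.ofReal (s ^ (S.card - 1)) * hm S e c ((fun z => (1 - s) • b + s • z) ⁻¹' K) := by
  have hφ : Measurable (fun z : α → ℝ => (1 - s) • b + s • z) := by
    apply Measurable.const_add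
    exact measurable_id.const_smul s
  rw [hm_apply hK, hm_apply (hφ hK)]
  set T := S.erase e with hT
  set b' : ↥T → ℝ := fun i => b i with hb'
  have hψ : ∀ y : ↥T → ℝ, AffineMap.homothety b' s y = (1 - s) • b' + s • y := by
    intro y
    rw [AffineMap.homothety_apply]
    ext i
    simp only [vsub_eq_sub, vadd_eq_add, Pi.add_apply, Pi.smul_apply, Pi.sub_apply, smul_eq_mul]
    ring
  have hsurj : Function.Surjective (AffineMap.homothety b' s : (↥T → ℝ) → (↥T → ℝ)) := by
    intro w
    refine ⟨s⁻¹ • (w - (1 - s) • b'), ?_⟩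
    rw [hψ, smul_smul, mul_inv_cancel₀ hs.ne', one_smul]
    abel
  have hkey : (fun y : ↥T → ℝ => tr S e c (updateFinset (0 : α → ℝ) T y)) ⁻¹'
      ((fun z => (1 - s) • b + s • z) ⁻¹' K) =
      (AffineMap.homothety b' s : (↥T → ℝ) → (↥T → ℝ)) ⁻¹'
        ((fun y : ↥T → ℝ => tr S e ((1 - s) * (∑ i ∈ S, b i) + s * c)
          (updateFinset (0 : α → ℝ) T y)) ⁻¹' K) := by
    ext y
    simp only [Set.mem_preimage]
    have : (1 - s) • b + s • tr S e c (updateFinset (0 : α → ℝ) T y) =
        tr S e ((1 - s) * (∑ i ∈ S, b i) + s * c)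
          (updateFinset (0 : α → ℝ) T (AffineMap.homothety b' s y)) := by
      rw [hψ]
      funext i
      simp only [tr, Pi.add_apply, Pi.smul_apply, smul_eq_mul]
      by_cases hi : i = e
      · rw [if_pos hi, if_pos hi, ← hT]
        have h1 : ∑ j ∈ T, updateFinset (0 : α → ℝ) T ((1 - s) • b' + s • y) j =
            (1 - s) * ∑ j ∈ T, b j + s * ∑ j ∈ T, updateFinset (0 : α → ℝ) T y j := by
          rw [mul_sum, mul_sum, ← sum_add_distrib]
          apply sum_congr rfl
          intro j hj
          simp only [updateFinset, dif_pos hj, Pi.add_apply, Pi.smul_apply, smul_eq_mul, hb']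
        rw [h1, hi, ← add_sum_erase S b he, ← hT]
        ring
      · rw [if_neg hi, if_neg hi]
        by_cases hS : i ∈ S
        · have hiT : i ∈ T := mem_erase.2 ⟨hi, hS⟩
          rw [if_pos hS, if_pos hS]
          simp only [updateFinset, dif_pos hiT, Pi.add_apply, Pi.smul_apply, smul_eq_mul, hb']
        · rw [if_neg hS, if_neg hS, hb i hS]; simp
    rw [this]
  rw [hkey]
  set A := (fun y : ↥T → ℝ => tr S e ((1 - s) * (∑ i ∈ S, b i) + s * c)
          (updateFinset (0 : α → ℝ) T y)) ⁻¹' K with hA
  have h2 := Measure.addHaar_image_homothety (volume : Measure (↥T → ℝ)) b' s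
    ((AffineMap.homothety b' s : (↥T → ℝ) → (↥T → ℝ)) ⁻¹' A)
  have hcT : T.card = S.card - 1 := card_erase_of_mem he
  rw [Set.image_preimage_eq _ hsurj, Module.finrank_fintype_fun_eq_card, Fintype.card_coe, hcT,
    abs_of_pos (pow_pos hs _)] at h2
  exact h2

end Pool.Agent.H146.BV
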