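import Pool.Agent.H146.BV.PyrIneq
import Pool.Agent.H146.BV.Binom

/-!
# The main inequality
-/

namespace Pool.Agent.H146.BV

open Finset

variable {α : Type} [DecidableEq α] {S : Finset α} {ρ : Finset α → ℕ}

theorem span_eq (h : IsRk S ρ) {B : Finset α} (hB : B ⊆ S) (X : Finset α) (hX : X ⊆ S)
    (hcl : ∀ x ∈ X, ρ (insert x B) = ρ B) : ρ (B ∪ X) = ρ B := by
  induction X using Finset.induction_on with
  | empty => rw [union_empty]
  | insert x X hx ih =>
    have h1 := ih ((subset_insert _ _).trans hX) (fun y hy => hcl y (mem_insert_of_mem hy))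
    have h2 := closure_lem h hB (hX (mem_insert_self x X)) (hcl x (mem_insert_self x X))
      ((subset_insert _ _).trans hX : X ⊆ S)
    have e1 : B ∪ insert x X = X ∪ insert x B := by
      ext t; simp only [mem_union, mem_insert]; tauto
    rw [e1, h2, union_comm, h1]

theorem exists_basis (h : IsRk S ρ) {I X : Finset α} (hI : ρ I = I.card) (hIX : I ⊆ X)
    (hX : X ⊆ S) : ∃ B, I ⊆ B ∧ B ⊆ X ∧ ρ B = B.card ∧ ρ B = ρ X := by
  obtain ⟨B, hB, hmax⟩ := exists_max_image (X.powerset.filter fun B => I ⊆ B ∧ ρ B = B.card)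
    (fun B => B.card) ⟨I, by simp [hIX, hI]⟩
  rw [mem_filter, mem_powerset] at hB
  obtain ⟨b1, b2, b3⟩ := hB
  refine ⟨B, b2, b1, b3, ?_⟩
  have hcl : ∀ x ∈ X, ρ (insert x B) = ρ B := by
    intro x hx
    by_contra hne
    have hxB : x ∉ B := fun hx2 => hne (by rw [insert_eq_of_mem hx2])
    have u1 := h.unit B (b1.trans hX) x (hX hx)
    have u2 := h.mono1 B (b1.trans hX) x (hX hx)
    have := hmax (insert x B) (by
      rw [mem_filter, mem_powerset]
      refine ⟨insert_subset hx b1, b2.trans (subset_insert _ _), ?_⟩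
      rw [card_insert_of_notMem hxB]; omega)
    rw [card_insert_of_notMem hxB] at this
    omega
  have h1 := span_eq h (b1.trans hX) X hX hcl
  rw [union_eq_right.2 b1] at h1
  exact h1.symm

theorem exists_IsBas (h : IsRk S ρ) : ∃ B, IsBas S ρ B := by
  obtain ⟨B, _, b2, b3, b4⟩ := exists_basis h (I := ∅) (X := S) (by rw [h.zero, card_empty])
    (empty_subset _) subset_rfl
  exact ⟨B, b2, b3, by rw [← b3, b4]⟩

theorem Conn.rank_bounds (hc : Conn S ρ) (h : IsRk S ρ) (hS : 2 ≤ S.card) :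
    1 ≤ ρ S ∧ ρ S + 1 ≤ S.card := by
  obtain ⟨e, he⟩ : S.Nonempty := by rw [← card_pos]; omega
  obtain ⟨g1, g2⟩ := hc.elem h hS he
  constructor
  · rw [← g1]; exact h.mono (singleton_subset_iff.2 he) subset_rfl
  · have := h.le_card (erase_subset e S)
    rw [card_erase_of_mem he] at this
    omega

/-- The defect of a set of middle size. -/
noncomputable def slack (S : Finset α) (ρ : Finset α → ℕ) (B F : Finset α) : ℝ :=
  ((ρ F : ℝ) - (F ∩ B).card) * ((S.card - 2).choose (F.card - 1)) *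
    (Vol F ρ * Vol (S \ F) (con ρ F)) - ((S.card - 2).choose (ρ S - 1)) * (tm S ρ B F : ℝ)

/-- lower bound for volumes of products -/
theorem prod_lower (h : IsRk S ρ) {F : Finset α} (hF : F ∈ mid S)
    (hIH : ∀ (T : Finset α) (σ : Finset α → ℕ), T.card < S.card → 2 ≤ T.card → IsRk T σ →
      (beta T σ : ℝ) * ((T.card - 2).choose (σ T - 1)) ≤ Vol T σ) :
    ((F.card - 2).choose (ρ F - 1) * ((S.card - F.card) - 2).choose (ρ S - ρ F - 1) : ℕ) *
      ((beta F ρ : ℝ) * beta (S \ F) (con ρ F)) ≤ Vol F ρ * Vol (S \ F) (con ρ F) := by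
  obtain ⟨f1, f2, f3⟩ := mem_mid.1 hF
  have cG : (S \ F).card = S.card - F.card := card_sdiff_of_subset f1
  have h1 := hIH F ρ (by omega) f2 (h.sub f1)
  have h2 := hIH (S \ F) (con ρ F) (by omega) (by omega) (h.con f1)
  have hr : con ρ F (S \ F) = ρ S - ρ F := by
    simp only [con]; rw [sdiff_union_of_subset f1]
  rw [cG, hr] at h2
  have b1 : (0 : ℝ) ≤ beta F ρ := by exact_mod_cast (h.sub f1).beta_nonneg
  have b2 : (0 : ℝ) ≤ beta (S \ F) (con ρ F) := by exact_mod_cast (h.con f1).beta_nonneg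
  have h3 := mul_le_mul h1 h2 (mul_nonneg b2 (Nat.cast_nonneg _)) Vol_nonneg
  push_cast
  refine le_trans (le_of_eq ?_) h3
  ring

theorem slack_nonneg (h : IsRk S ρ) {B F : Finset α} (hB : IsBas S ρ B) (hF : F ∈ mid S)
    (hIH : ∀ (T : Finset α) (σ : Finset α → ℕ), T.card < S.card → 2 ≤ T.card → IsRk T σ →
      (beta T σ : ℝ) * ((T.card - 2).choose (σ T - 1)) ≤ Vol T σ) : 0 ≤ slack S ρ B F := by
  obtain ⟨f1, f2, f3⟩ := mem_mid.1 hF
  have cG : (S \ F).card = S.card - F.card := card_sdiff_of_subset f1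
  unfold slack tm
  have hw : (0 : ℝ) ≤ (ρ F : ℝ) - (F ∩ B).card := by
    have : ((F ∩ B).card : ℝ) ≤ ρ F := by exact_mod_cast hB.inter_le h f1
    linarith
  have b1 : (0 : ℝ) ≤ beta F ρ := by exact_mod_cast (h.sub f1).beta_nonneg
  have b2 : (0 : ℝ) ≤ beta (S \ F) (con ρ F) := by exact_mod_cast (h.con f1).beta_nonneg
  have key : ((S.card - 2).choose (ρ S - 1) : ℝ) * ((beta F ρ : ℝ) * beta (S \ F) (con ρ F)) ≤
      ((S.card - 2).choose (F.card - 1)) * (Vol F ρ * Vol (S \ F) (con ρ F)) := by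
    by_cases hcF : Conn F ρ
    · by_cases hcG : Conn (S \ F) (con ρ F)
      · obtain ⟨r1, r2⟩ := hcF.rank_bounds (h.sub f1) f2
        obtain ⟨s1, s2⟩ := hcG.rank_bounds (h.con f1) (by omega)
        have hr : con ρ F (S \ F) = ρ S - ρ F := by
          simp only [con]; rw [sdiff_union_of_subset f1]
        rw [hr] at s1 s2
        have hbin := binom_ge' (f := F.card) (g := S.card - F.card) (r := ρ F) (k := ρ S) r1 r2
          (by omega) (by omega)
        have e1 : F.card + (S.card - F.card) - 2 = S.card - 2 := by omega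
        rw [e1] at hbin
        have hbin' : ((S.card - 2).choose (ρ S - 1) : ℝ) ≤ ((S.card - 2).choose (F.card - 1) : ℝ) *
            ((F.card - 2).choose (ρ F - 1) * ((S.card - F.card) - 2).choose (ρ S - ρ F - 1) : ℕ) := by
          exact_mod_cast hbin
        have h2 := prod_lower h hF hIH
        calc ((S.card - 2).choose (ρ S - 1) : ℝ) * ((beta F ρ : ℝ) * beta (S \ F) (con ρ F))
            ≤ (((S.card - 2).choose (F.card - 1) : ℝ) *
            ((F.card - 2).choose (ρ F - 1) * ((S.card - F.card) - 2).choose (ρ S - ρ F - 1) : ℕ)) *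
              ((beta F ρ : ℝ) * beta (S \ F) (con ρ F)) :=
              mul_le_mul_of_nonneg_right hbin' (mul_nonneg b1 b2)
          _ = ((S.card - 2).choose (F.card - 1) : ℝ) *
            (((F.card - 2).choose (ρ F - 1) * ((S.card - F.card) - 2).choose (ρ S - ρ F - 1) : ℕ) *
              ((beta F ρ : ℝ) * beta (S \ F) (con ρ F))) := by ring
          _ ≤ _ := mul_le_mul_of_nonneg_left h2 (Nat.cast_nonneg _)
      · rw [beta_eq_zero_of_not_conn (h.con f1) hcG]
        simp only [Int.cast_zero, mul_zero]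
        exact mul_nonneg (Nat.cast_nonneg _) (mul_nonneg Vol_nonneg Vol_nonneg)
    · rw [beta_eq_zero_of_not_conn (h.sub f1) hcF]
      simp only [Int.cast_zero, zero_mul, mul_zero]
      exact mul_nonneg (Nat.cast_nonneg _) (mul_nonneg Vol_nonneg Vol_nonneg)
  have h3 := mul_le_mul_of_nonneg_left key hw
  push_cast
  linarith

/-- decomposition of the pyramid inequality -/
theorem decomp [Fintype α] (h : IsRk S ρ) (hc : Conn S ρ) (hS : 3 ≤ S.card) {B : Finset α}
    (hB : IsBas S ρ B) :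
    ∑ e ∈ S \ B, Vol (S.erase e) (con ρ {e}) + ∑ e ∈ B, Vol (S.erase e) ρ +
      ∑ F ∈ mid S, ((ρ F : ℝ) - (F ∩ B).card) * ((S.card - 2).choose (F.card - 1)) *
        (Vol F ρ * Vol (S \ F) (con ρ F)) ≤ Vol S ρ := by
  set A1 := (S \ B).image (fun e => ({e} : Finset α)) with hA1
  set A2 := B.image (fun e => S.erase e) with hA2
  set T : Finset α → ℝ := fun F => ((ρ F : ℝ) - (F ∩ B).card) *
    ((S.card - 2).choose (F.card - 1)) * (Vol F ρ * Vol (S \ F) (con ρ F)) with hT
  have m1 : ∀ F ∈ A1, F.card = 1 := by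
    intro F hF
    rw [hA1, mem_image] at hF
    obtain ⟨e, _, rfl⟩ := hF
    exact card_singleton e
  have m2 : ∀ F ∈ A2, F.card = S.card - 1 := by
    intro F hF
    rw [hA2, mem_image] at hF
    obtain ⟨e, he, rfl⟩ := hF
    exact card_erase_of_mem (hB.1 he)
  have d1 : Disjoint A1 A2 := by
    rw [disjoint_left]; intro F h1 h2
    have := m1 F h1
    have := m2 F h2
    omega
  have d2 : Disjoint (A1 ∪ A2) (mid S) := by
    rw [disjoint_left]; intro F h1 h2
    obtain ⟨_, f2, f3⟩ := mem_mid.1 h2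
    rcases mem_union.1 h1 with h1 | h1
    · have := m1 F h1
      omega
    · have := m2 F h1
      omega
  have hmem : ∀ F ∈ A1 ∪ A2 ∪ mid S, F ⊆ S ∧ F.Nonempty ∧ F ≠ S := by
    intro F hF
    rw [mem_union, mem_union] at hF
    rcases hF with (hF | hF) | hF
    · have hc1 := m1 F hF
      rw [hA1, mem_image] at hF
      obtain ⟨e, he, rfl⟩ := hF
      refine ⟨singleton_subset_iff.2 (mem_sdiff.1 he).1, singleton_nonempty e, ?_⟩
      intro heq
      rw [heq] at hc1; omega
    · have hc1 := m2 F hF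
      rw [hA2, mem_image] at hF
      obtain ⟨e, he, rfl⟩ := hF
      refine ⟨erase_subset _ _, ?_, ?_⟩
      · rw [← card_pos]; omega
      · intro heq
        rw [heq] at hc1; omega
    · obtain ⟨f1, f2, f3⟩ := mem_mid.1 hF
      refine ⟨f1, by rw [← card_pos]; omega, ?_⟩
      rintro rfl; omega
  have key := pyr_ineq h (by rw [← card_pos]; omega) hB (A1 ∪ A2 ∪ mid S) hmem
  rw [sum_union d2, sum_union d1] at key
  have s1 : ∑ F ∈ A1, T F = ∑ e ∈ S \ B, Vol (S.erase e) (con ρ {e}) := by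
    rw [hA1, sum_image (fun a _ b _ hab => singleton_injective hab)]
    apply sum_congr rfl
    intro e he
    rw [mem_sdiff] at he
    have g1 := (hc.elem h (by omega) he.1).1
    have g3 : ({e} : Finset α) ∩ B = ∅ := singleton_inter_of_notMem he.2
    have g4 : Vol {e} ρ = 1 := Vol_single (h.sub (singleton_subset_iff.2 he.1))
    simp only [hT]
    rw [g1, g3, g4, card_singleton, card_empty, sdiff_singleton_eq_erase]
    simp
  have s2 : ∑ F ∈ A2, T F = ∑ e ∈ B, Vol (S.erase e) ρ := by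
    have hinj : Set.InjOn (fun e => S.erase e) (B : Set α) := by
      intro a ha b hb hab
      simp only at hab
      by_contra hne
      have : a ∈ S.erase b := mem_erase.2 ⟨hne, hB.1 ha⟩
      rw [← hab] at this
      simp at this
    rw [hA2, sum_image hinj]
    apply sum_congr rfl
    intro e he
    have heS := hB.1 he
    have g2 := (hc.elem h (by omega) heS).2
    have g3 : S.erase e ∩ B = B.erase e := by
      ext t; simp only [mem_inter, mem_erase]
      constructor
      · rintro ⟨⟨a, _⟩, b⟩; exact ⟨a, b⟩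
      · rintro ⟨a, b⟩; exact ⟨⟨a, hB.1 b⟩, b⟩
    have g4 : S \ S.erase e = {e} := by
      ext t; simp only [mem_sdiff, mem_erase, mem_singleton]
      constructor
      · rintro ⟨a, b⟩
        by_contra hne
        exact b ⟨hne, a⟩
      · rintro rfl; exact ⟨heS, fun h => h.1 rfl⟩
    have g5 : Vol {e} (con ρ (S.erase e)) = 1 := by
      have := h.con (erase_subset e S)
      rw [g4] at this
      exact Vol_single this
    have g6 : (B.erase e).card = B.card - 1 := card_erase_of_mem he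
    have g7 : 1 ≤ B.card := card_pos.2 ⟨e, he⟩
    simp only [hT]
    rw [g4, g5, g3, g6, g2, ← hB.2.2, card_erase_of_mem heS, Nat.cast_sub g7]
    have g8 : S.card - 1 - 1 = S.card - 2 := by omega
    rw [g8, Nat.choose_self]
    push_cast; ring
  change ∑ F ∈ A1, T F + ∑ F ∈ A2, T F + ∑ F ∈ mid S, T F ≤ _ at key
  rw [s1, s2] at key
  exact key

/-- the chain of inequalities -/
theorem chain [Fintype α] (h : IsRk S ρ) (hc : Conn S ρ) (hS : 3 ≤ S.card) {B : Finset α}
    (hB : IsBas S ρ B)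
    (hIH : ∀ (T : Finset α) (σ : Finset α → ℕ), T.card < S.card → 2 ≤ T.card → IsRk T σ →
      (beta T σ : ℝ) * ((T.card - 2).choose (σ T - 1)) ≤ Vol T σ) :
    ((S.card - 2).choose (ρ S - 1) : ℝ) * (((ρ S : ℝ) - 1) * Asum S ρ B +
      ((S.card : ℝ) - ρ S - 1) * Bsum S ρ B) + ((S.card : ℝ) - 2) * ∑ F ∈ mid S, slack S ρ B F ≤
      ((S.card : ℝ) - 2) * Vol S ρ := by
  obtain ⟨k1, k2⟩ := hc.rank_bounds h (by omega)
  have hdec := decomp h hc hS hB
  have hn2 : (0 : ℝ) ≤ (S.card : ℝ) - 2 := by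
    have : (3 : ℝ) ≤ S.card := by exact_mod_cast hS
    linarith
  have hdec2 := mul_le_mul_of_nonneg_left hdec hn2
  -- contraction terms
  have hVA : ((S.card - 2).choose (ρ S - 1) : ℝ) * (((ρ S : ℝ) - 1) *
      ∑ e ∈ S \ B, (beta (S.erase e) (con ρ {e}) : ℝ)) ≤
      ((S.card : ℝ) - 2) * ∑ e ∈ S \ B, Vol (S.erase e) (con ρ {e}) := by
    rw [mul_sum, mul_sum, mul_sum]
    apply sum_le_sum
    intro e he
    have heS := (mem_sdiff.1 he).1
    have ce : (S.erase e).card = S.card - 1 := card_erase_of_mem heS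
    have hr : con ρ {e} (S.erase e) = ρ S - 1 := by
      simp only [con, (hc.elem h (by omega) heS).1]
      rw [union_comm, ← insert_eq, insert_erase heS]
    have h1 := hIH (S.erase e) (con ρ {e}) (by omega) (by omega) (h.conE heS)
    rw [ce, hr] at h1
    have e1 : S.card - 1 - 2 = S.card - 3 := by omega
    have e2 : ρ S - 1 - 1 = ρ S - 2 := by omega
    rw [e1, e2] at h1
    have h2 := mul_le_mul_of_nonneg_left h1 hn2
    by_cases hk2 : 2 ≤ ρ S
    · have h3 := binom_con (n := S.card) (k := ρ S) hS hk2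
      have h4 : ((S.card : ℝ) - 2) * ((S.card - 3).choose (ρ S - 2) : ℝ) =
          ((ρ S : ℝ) - 1) * ((S.card - 2).choose (ρ S - 1) : ℝ) := by
        have a1 : ((S.card - 2 : ℕ) : ℝ) = (S.card : ℝ) - 2 := by
          rw [Nat.cast_sub (by omega)]; norm_num
        have a2 : ((ρ S - 1 : ℕ) : ℝ) = (ρ S : ℝ) - 1 := by
          rw [Nat.cast_sub (by omega)]; norm_num
        rw [← a1, ← a2]
        exact_mod_cast h3
      refine le_trans (le_of_eq ?_) h2
      calc ((S.card - 2).choose (ρ S - 1) : ℝ) * (((ρ S : ℝ) - 1) *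
            (beta (S.erase e) (con ρ {e}) : ℝ)) =
            (((ρ S : ℝ) - 1) * ((S.card - 2).choose (ρ S - 1) : ℝ)) *
              (beta (S.erase e) (con ρ {e}) : ℝ) := by ring
        _ = _ := by rw [← h4]; ring
    · have hk : ρ S = 1 := by omega
      have : (ρ S : ℝ) - 1 = 0 := by rw [hk]; norm_num
      rw [this, zero_mul, mul_zero]
      exact mul_nonneg hn2 Vol_nonneg
  have hVB : ((S.card - 2).choose (ρ S - 1) : ℝ) * (((S.card : ℝ) - ρ S - 1) *
      ∑ e ∈ B, (beta (S.erase e) ρ : ℝ)) ≤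
      ((S.card : ℝ) - 2) * ∑ e ∈ B, Vol (S.erase e) ρ := by
    rw [mul_sum, mul_sum, mul_sum]
    apply sum_le_sum
    intro e he
    have heS := hB.1 he
    have ce : (S.erase e).card = S.card - 1 := card_erase_of_mem heS
    have hr : ρ (S.erase e) = ρ S := (hc.elem h (by omega) heS).2
    have h1 := hIH (S.erase e) ρ (by omega) (by omega) (h.delE e)
    rw [ce, hr] at h1
    have e1 : S.card - 1 - 2 = S.card - 3 := by omega
    rw [e1] at h1
    have h2 := mul_le_mul_of_nonneg_left h1 hn2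
    have h3 := binom_del (n := S.card) (k := ρ S) hS k1 k2
    have h4 : ((S.card : ℝ) - 2) * ((S.card - 3).choose (ρ S - 1) : ℝ) =
        ((S.card : ℝ) - ρ S - 1) * ((S.card - 2).choose (ρ S - 1) : ℝ) := by
      have a1 : ((S.card - 2 : ℕ) : ℝ) = (S.card : ℝ) - 2 := by
        rw [Nat.cast_sub (by omega)]; norm_num
      have a2 : ((S.card - ρ S - 1 : ℕ) : ℝ) = (S.card : ℝ) - ρ S - 1 := by
        rw [Nat.cast_sub (by omega), Nat.cast_sub (by omega)]; norm_num
      rw [← a1, ← a2]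
      exact_mod_cast h3
    refine le_trans (le_of_eq ?_) h2
    calc ((S.card - 2).choose (ρ S - 1) : ℝ) * (((S.card : ℝ) - ρ S - 1) *
          (beta (S.erase e) ρ : ℝ)) =
          (((S.card : ℝ) - ρ S - 1) * ((S.card - 2).choose (ρ S - 1) : ℝ)) *
            (beta (S.erase e) ρ : ℝ) := by ring
      _ = _ := by rw [← h4]; ring
  have hslack : ∑ F ∈ mid S, ((ρ F : ℝ) - (F ∩ B).card) * ((S.card - 2).choose (F.card - 1)) *
        (Vol F ρ * Vol (S \ F) (con ρ F)) = ∑ F ∈ mid S, slack S ρ B F +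
        ((S.card - 2).choose (ρ S - 1) : ℝ) * ∑ F ∈ mid S, (tm S ρ B F : ℝ) := by
    rw [mul_sum, ← sum_add_distrib]
    apply sum_congr rfl
    intro F _
    unfold slack; ring
  rw [hslack] at hdec2
  unfold Asum Bsum
  push_cast
  have hexp : ((S.card - 2).choose (ρ S - 1) : ℝ) * (((ρ S : ℝ) - 1) *
        (∑ e ∈ S \ B, (beta (S.erase e) (con ρ {e}) : ℝ) + ∑ F ∈ mid S, (tm S ρ B F : ℝ)) +
      ((S.card : ℝ) - ρ S - 1) *
        (∑ e ∈ B, (beta (S.erase e) ρ : ℝ) + ∑ F ∈ mid S, (tm S ρ B F : ℝ))) =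
      ((S.card - 2).choose (ρ S - 1) : ℝ) * (((ρ S : ℝ) - 1) *
      ∑ e ∈ S \ B, (beta (S.erase e) (con ρ {e}) : ℝ)) +
      ((S.card - 2).choose (ρ S - 1) : ℝ) * (((S.card : ℝ) - ρ S - 1) *
      ∑ e ∈ B, (beta (S.erase e) ρ : ℝ)) +
      ((S.card : ℝ) - 2) * (((S.card - 2).choose (ρ S - 1) : ℝ) *
        ∑ F ∈ mid S, (tm S ρ B F : ℝ)) := by ring
  rw [hexp]
  have hdec3 : ((S.card : ℝ) - 2) * (∑ e ∈ S \ B, Vol (S.erase e) (con ρ {e}) +
      ∑ e ∈ B, Vol (S.erase e) ρ + (∑ F ∈ mid S, slack S ρ B F +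
        ((S.card - 2).choose (ρ S - 1) : ℝ) * ∑ F ∈ mid S, (tm S ρ B F : ℝ))) =
      ((S.card : ℝ) - 2) * ∑ e ∈ S \ B, Vol (S.erase e) (con ρ {e}) +
      ((S.card : ℝ) - 2) * ∑ e ∈ B, Vol (S.erase e) ρ +
      ((S.card : ℝ) - 2) * ∑ F ∈ mid S, slack S ρ B F +
      ((S.card : ℝ) - 2) * (((S.card - 2).choose (ρ S - 1) : ℝ) *
        ∑ F ∈ mid S, (tm S ρ B F : ℝ)) := by ring
  rw [hdec3] at hdec2
  linarith

end Pool.Agent.H146.BV
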