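import Pool.Agent.H146.BV.Main

/-!
# The inequality, and consequences of equality
-/

namespace Pool.Agent.H146.BV

open Finset

variable {α : Type} [DecidableEq α] {S : Finset α} {ρ : Finset α → ℕ}

/-- weighted sums of the two beta inequalities -/
theorem weighted (h : IsRk S ρ) (hc : Conn S ρ) (hS : 2 ≤ S.card) {B : Finset α}
    (hB : IsBas S ρ B) :
    ((S.card : ℝ) - 2) * (beta S ρ : ℝ) ≤
      (((ρ S : ℝ) - 1) * Asum S ρ B + ((S.card : ℝ) - ρ S - 1) * Bsum S ρ B) := by
  obtain ⟨k1, k2⟩ := hc.rank_bounds h hS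
  have h1 : ((ρ S : ℝ) - 1) * (beta S ρ : ℝ) ≤ ((ρ S : ℝ) - 1) * Asum S ρ B := by
    by_cases hk : 2 ≤ ρ S
    · have h2 := beta_le_Asum _ S ρ B rfl h hc hk hB
      have h3 : (beta S ρ : ℝ) ≤ Asum S ρ B := by exact_mod_cast h2
      have h4 : (0 : ℝ) ≤ (ρ S : ℝ) - 1 := by
        have : (1 : ℝ) ≤ ρ S := by exact_mod_cast k1
        linarith
      exact mul_le_mul_of_nonneg_left h3 h4
    · have : ρ S = 1 := by omega
      rw [this]; simp
  have h2 : ((S.card : ℝ) - ρ S - 1) * (beta S ρ : ℝ) ≤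
      ((S.card : ℝ) - ρ S - 1) * Bsum S ρ B := by
    by_cases hk : ρ S + 2 ≤ S.card
    · have h2 := beta_le_Bsum h hc hk hB
      have h3 : (beta S ρ : ℝ) ≤ Bsum S ρ B := by exact_mod_cast h2
      have h4 : (0 : ℝ) ≤ (S.card : ℝ) - ρ S - 1 := by
        have : (ρ S : ℝ) + 1 ≤ S.card := by exact_mod_cast k2
        linarith
      exact mul_le_mul_of_nonneg_left h3 h4
    · have : S.card = ρ S + 1 := by omega
      rw [this]; push_cast; simp
  have h3 : ((S.card : ℝ) - 2) * (beta S ρ : ℝ) = ((ρ S : ℝ) - 1) * (beta S ρ : ℝ) +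
      ((S.card : ℝ) - ρ S - 1) * (beta S ρ : ℝ) := by ring
  linarith

theorem beta_two (h : IsRk S ρ) (hc : Conn S ρ) (hS : S.card = 2) : beta S ρ = 1 ∧ ρ S = 1 := by
  obtain ⟨k1, k2⟩ := hc.rank_bounds h (by omega)
  have hk : ρ S = 1 := by omega
  obtain ⟨e, he⟩ : S.Nonempty := by rw [← card_pos]; omega
  obtain ⟨g1, g2⟩ := hc.elem h (by omega) he
  have hc1 : (S.erase e).card = 1 := by rw [card_erase_of_mem he]; omega
  obtain ⟨f, hf⟩ := card_eq_one.1 hc1
  have hfS : f ∈ S := by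
    have : f ∈ S.erase e := by rw [hf]; exact mem_singleton_self f
    exact mem_of_mem_erase this
  have g3 := (hc.elem h (by omega) hfS).1
  have hSe : insert e {f} = S := by rw [← hf, insert_erase he]
  have hc0 : con ρ {e} {f} = 0 := by
    simp only [con]
    rw [union_comm, ← insert_eq, hSe, hk, g1]
  rw [beta_del_con h he g1 g2 (by omega), hf, beta_singleton f h.zero (by omega),
    beta_singleton f (by simp [con]) (by omega), g3, hc0]
  exact ⟨rfl, hk⟩

theorem main_ineq [Fintype α] : ∀ (m : ℕ) (S : Finset α) (ρ : Finset α → ℕ), S.card = m →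
    2 ≤ m → IsRk S ρ → (beta S ρ : ℝ) * ((m - 2).choose (ρ S - 1)) ≤ Vol S ρ := by
  intro m
  induction m using Nat.strong_induction_on with
  | _ m ih =>
    intro S ρ hm hm2 h
    by_cases hc : Conn S ρ
    · obtain ⟨k1, k2⟩ := hc.rank_bounds h (by omega)
      obtain ⟨B, hB⟩ := exists_IsBas h
      by_cases hm3 : m = 2
      · obtain ⟨b1, b2⟩ := beta_two h hc (by omega)
        rw [b1, b2, hm3]
        have hBc : B.card = 1 := by rw [hB.2.2, b2]
        have hFc : (S \ B).card = 1 := by rw [card_sdiff_of_subset hB.1, hBc]; omega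
        obtain ⟨a, ha⟩ := card_eq_one.1 hFc
        obtain ⟨b, hb⟩ := card_eq_one.1 hBc
        have haS : a ∈ S := by
          have : a ∈ S \ B := by rw [ha]; exact mem_singleton_self a
          exact (mem_sdiff.1 this).1
        have haB : a ∉ B := by
          have : a ∈ S \ B := by rw [ha]; exact mem_singleton_self a
          exact (mem_sdiff.1 this).2
        have key := pyr_ineq h ⟨a, haS⟩ hB {S \ B} (by
          intro F hF
          rw [mem_singleton] at hF
          subst hF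
          refine ⟨sdiff_subset, by rw [← card_pos]; omega, ?_⟩
          intro heq
          rw [heq] at hFc
          omega)
        rw [sum_singleton] at key
        have e1 : S \ (S \ B) = B := Finset.sdiff_sdiff_eq_self hB.1
        have e2 : (S \ B) ∩ B = ∅ := by
          ext t; simp
        have e3 : Vol (S \ B) ρ = 1 := by
          rw [ha]; exact Vol_single (h.sub (singleton_subset_iff.2 haS))
        have e4 : Vol B (con ρ (S \ B)) = 1 := by
          have := h.con (sdiff_subset : S \ B ⊆ S)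
          rw [e1] at this
          rw [hb] at this ⊢
          exact Vol_single this
        have e5 : ρ (S \ B) = 1 := by
          rw [ha]; exact (hc.elem h (by omega) haS).1
        rw [e1, e2, e3, e4, e5, hFc, hm, hm3] at key
        simpa using key
      · have hIH : ∀ (T : Finset α) (σ : Finset α → ℕ), T.card < S.card → 2 ≤ T.card →
            IsRk T σ → (beta T σ : ℝ) * ((T.card - 2).choose (σ T - 1)) ≤ Vol T σ :=
          fun T σ h1 h2 h3 => ih T.card (by omega) T σ rfl h2 h3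
        have hch := chain h hc (by omega) hB hIH
        have hw := weighted h hc (by omega) hB
        have hsl : 0 ≤ ∑ F ∈ mid S, slack S ρ B F :=
          sum_nonneg fun F hF => slack_nonneg h hB hF hIH
        have hn2 : (0 : ℝ) < (S.card : ℝ) - 2 := by
          have : (3 : ℝ) ≤ S.card := by exact_mod_cast (show 3 ≤ S.card by omega)
          linarith
        have hC : (0 : ℝ) ≤ ((S.card - 2).choose (ρ S - 1) : ℝ) := Nat.cast_nonneg _
        have h1 := mul_le_mul_of_nonneg_left hw hC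
        have h2 := mul_nonneg hn2.le hsl
        have h3 : ((S.card : ℝ) - 2) * ((beta S ρ : ℝ) * ((S.card - 2).choose (ρ S - 1) : ℝ)) ≤
            ((S.card : ℝ) - 2) * Vol S ρ := by
          have e : ((S.card : ℝ) - 2) * ((beta S ρ : ℝ) * ((S.card - 2).choose (ρ S - 1) : ℝ)) =
            ((S.card - 2).choose (ρ S - 1) : ℝ) * (((S.card : ℝ) - 2) * (beta S ρ : ℝ)) := by ring
          rw [e]; linarith
        rw [← hm]
        exact le_of_mul_le_mul_left h3 hn2
    · rw [beta_eq_zero_of_not_conn h hc]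
      simp only [Int.cast_zero, zero_mul]
      exact Vol_nonneg

theorem main_ineq' [Fintype α] (S : Finset α) (ρ : Finset α → ℕ) (hS : 2 ≤ S.card)
    (h : IsRk S ρ) : (beta S ρ : ℝ) * ((S.card - 2).choose (ρ S - 1)) ≤ Vol S ρ :=
  main_ineq _ S ρ rfl hS h

/-- consequences of equality -/
theorem eq_conseq [Fintype α] (h : IsRk S ρ) (hc : Conn S ρ) (hk : 2 ≤ ρ S)
    (hk2 : ρ S + 2 ≤ S.card)
    (heq : Vol S ρ ≤ (beta S ρ : ℝ) * ((S.card - 2).choose (ρ S - 1))) {B : Finset α}
    (hB : IsBas S ρ B) :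
    Asum S ρ B = beta S ρ ∧ Bsum S ρ B = beta S ρ ∧ ∀ F ∈ mid S, slack S ρ B F = 0 := by
  have hIH : ∀ (T : Finset α) (σ : Finset α → ℕ), T.card < S.card → 2 ≤ T.card →
      IsRk T σ → (beta T σ : ℝ) * ((T.card - 2).choose (σ T - 1)) ≤ Vol T σ :=
    fun T σ _ h2 h3 => main_ineq' T σ h2 h3
  have hch := chain h hc (by omega) hB hIH
  have hn2 : (0 : ℝ) < (S.card : ℝ) - 2 := by
    have : (4 : ℝ) ≤ S.card := by exact_mod_cast (show 4 ≤ S.card by omega)
    linarith
  have hC : (0 : ℝ) < ((S.card - 2).choose (ρ S - 1) : ℝ) := by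
    exact_mod_cast Nat.choose_pos (by omega)
  have ha := beta_le_Asum _ S ρ B rfl h hc hk hB
  have hb := beta_le_Bsum h hc hk2 hB
  have ha' : (beta S ρ : ℝ) ≤ Asum S ρ B := by exact_mod_cast ha
  have hb' : (beta S ρ : ℝ) ≤ Bsum S ρ B := by exact_mod_cast hb
  have hsn : ∀ F ∈ mid S, 0 ≤ slack S ρ B F := fun F hF => slack_nonneg h hB hF hIH
  have hsl : 0 ≤ ∑ F ∈ mid S, slack S ρ B F := sum_nonneg hsn
  have hw1 : (0 : ℝ) < (ρ S : ℝ) - 1 := by
    have : (2 : ℝ) ≤ ρ S := by exact_mod_cast hk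
    linarith
  have hw2 : (0 : ℝ) < (S.card : ℝ) - ρ S - 1 := by
    have : (ρ S : ℝ) + 2 ≤ S.card := by exact_mod_cast hk2
    linarith
  set C := ((S.card - 2).choose (ρ S - 1) : ℝ) with hCdef
  set β := (beta S ρ : ℝ) with hβ
  have h1 := mul_le_mul_of_nonneg_left heq hn2.le
  -- total slack
  have htot : C * (((ρ S : ℝ) - 1) * ((Asum S ρ B : ℝ) - β)) +
      C * (((S.card : ℝ) - ρ S - 1) * ((Bsum S ρ B : ℝ) - β)) +
      ((S.card : ℝ) - 2) * ∑ F ∈ mid S, slack S ρ B F ≤ 0 := by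
    have e : C * (((ρ S : ℝ) - 1) * ((Asum S ρ B : ℝ) - β)) +
      C * (((S.card : ℝ) - ρ S - 1) * ((Bsum S ρ B : ℝ) - β)) =
      C * (((ρ S : ℝ) - 1) * (Asum S ρ B : ℝ) + ((S.card : ℝ) - ρ S - 1) * (Bsum S ρ B : ℝ)) -
        ((S.card : ℝ) - 2) * (β * C) := by ring
    rw [e]; linarith
  have t1 : 0 ≤ C * (((ρ S : ℝ) - 1) * ((Asum S ρ B : ℝ) - β)) :=
    mul_nonneg hC.le (mul_nonneg hw1.le (by linarith))
  have t2 : 0 ≤ C * (((S.card : ℝ) - ρ S - 1) * ((Bsum S ρ B : ℝ) - β)) :=
    mul_nonneg hC.le (mul_nonneg hw2.le (by linarith))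
  have t3 : 0 ≤ ((S.card : ℝ) - 2) * ∑ F ∈ mid S, slack S ρ B F := mul_nonneg hn2.le hsl
  refine ⟨?_, ?_, ?_⟩
  · have z : C * (((ρ S : ℝ) - 1) * ((Asum S ρ B : ℝ) - β)) = 0 := by linarith
    rcases mul_eq_zero.1 z with z | z
    · exact absurd z hC.ne'
    · rcases mul_eq_zero.1 z with z | z
      · exact absurd z hw1.ne'
      · have : (Asum S ρ B : ℝ) = beta S ρ := by rw [← hβ]; linarith
        exact_mod_cast this
  · have z : C * (((S.card : ℝ) - ρ S - 1) * ((Bsum S ρ B : ℝ) - β)) = 0 := by linarith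
    rcases mul_eq_zero.1 z with z | z
    · exact absurd z hC.ne'
    · rcases mul_eq_zero.1 z with z | z
      · exact absurd z hw2.ne'
      · have : (Bsum S ρ B : ℝ) = beta S ρ := by rw [← hβ]; linarith
        exact_mod_cast this
  · have z : ((S.card : ℝ) - 2) * ∑ F ∈ mid S, slack S ρ B F = 0 := by linarith
    rcases mul_eq_zero.1 z with z | z
    · exact absurd z hn2.ne'
    · exact (sum_eq_zero_iff_of_nonneg hsn).1 z

/-- the middle sets of nonzero weight in the equality case -/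
theorem flacet_type [Fintype α] (h : IsRk S ρ) (hc : Conn S ρ) (hk : 2 ≤ ρ S)
    (hk2 : ρ S + 2 ≤ S.card)
    (heq : Vol S ρ ≤ (beta S ρ : ℝ) * ((S.card - 2).choose (ρ S - 1))) {F : Finset α}
    (hF : F ∈ mid S) (hcF : Conn F ρ) (hcG : Conn (S \ F) (con ρ F)) :
    (ρ F = 1 ∧ (S \ F).card = ρ S) ∨ (ρ F + 1 = ρ S ∧ F.card = ρ S) := by
  have hIH : ∀ (T : Finset α) (σ : Finset α → ℕ), T.card < S.card → 2 ≤ T.card →
      IsRk T σ → (beta T σ : ℝ) * ((T.card - 2).choose (σ T - 1)) ≤ Vol T σ :=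
    fun T σ _ h2 h3 => main_ineq' T σ h2 h3
  obtain ⟨f1, f2, f3⟩ := mem_mid.1 hF
  have cG : (S \ F).card = S.card - F.card := card_sdiff_of_subset f1
  obtain ⟨r1, r2⟩ := hcF.rank_bounds (h.sub f1) f2
  obtain ⟨s1, s2⟩ := hcG.rank_bounds (h.con f1) (by omega)
  have hr : con ρ F (S \ F) = ρ S - ρ F := by
    simp only [con]; rw [sdiff_union_of_subset f1]
  rw [hr] at s1 s2
  -- a basis meeting F in fewer than ρ F elements
  have hsep : ρ S < ρ F + ρ (S \ F) := hc F f1 (by rw [← card_pos]; omega) (by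
    rintro rfl; omega)
  obtain ⟨I, _, i2, i3, i4⟩ := exists_basis h (I := ∅) (X := S \ F) (by rw [h.zero, card_empty])
    (empty_subset _) sdiff_subset
  obtain ⟨B, j1, j2, j3, j4⟩ := exists_basis h i3 (i2.trans sdiff_subset : I ⊆ S) subset_rfl
  have hB : IsBas S ρ B := ⟨j2, j3, by rw [← j3, j4]⟩
  have hlt : (F ∩ B).card < ρ F := by
    have h1 : (F ∩ B).card + I.card ≤ B.card := by
      rw [← card_union_of_disjoint]
      · apply card_le_card
        exact union_subset inter_subset_right j1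
      · rw [disjoint_left]
        intro t t1 t2
        exact (mem_sdiff.1 (i2 t2)).2 (mem_inter.1 t1).1
    have h2 := hB.2.2
    omega
  have hsl := (eq_conseq h hc hk hk2 heq hB).2.2 F hF
  unfold slack tm at hsl
  have hw : (0 : ℝ) < (ρ F : ℝ) - (F ∩ B).card := by
    have : ((F ∩ B).card : ℝ) < ρ F := by exact_mod_cast hlt
    linarith
  have b1 : (0 : ℝ) < beta F ρ := by
    have := hcF.beta_pos (h.sub f1) f2
    exact_mod_cast (show 0 < beta F ρ by omega)
  have b2 : (0 : ℝ) < beta (S \ F) (con ρ F) := by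
    have := hcG.beta_pos (h.con f1) (by omega)
    exact_mod_cast (show 0 < beta (S \ F) (con ρ F) by omega)
  push_cast at hsl
  have h1 : ((ρ F : ℝ) - (F ∩ B).card) * (((S.card - 2).choose (F.card - 1) : ℝ) *
      (Vol F ρ * Vol (S \ F) (con ρ F)) - ((S.card - 2).choose (ρ S - 1) : ℝ) *
        ((beta F ρ : ℝ) * beta (S \ F) (con ρ F))) = 0 := by
    linarith
  rcases mul_eq_zero.1 h1 with h2 | h2
  · exact absurd h2 hw.ne'
  · have h3 := prod_lower h hF hIH
    have h4 := mul_le_mul_of_nonneg_left h3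
      (Nat.cast_nonneg ((S.card - 2).choose (F.card - 1)) : (0 : ℝ) ≤ _)
    have h5 : (((S.card - 2).choose (F.card - 1) : ℝ) *
        ((F.card - 2).choose (ρ F - 1) * ((S.card - F.card) - 2).choose (ρ S - ρ F - 1) : ℕ)) *
          ((beta F ρ : ℝ) * beta (S \ F) (con ρ F)) ≤
        ((S.card - 2).choose (ρ S - 1) : ℝ) * ((beta F ρ : ℝ) * beta (S \ F) (con ρ F)) := by
      rw [mul_assoc]; linarith
    have h6 := le_of_mul_le_mul_right h5 (mul_pos b1 b2)
    have h7 : (S.card - 2).choose (F.card - 1) * ((F.card - 2).choose (ρ F - 1) *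
        ((S.card - F.card) - 2).choose (ρ S - ρ F - 1)) ≤ (S.card - 2).choose (ρ S - 1) := by
      exact_mod_cast h6
    have e1 : F.card + (S.card - F.card) - 2 = S.card - 2 := by omega
    rw [cG]
    apply binom_eq' (f := F.card) (g := S.card - F.card) (r := ρ F) (k := ρ S) r1 r2
      (by omega) (by omega)
    rw [e1]
    exact h7

end Pool.Agent.H146.BV
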