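import Pool.Agent.H146.BV.Pyr

/-!
# Null sets and finiteness
-/

namespace Pool.Agent.H146.BV

open MeasureTheory Finset Function
open scoped ENNReal

variable {α : Type} [DecidableEq α]

theorem hm_null {S : Finset α} {e : α} (he : e ∈ S) {c : ℝ} {a : α → ℝ} {i j : α}
    (hi : i ∈ S) (hj : j ∈ S) (hij : a i ≠ a j) (c' : ℝ) :
    hm S e c {z | ∑ l ∈ S, a l * z l = c'} = 0 := by
  have mN : MeasurableSet {z : α → ℝ | ∑ l ∈ S, a l * z l = c'} := by
    have : Measurable (fun z : α → ℝ => ∑ l ∈ S, a l * z l) :=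
      Finset.measurable_sum _ fun l _ => (measurable_pi_apply l).const_mul _
    exact this (measurableSet_singleton c')
  rw [hm_indep he hj mN, hm_lmarg mN 0]
  have hne : i ≠ j := fun h => hij (h ▸ rfl)
  set T := S.erase j with hT
  have hiT : i ∈ T := mem_erase.2 ⟨hne, hi⟩
  have h1 : T = insert i (T.erase i) := (insert_erase hiT).symm
  have hi' : i ∉ T.erase i := notMem_erase i T
  rw [h1, lmarginal_insert' _ (measurable_ind mN) hi']
  have h2 : (fun x : α → ℝ => ∫⁻ t : ℝ, ind S j c {z | ∑ l ∈ S, a l * z l = c'} (update x i t)) =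
      fun _ => 0 := by
    funext x
    rw [lintegral_eq_zero_of_ae_eq_zero]
    set t0 := (c' - a j * c - ∑ l ∈ T.erase i, (a l - a j) * x l) / (a i - a j) with ht0
    have hne2 : ∀ᵐ t : ℝ, t ≠ t0 := by
      rw [ae_iff]; simp
    filter_upwards [hne2] with t ht
    simp only [ind, Pi.zero_apply]
    apply Set.indicator_of_notMem
    intro hmem
    rw [Set.mem_ofPred_eq] at hmem
    apply ht
    rw [ht0, eq_div_iff (sub_ne_zero.2 hij)]
    rw [← add_sum_erase S _ hj, ← hT] at hmem
    have e1 : tr S j c (update x i t) j = c - ∑ l ∈ T, update x i t l := by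
      simp only [tr, if_true, hT]
    have e2 : ∑ l ∈ T, a l * tr S j c (update x i t) l = ∑ l ∈ T, a l * update x i t l := by
      apply sum_congr rfl
      intro l hl
      have l1 : l ≠ j := ne_of_mem_erase hl
      have l2 : l ∈ S := mem_of_mem_erase hl
      simp only [tr, if_neg l1, if_pos l2]
    have e3 : ∑ l ∈ T, update x i t l = t + ∑ l ∈ T.erase i, x l := by
      rw [← add_sum_erase T _ hiT, update_self]
      congr 1
      exact sum_congr rfl fun l hl => update_of_ne (ne_of_mem_erase hl) _ _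
    have e4 : ∑ l ∈ T, a l * update x i t l = a i * t + ∑ l ∈ T.erase i, a l * x l := by
      rw [← add_sum_erase T _ hiT, update_self]
      congr 1
      exact sum_congr rfl fun l hl => by rw [update_of_ne (ne_of_mem_erase hl)]
    rw [e1, e2, e3, e4] at hmem
    have e5 : ∑ l ∈ T.erase i, (a l - a j) * x l = ∑ l ∈ T.erase i, a l * x l -
        a j * ∑ l ∈ T.erase i, x l := by
      rw [mul_sum, ← sum_sub_distrib]
      exact sum_congr rfl fun l _ => by ring
    rw [e5]
    linarith
  change (∫⋯∫⁻_(T.erase i), (fun x : α → ℝ => ∫⁻ t : ℝ, ind S j c {z | ∑ l ∈ S, a l * z l = c'} (update x i t)) ∂(fun _ : α => (volume : Measure ℝ))) 0 = 0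
  rw [h2]
  simp [lmarginal]

/-- Bounded sets have finite measure. -/
theorem hm_lt_top {S : Finset α} {e : α} {c : ℝ} {K : Set (α → ℝ)} (hK : MeasurableSet K)
    (hb : ∀ z ∈ K, ∀ i, 0 ≤ z i ∧ z i ≤ 1) : hm S e c K < ⊤ := by
  rw [hm_apply hK]
  have hsub : (fun y : (↥(S.erase e) → ℝ) => tr S e c (updateFinset (0 : α → ℝ) (S.erase e) y)) ⁻¹' K ⊆
      Set.Icc (0 : ↥(S.erase e) → ℝ) 1 := by
    intro y hy
    have h1 : ∀ i : ↥(S.erase e), tr S e c (updateFinset (0 : α → ℝ) (S.erase e) y) i = y i := by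
      intro i
      have i1 : (i : α) ≠ e := ne_of_mem_erase i.2
      have i2 : (i : α) ∈ S := mem_of_mem_erase i.2
      simp only [tr, if_neg i1, if_pos i2, updateFinset, dif_pos i.2]
    rw [Set.mem_Icc]
    constructor
    · intro i
      rw [← h1]; exact (hb _ hy i).1
    · intro i
      rw [← h1]; exact (hb _ hy i).2
  exact (measure_mono hsub).trans_lt isCompact_Icc.measure_lt_top

end Pool.Agent.H146.BV
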