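import Pool.Agent.H146.BV.Rk

/-!
# Two inequalities for the beta invariant
-/

namespace Pool.Agent.H146.BV

open Finset

variable {α : Type} [DecidableEq α] {S : Finset α} {ρ : Finset α → ℕ}

/-- `B` is a basis. -/
def IsBas (S : Finset α) (ρ : Finset α → ℕ) (B : Finset α) : Prop :=
  B ⊆ S ∧ ρ B = B.card ∧ B.card = ρ S

theorem indep_sub (h : IsRk S ρ) {A B : Finset α} (hB : B ⊆ S) (hi : ρ B = B.card) (hA : A ⊆ B) :
    ρ A = A.card := by
  have h1 := h.union_le_card (A := A) (B := B \ A) (hA.trans hB) (sdiff_subset.trans hB)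
  rw [union_sdiff_of_subset hA, hi, card_sdiff_of_subset hA] at h1
  have h2 := card_le_card hA
  have h3 := h.le_card (hA.trans hB)
  omega

theorem IsBas.inter_le (h : IsRk S ρ) {B : Finset α} (hB : IsBas S ρ B) {F : Finset α}
    (hF : F ⊆ S) : (F ∩ B).card ≤ ρ F := by
  rw [← indep_sub h hB.1 hB.2.1 inter_subset_right]
  exact h.mono inter_subset_left hF

/-- The term of a set `F`. -/
def tm (S : Finset α) (ρ : Finset α → ℕ) (B F : Finset α) : ℤ :=
  ((ρ F : ℤ) - ((F ∩ B).card : ℤ)) * (beta F ρ * beta (S \ F) (con ρ F))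

/-- Sets of middle size. -/
def mid (S : Finset α) : Finset (Finset α) :=
  S.powerset.filter (fun F => 2 ≤ F.card ∧ F.card + 2 ≤ S.card)

theorem mem_mid {F : Finset α} : F ∈ mid S ↔ F ⊆ S ∧ 2 ≤ F.card ∧ F.card + 2 ≤ S.card := by
  simp [mid, mem_filter, mem_powerset]

/-- The first sum. -/
def Asum (S : Finset α) (ρ : Finset α → ℕ) (B : Finset α) : ℤ :=
  ∑ e ∈ S \ B, beta (S.erase e) (con ρ {e}) + ∑ F ∈ mid S, tm S ρ B F

/-- The second sum. -/
def Bsum (S : Finset α) (ρ : Finset α → ℕ) (B : Finset α) : ℤ :=
  ∑ e ∈ B, beta (S.erase e) ρ + ∑ F ∈ mid S, tm S ρ B F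

theorem tm_nonneg (h : IsRk S ρ) {B : Finset α} (hB : IsBas S ρ B) {F : Finset α}
    (hF : F ⊆ S) : 0 ≤ tm S ρ B F := by
  unfold tm
  have h1 := hB.inter_le h hF
  have h2 := (h.sub hF).beta_nonneg
  have h3 := (h.con hF).beta_nonneg
  apply mul_nonneg
  · have : ((F ∩ B).card : ℤ) ≤ (ρ F : ℤ) := by exact_mod_cast h1
    linarith
  · exact mul_nonneg h2 h3

theorem closure_lem (h : IsRk S ρ) {F : Finset α} {e : α} (hF : F ⊆ S) (he : e ∈ S)
    (heq : ρ (insert e F) = ρ F) {A : Finset α} (hA : A ⊆ S) :
    ρ (A ∪ insert e F) = ρ (A ∪ F) := by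
  have hAF : A ∪ F ⊆ S := union_subset hA hF
  have heF : insert e F ⊆ S := insert_subset he hF
  have h1 := h.submod _ hAF _ heF
  have e1 : A ∪ F ∪ insert e F = A ∪ insert e F := by
    ext t; simp only [mem_union, mem_insert]; tauto
  have h2 : ρ F ≤ ρ ((A ∪ F) ∩ insert e F) := by
    apply h.mono _ (inter_subset_left.trans hAF)
    intro t ht
    rw [mem_inter, mem_union, mem_insert]
    exact ⟨Or.inr ht, Or.inr ht⟩
  have h3 : ρ (A ∪ F) ≤ ρ (A ∪ insert e F) := by
    apply h.mono _ (union_subset hA heF)
    exact union_subset_union subset_rfl (subset_insert _ _)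
  rw [e1] at h1
  omega

theorem con_closure (h : IsRk S ρ) {F : Finset α} {e : α} (hF : F ⊆ S) (he : e ∈ S)
    (heq : ρ (insert e F) = ρ F) {A : Finset α} (hA : A ⊆ S) :
    con ρ (insert e F) A = con ρ F A := by
  simp only [con, closure_lem h hF he heq hA, heq]

theorem sdiff_insert_eq (S F : Finset α) (e : α) : S \ insert e F = (S.erase e) \ F := by
  ext t; simp only [mem_sdiff, mem_insert, mem_erase]; tauto

theorem sdiff_erase_comm (S F : Finset α) (e : α) : (S \ F).erase e = (S.erase e) \ F := by
  ext t; simp only [mem_sdiff, mem_erase]; tauto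

/-- pointwise comparison for sets of middle size -/
theorem ptwise1 (h : IsRk S ρ) {B F : Finset α} {e : α} (heS : e ∈ S) (heB : e ∉ B)
    (hB : IsBas S ρ B) (g1 : ρ {e} = 1) (g2 : ρ (S.erase e) = ρ S) (hF : F ⊆ S.erase e)
    (hF2 : 2 ≤ F.card) (hF3 : F.card + 2 ≤ (S.erase e).card) :
    tm (S.erase e) ρ B F ≤ tm S ρ B F + tm S ρ B (insert e F) := by
  have hFS : F ⊆ S := hF.trans (erase_subset _ _)
  have heF : e ∉ F := fun h => by simpa using hF h
  have n1 := tm_nonneg h hB hFS
  have n2 := tm_nonneg h hB (insert_subset heS hFS)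
  have hc : (S.erase e).card = S.card - 1 := card_erase_of_mem heS
  have hcS : 0 < S.card := card_pos.2 ⟨e, heS⟩
  by_cases heq : ρ (insert e F) = ρ F
  · have key : tm (S.erase e) ρ B F ≤ tm S ρ B (insert e F) := by
      unfold tm
      have e1 : insert e F ∩ B = F ∩ B := insert_inter_of_notMem heB
      have e2 : beta (S \ insert e F) (con ρ (insert e F)) = beta (S.erase e \ F) (con ρ F) := by
        rw [sdiff_insert_eq]
        apply beta_congr
        intro A hA
        exact con_closure h hFS heS heq (hA.trans (sdiff_subset.trans (erase_subset _ _)))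
      have e3 : beta (insert e F) ρ = beta F ρ + beta F (con ρ {e}) := by
        have := beta_del_con (h.sub (insert_subset heS hFS)) (mem_insert_self e F) g1
          (by rw [erase_insert heF]; exact heq.symm) (by rw [card_insert_of_notMem heF]; omega)
        rwa [erase_insert heF] at this
      have e4 : 0 ≤ beta F (con ρ {e}) := by
        have := (h.conE heS).sub hF
        exact this.beta_nonneg
      rw [e1, e2, e3, heq]
      have h1 := hB.inter_le h hFS
      have h2 : 0 ≤ (ρ F : ℤ) - ((F ∩ B).card : ℤ) := by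
        have : ((F ∩ B).card : ℤ) ≤ (ρ F : ℤ) := by exact_mod_cast h1
        linarith
      have h3 : 0 ≤ beta (S.erase e \ F) (con ρ F) := by
        have := (h.delE e).con hF
        exact this.beta_nonneg
      apply mul_le_mul_of_nonneg_left _ h2
      apply mul_le_mul_of_nonneg_right _ h3
      linarith
    linarith
  · have key : tm (S.erase e) ρ B F ≤ tm S ρ B F := by
      unfold tm
      have hmem : e ∈ S \ F := mem_sdiff.2 ⟨heS, heF⟩
      have c1 : con ρ F {e} = 1 := by
        simp only [con]
        rw [← insert_eq]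
        have a1 := h.unit F hFS e heS
        have a2 := h.mono1 F hFS e heS
        omega
      have c2 : con ρ F ((S \ F).erase e) = con ρ F (S \ F) := by
        simp only [con]
        rw [sdiff_erase_comm, sdiff_union_of_subset hF, sdiff_union_of_subset hFS, g2]
      have e3 := beta_del_con (h.con hFS) hmem c1 c2 (by
        rw [card_sdiff_of_subset hFS]; omega)
      rw [sdiff_erase_comm] at e3
      have e4 : 0 ≤ beta (S.erase e \ F) (con (con ρ F) {e}) := by
        have := (h.con hFS).conE hmem
        rw [sdiff_erase_comm] at this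
        exact this.beta_nonneg
      have h1 := hB.inter_le h hFS
      have h2 : 0 ≤ (ρ F : ℤ) - ((F ∩ B).card : ℤ) := by
        have : ((F ∩ B).card : ℤ) ≤ (ρ F : ℤ) := by exact_mod_cast h1
        linarith
      apply mul_le_mul_of_nonneg_left _ h2
      apply mul_le_mul_of_nonneg_left _ (h.sub hFS).beta_nonneg
      linarith
    linarith

theorem erase_erase_comm (S : Finset α) (e f : α) : (S.erase e).erase f = (S.erase f).erase e :=
  erase_right_comm

/-- pointwise comparison for single elements -/
theorem ptwise2 (h : IsRk S ρ) {B : Finset α} {e f : α} (heS : e ∈ S) (hfS : f ∈ S)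
    (hef : e ≠ f) (heB : e ∉ B) (hfB : f ∉ B) (hk : 2 ≤ ρ S)
    (hB : IsBas S ρ B) (g1 : ρ {e} = 1) (g1' : ρ {f} = 1) (g2 : ρ (S.erase e) = ρ S) :
    beta ((S.erase e).erase f) (con ρ {f}) ≤ beta (S.erase f) (con ρ {f}) +
      (if 4 ≤ S.card then tm S ρ B (insert e {f}) else 0) := by
  have hcard : ρ S + 2 ≤ S.card := by
    have h1 : insert e (insert f B) ⊆ S := insert_subset heS (insert_subset hfS hB.1)
    have h2 := card_le_card h1
    rw [card_insert_of_notMem (by simp [hef, heB]), card_insert_of_notMem hfB, hB.2.2] at h2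
    omega
  have hfS' : ({f} : Finset α) ⊆ S := singleton_subset_iff.2 hfS
  have hsub : insert e {f} ⊆ S := insert_subset heS hfS'
  rw [if_pos (by omega)]
  have n2 := tm_nonneg h hB hsub
  have n3 := (h.conE hfS).beta_nonneg
  have a1 := h.unit {f} hfS' e heS
  have a2 := h.mono1 {f} hfS' e heS
  by_cases heq : ρ (insert e {f}) = ρ {f}
  · have key : beta ((S.erase e).erase f) (con ρ {f}) ≤ tm S ρ B (insert e {f}) := by
      unfold tm
      have e1 : insert e {f} ∩ B = ∅ := by
        ext t; simp only [mem_inter, mem_insert, mem_singleton, notMem_empty, iff_false]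
        rintro ⟨rfl | rfl, h2⟩
        · exact heB h2
        · exact hfB h2
      have e2 : beta (S \ insert e {f}) (con ρ (insert e {f})) =
          beta ((S.erase e).erase f) (con ρ {f}) := by
        rw [sdiff_insert_eq, sdiff_singleton_eq_erase]
        apply beta_congr
        intro A hA
        exact con_closure h hfS' heS heq
          (hA.trans ((erase_subset _ _).trans (erase_subset _ _)))
      have e3 : beta (insert e {f}) ρ = 1 := by
        have h5 := beta_del_con (h.sub hsub) (mem_insert_self e {f}) g1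
          (by rw [erase_insert (by simp [hef])]; exact heq.symm)
          (by rw [card_insert_of_notMem (by simp [hef]), card_singleton])
        rw [erase_insert (by simp [hef])] at h5
        rw [h5, beta_singleton f h.zero (by omega), g1']
        have h6 : con ρ {e} {f} = 0 := by
          simp only [con]
          rw [union_comm, ← insert_eq, heq, g1, g1']
        rw [beta_singleton f (by simp [con]) (by omega), h6]; rfl
      rw [e1, e2, e3, heq, g1']
      simp
    linarith
  · have hmem : e ∈ S.erase f := mem_erase.2 ⟨hef, heS⟩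
    have c1 : con ρ {f} {e} = 1 := by
      simp only [con]; rw [← insert_eq]; omega
    have c2 : con ρ {f} ((S.erase f).erase e) = con ρ {f} (S.erase f) := by
      simp only [con]
      rw [erase_erase_comm, union_comm, ← insert_eq, insert_erase (mem_erase.2 ⟨hef.symm, hfS⟩),
        union_comm, ← insert_eq, insert_erase hfS, g2]
    have e3 := beta_del_con (h.conE hfS) hmem c1 c2 (by rw [card_erase_of_mem hfS]; omega)
    rw [erase_erase_comm] at e3
    have e4 : 0 ≤ beta ((S.erase e).erase f) (con (con ρ {f}) {e}) := by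
      have := (h.conE hfS).conE hmem
      rw [erase_erase_comm] at this
      exact this.beta_nonneg
    linarith

theorem exists_notMem_basis (h : IsRk S ρ) (hc : Conn S ρ) (h2 : 2 ≤ S.card) {B : Finset α}
    (hB : IsBas S ρ B) : ∃ e ∈ S, e ∉ B := by
  by_contra hcon
  push Not at hcon
  have hBS : B = S := subset_antisymm hB.1 hcon
  obtain ⟨e, he⟩ : S.Nonempty := by rw [← card_pos]; omega
  have h3 := (hc.elem h h2 he).2
  have h4 := h.le_card (erase_subset e S)
  rw [card_erase_of_mem he] at h4
  have h5 := hB.2.1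
  rw [hBS] at h5
  omega

/-- split the sum over `mid S` according to an element -/
theorem sum_mid_split {e : α} (he : e ∈ S) (g : Finset α → ℤ) :
    ∑ F ∈ mid S, g F = ∑ F ∈ (S.erase e).powerset,
      ((if 2 ≤ F.card ∧ F.card + 2 ≤ S.card then g F else 0) +
        (if 1 ≤ F.card ∧ F.card + 3 ≤ S.card then g (insert e F) else 0)) := by
  unfold mid
  rw [sum_filter, sum_powerset_erase he]
  apply sum_congr rfl
  intro F hF
  have heF : e ∉ F := fun h => by
    have := (mem_powerset.1 hF) h
    simp at this
  rw [card_insert_of_notMem heF]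
  congr 1
  have : (2 ≤ F.card + 1 ∧ F.card + 1 + 2 ≤ S.card) ↔ (1 ≤ F.card ∧ F.card + 3 ≤ S.card) := by
    omega
  simp only [this]

theorem beta_le_Asum : ∀ (m : ℕ) (S : Finset α) (ρ : Finset α → ℕ) (B : Finset α), S.card = m →
    IsRk S ρ → Conn S ρ → 2 ≤ ρ S → IsBas S ρ B → beta S ρ ≤ Asum S ρ B := by
  intro m
  induction m using Nat.strong_induction_on with
  | _ m ih =>
    intro S ρ B hm h hc hk hB
    have hS2 : 2 ≤ S.card := hk.trans (h.le_card subset_rfl)
    obtain ⟨e, he, heB⟩ := exists_notMem_basis h hc hS2 hB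
    obtain ⟨g1, g2⟩ := hc.elem h hS2 he
    have hS3 : ρ S + 1 ≤ S.card := by
      have h1 : insert e B ⊆ S := insert_subset he hB.1
      have h2 := card_le_card h1
      rw [card_insert_of_notMem heB, hB.2.2] at h2
      exact h2
    have hmidn : ∀ F ∈ mid S, 0 ≤ tm S ρ B F := fun F hF => tm_nonneg h hB (mem_mid.1 hF).1
    have heSB : e ∈ S \ B := mem_sdiff.2 ⟨he, heB⟩
    have hdc := beta_del_con h he g1 g2 hS2
    have hsplit1 : ∑ f ∈ S \ B, beta (S.erase f) (con ρ {f}) =
        beta (S.erase e) (con ρ {e}) + ∑ f ∈ (S.erase e) \ B, beta (S.erase f) (con ρ {f}) := by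
      rw [← add_sum_erase _ _ heSB, sdiff_erase_comm]
    by_cases hcd : Conn (S.erase e) ρ
    · have hBe : IsBas (S.erase e) ρ B :=
        ⟨subset_erase.2 ⟨hB.1, heB⟩, hB.2.1, by rw [g2]; exact hB.2.2⟩
      have hIH := ih _ (by rw [← hm]; exact card_lt_card (erase_ssubset he)) (S.erase e) ρ B rfl
        (h.delE e) hcd (by rw [g2]; exact hk) hBe
      have hce : (S.erase e).card = S.card - 1 := card_erase_of_mem he
      -- the comparison
      have hcmp : Asum (S.erase e) ρ B + beta (S.erase e) (con ρ {e}) ≤ Asum S ρ B := by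
        unfold Asum
        rw [hsplit1, sum_mid_split he]
        set g : Finset α → ℤ := fun F =>
          ((if 2 ≤ F.card ∧ F.card + 2 ≤ S.card then tm S ρ B F else 0) +
            (if 1 ≤ F.card ∧ F.card + 3 ≤ S.card then tm S ρ B (insert e F) else 0)) with hg
        have hgn : ∀ F ∈ (S.erase e).powerset, 0 ≤ g F := by
          intro F hF
          have hFS : F ⊆ S := (mem_powerset.1 hF).trans (erase_subset _ _)
          have a1 := tm_nonneg h hB hFS
          have a2 := tm_nonneg h hB (insert_subset he hFS)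
          simp only [hg]
          split_ifs <;> linarith
        set P1 := mid (S.erase e) with hP1
        set P2 := ((S.erase e) \ B).image (fun f => ({f} : Finset α)) with hP2
        have hdisj : Disjoint P1 P2 := by
          rw [disjoint_left]
          intro F h1 h2
          rw [hP2, mem_image] at h2
          obtain ⟨f, _, rfl⟩ := h2
          have := (mem_mid.1 h1).2.1
          rw [card_singleton] at this
          omega
        have hsub : P1 ∪ P2 ⊆ (S.erase e).powerset := by
          intro F hF
          rw [mem_union] at hF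
          rw [mem_powerset]
          rcases hF with h1 | h1
          · exact (mem_mid.1 h1).1
          · rw [hP2, mem_image] at h1
            obtain ⟨f, hf, rfl⟩ := h1
            exact singleton_subset_iff.2 (mem_sdiff.1 hf).1
        have hle := sum_le_sum_of_subset_of_nonneg hsub (f := g) (fun F hF _ => hgn F hF)
        rw [sum_union hdisj] at hle
        have hP2sum : ∑ F ∈ P2, g F = ∑ f ∈ (S.erase e) \ B, g {f} := by
          rw [hP2, sum_image]
          intro a _ b _ hab
          exact singleton_injective hab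
        rw [hP2sum] at hle
        have c1 : ∑ F ∈ P1, tm (S.erase e) ρ B F ≤ ∑ F ∈ P1, g F := by
          apply sum_le_sum
          intro F hF
          obtain ⟨f1, f2, f3⟩ := mem_mid.1 hF
          have := ptwise1 h he heB hB g1 g2 f1 f2 f3
          simp only [hg]
          rw [if_pos ⟨f2, by omega⟩, if_pos ⟨by omega, by omega⟩]
          exact this
        have c2 : ∑ f ∈ (S.erase e) \ B, beta ((S.erase e).erase f) (con ρ {f}) ≤
            ∑ f ∈ (S.erase e) \ B, beta (S.erase f) (con ρ {f}) +
              ∑ f ∈ (S.erase e) \ B, g {f} := by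
          rw [← sum_add_distrib]
          apply sum_le_sum
          intro f hf
          rw [mem_sdiff, mem_erase] at hf
          have g1' := (hc.elem h hS2 hf.1.2).1
          have := ptwise2 h he hf.1.2 hf.1.1.symm heB hf.2 hk hB g1 g1' g2
          simp only [hg, card_singleton]
          rw [if_neg (by omega), zero_add]
          have e5 : (1 ≤ 1 ∧ 1 + 3 ≤ S.card) ↔ 4 ≤ S.card := by omega
          simp only [e5]
          exact this
        change _ ≤ beta (S.erase e) (con ρ {e}) + ∑ f ∈ (S.erase e) \ B,
          beta (S.erase f) (con ρ {f}) + ∑ F ∈ (S.erase e).powerset, g F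
        linarith
      linarith
    · rw [beta_eq_zero_of_not_conn (h.delE e) hcd] at hdc
      unfold Asum
      rw [hsplit1]
      have h1 : 0 ≤ ∑ f ∈ (S.erase e) \ B, beta (S.erase f) (con ρ {f}) := by
        apply sum_nonneg
        intro f hf
        exact (h.conE (mem_of_mem_erase (mem_sdiff.1 hf).1)).beta_nonneg
      have h2 : 0 ≤ ∑ F ∈ mid S, tm S ρ B F := sum_nonneg hmidn
      linarith

/-! ### Duality -/

/-- The dual rank function. -/
def dual (S : Finset α) (ρ : Finset α → ℕ) : Finset α → ℕ := fun A => A.card + ρ (S \ A) - ρ S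

theorem rk_le_card_add (h : IsRk S ρ) {A : Finset α} (hA : A ⊆ S) : ρ S ≤ A.card + ρ (S \ A) := by
  have h1 := h.union_le_card (A := S \ A) (B := A) sdiff_subset hA
  rw [sdiff_union_of_subset hA] at h1
  omega

theorem IsRk.dual (h : IsRk S ρ) : IsRk S (dual S ρ) where
  zero := by simp [BV.dual]
  mono1 := fun A hA e he => by
    simp only [BV.dual]
    by_cases heA : e ∈ A
    · rw [insert_eq_of_mem heA]
    · rw [card_insert_of_notMem heA, sdiff_insert_eq, ← sdiff_erase_comm]
      have h1 := h.unit ((S \ A).erase e) ((erase_subset _ _).trans sdiff_subset) e he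
      rw [insert_erase (mem_sdiff.2 ⟨he, heA⟩)] at h1
      omega
  unit := fun A hA e he => by
    simp only [BV.dual]
    by_cases heA : e ∈ A
    · rw [insert_eq_of_mem heA]; omega
    · rw [card_insert_of_notMem heA]
      have h1 := h.mono (A := S \ insert e A) (B := S \ A)
        (sdiff_subset_sdiff subset_rfl (subset_insert _ _)) sdiff_subset
      have h2 := rk_le_card_add h hA
      omega
  submod := fun A hA B hB => by
    simp only [BV.dual]
    have h1 := h.submod (S \ A) sdiff_subset (S \ B) sdiff_subset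
    have e1 : S \ A ∪ S \ B = S \ (A ∩ B) := by
      ext t; simp only [mem_union, mem_sdiff, mem_inter]; tauto
    have e2 : (S \ A) ∩ (S \ B) = S \ (A ∪ B) := by
      ext t; simp only [mem_union, mem_sdiff, mem_inter]; tauto
    rw [e1, e2] at h1
    have h2 := card_union_add_card_inter A B
    have h3 := rk_le_card_add h hA
    have h4 := rk_le_card_add h hB
    have h5 := rk_le_card_add h (union_subset hA hB)
    have h6 := rk_le_card_add h (inter_subset_left.trans hA : A ∩ B ⊆ S)
    omega

theorem dual_top (h : IsRk S ρ) : dual S ρ S = S.card - ρ S := by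
  simp [dual, h.zero]

theorem beta_dual (h : IsRk S ρ) (hS : 2 ≤ S.card) : beta S (dual S ρ) = beta S ρ := by
  obtain ⟨e, he⟩ : S.Nonempty := by rw [← card_pos]; omega
  have hne : (S.erase e).Nonempty := by rw [← card_pos, card_erase_of_mem he]; omega
  have s1 : ∑ A ∈ S.powerset, (-1 : ℤ) ^ A.card * (A.card : ℤ) = 0 := by
    rw [sum_powerset_erase he]
    have : ∀ A ∈ (S.erase e).powerset, (-1 : ℤ) ^ A.card * (A.card : ℤ) +
        (-1) ^ (insert e A).card * ((insert e A).card : ℤ) = - (-1) ^ A.card := by
      intro A hA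
      have heA : e ∉ A := fun h => by
        have := (mem_powerset.1 hA) h
        simp at this
      rw [card_insert_of_notMem heA, pow_succ]; push_cast; ring
    rw [sum_congr rfl this, sum_neg_distrib, alt_card_zero hne, neg_zero]
  have s2 : ∑ A ∈ S.powerset, (-1 : ℤ) ^ A.card * (ρ (S \ A) : ℤ) = (-1) ^ S.card * altSum S ρ := by
    unfold altSum
    rw [mul_sum]
    apply sum_nbij' (fun A => S \ A) (fun A => S \ A)
    · intro A _; exact mem_powerset.2 sdiff_subset
    · intro A _; exact mem_powerset.2 sdiff_subset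
    · intro A hA; exact Finset.sdiff_sdiff_eq_self (mem_powerset.1 hA)
    · intro A hA; exact Finset.sdiff_sdiff_eq_self (mem_powerset.1 hA)
    · intro A hA
      have h1 := card_le_card (mem_powerset.1 hA)
      rw [card_sdiff_of_subset (mem_powerset.1 hA)]
      have h2 : (-1 : ℤ) ^ A.card = (-1) ^ S.card * (-1) ^ (S.card - A.card) := by
        rw [← pow_add]
        have : S.card + (S.card - A.card) = A.card + 2 * (S.card - A.card) := by omega
        rw [this, pow_add, pow_mul]; simp
      rw [h2]; ring
  have s3 : altSum S (dual S ρ) = (-1) ^ S.card * altSum S ρ := by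
    have : altSum S (dual S ρ) = ∑ A ∈ S.powerset, (-1 : ℤ) ^ A.card * (A.card : ℤ) +
        ∑ A ∈ S.powerset, (-1 : ℤ) ^ A.card * (ρ (S \ A) : ℤ) -
        (∑ A ∈ S.powerset, (-1 : ℤ) ^ A.card) * (ρ S : ℤ) := by
      unfold altSum
      rw [sum_mul, ← sum_add_distrib, ← sum_sub_distrib]
      apply sum_congr rfl
      intro A hA
      simp only [dual]
      rw [Nat.cast_sub (rk_le_card_add h (mem_powerset.1 hA))]
      push_cast; ring
    rw [this, s1, s2, alt_card_zero ⟨e, he⟩]; ring
  unfold beta
  rw [s3, dual_top h]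
  have h1 := h.le_card subset_rfl
  have h2 : (-1 : ℤ) ^ (ρ S) = (-1) ^ (S.card - ρ S) * (-1) ^ S.card := by
    rw [← pow_add]
    have : S.card - ρ S + S.card = ρ S + 2 * (S.card - ρ S) := by omega
    rw [this, pow_add, pow_mul]; simp
  rw [h2]; ring

theorem Conn.dual (hc : Conn S ρ) (h : IsRk S ρ) : Conn S (dual S ρ) := by
  intro A hA hne hneS
  have h1 := hc A hA hne hneS
  simp only [BV.dual]
  rw [Finset.sdiff_sdiff_eq_self hA]
  have h2 := rk_le_card_add h hA
  have h3 := rk_le_card_add h (sdiff_subset : S \ A ⊆ S)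
  rw [Finset.sdiff_sdiff_eq_self hA, card_sdiff_of_subset hA] at h3
  have h4 := h.zero
  have h5 := card_le_card hA
  have h6 := h.le_card (subset_refl S)
  rw [Finset.sdiff_self, h4, card_sdiff_of_subset hA]
  omega

theorem dual_restrict (h : IsRk S ρ) {F : Finset α} (hF : F ⊆ S) {A : Finset α} (hA : A ⊆ F) :
    dual S ρ A = dual F (con ρ (S \ F)) A := by
  simp only [dual, con]
  have e1 : F \ A ∪ S \ F = S \ A := by
    ext t; simp only [mem_union, mem_sdiff]
    constructor
    · rintro (⟨h1, h2⟩ | ⟨h1, h2⟩)
      · exact ⟨hF h1, h2⟩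
      · exact ⟨h1, fun h => h2 (hA h)⟩
    · rintro ⟨h1, h2⟩
      by_cases ht : t ∈ F
      · exact Or.inl ⟨ht, h2⟩
      · exact Or.inr ⟨h1, ht⟩
  have e2 : F ∪ S \ F = S := union_sdiff_of_subset hF
  rw [e1, e2]
  have h1 := h.mono (A := S \ F) (B := S \ A) (sdiff_subset_sdiff subset_rfl hA) sdiff_subset
  have h2 := h.mono (A := S \ F) (B := S) sdiff_subset subset_rfl
  have h3 := rk_le_card_add h (hA.trans hF)
  omega

theorem dual_con (h : IsRk S ρ) {F : Finset α} (hF : F ⊆ S) {A : Finset α} (hA : A ⊆ S \ F) :
    con (dual S ρ) F A = dual (S \ F) ρ A := by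
  simp only [dual, con]
  have e1 : S \ (A ∪ F) = (S \ F) \ A := by
    ext t; simp only [mem_union, mem_sdiff]; tauto
  have hd : Disjoint A F := by
    rw [disjoint_left]; intro t h1 h2; exact (mem_sdiff.1 (hA h1)).2 h2
  rw [e1, card_union_of_disjoint hd]
  have h2 := rk_le_card_add h hF
  have h3 : ρ (S \ F) ≤ A.card + ρ ((S \ F) \ A) := rk_le_card_add (h.sub sdiff_subset) hA
  omega

theorem IsBas.dual (h : IsRk S ρ) {B : Finset α} (hB : IsBas S ρ B) :
    IsBas S (BV.dual S ρ) (S \ B) := by
  refine ⟨sdiff_subset, ?_, ?_⟩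
  · simp only [BV.dual]
    rw [Finset.sdiff_sdiff_eq_self hB.1, hB.2.1, hB.2.2]; omega
  · rw [dual_top h, card_sdiff_of_subset hB.1, hB.2.2]

theorem beta_le_Bsum (h : IsRk S ρ) (hc : Conn S ρ) (hk : ρ S + 2 ≤ S.card) {B : Finset α}
    (hB : IsBas S ρ B) : beta S ρ ≤ Bsum S ρ B := by
  have hS2 : 2 ≤ S.card := by omega
  have hk1 : 1 ≤ ρ S := by
    obtain ⟨e, he⟩ : S.Nonempty := by rw [← card_pos]; omega
    rw [← (hc.elem h hS2 he).1]
    exact h.mono (singleton_subset_iff.2 he) subset_rfl
  have h1 := beta_le_Asum _ S (dual S ρ) (S \ B) rfl h.dual (hc.dual h)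
    (by rw [dual_top h]; omega) (hB.dual h)
  rw [beta_dual h hS2] at h1
  refine h1.trans (le_of_eq ?_)
  unfold Asum Bsum
  rw [Finset.sdiff_sdiff_eq_self hB.1]
  congr 1
  · apply sum_congr rfl
    intro e he
    have heS := hB.1 he
    have hce : (S.erase e).card = S.card - 1 := card_erase_of_mem heS
    rw [← beta_dual (h.delE e) (by omega)]
    apply beta_congr
    intro A hA
    have := dual_con h (singleton_subset_iff.2 heS) (A := A) (by
      rw [sdiff_singleton_eq_erase]; exact hA)
    rw [sdiff_singleton_eq_erase] at this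
    exact this
  · apply sum_nbij' (fun A => S \ A) (fun A => S \ A)
    · intro F hF
      obtain ⟨f1, f2, f3⟩ := mem_mid.1 hF
      rw [mem_mid, card_sdiff_of_subset f1]
      exact ⟨sdiff_subset, by omega, by omega⟩
    · intro F hF
      obtain ⟨f1, f2, f3⟩ := mem_mid.1 hF
      rw [mem_mid, card_sdiff_of_subset f1]
      exact ⟨sdiff_subset, by omega, by omega⟩
    · intro A hA; exact Finset.sdiff_sdiff_eq_self (mem_mid.1 hA).1
    · intro A hA; exact Finset.sdiff_sdiff_eq_self (mem_mid.1 hA).1
    · intro F hF
      obtain ⟨f1, f2, f3⟩ := mem_mid.1 hF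
      unfold tm
      have hcF : (S \ F).card = S.card - F.card := card_sdiff_of_subset f1
      have b1 : beta F (dual S ρ) = beta F (con ρ (S \ F)) := by
        have hr : IsRk F (con ρ (S \ F)) := by
          have := h.con (sdiff_subset : S \ F ⊆ S)
          rwa [Finset.sdiff_sdiff_eq_self f1] at this
        rw [← beta_dual hr f2]
        exact beta_congr fun A hA => dual_restrict h f1 hA
      have b2 : beta (S \ F) (con (dual S ρ) F) = beta (S \ F) ρ := by
        rw [← beta_dual (h.sub sdiff_subset) (by omega)]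
        exact beta_congr fun A hA => dual_con h f1 hA
      rw [b1, b2, Finset.sdiff_sdiff_eq_self f1]
      have c1 : ((dual S ρ F : ℕ) : ℤ) - ((F ∩ (S \ B)).card : ℤ) =
          (ρ (S \ F) : ℤ) - (((S \ F) ∩ B).card : ℤ) := by
        simp only [dual]
        have d1 : (F ∩ (S \ B)).card + (F ∩ B).card = F.card := by
          rw [← card_union_of_disjoint]
          · congr 1
            ext t; simp only [mem_union, mem_inter, mem_sdiff]
            constructor
            · rintro (h | h) <;> exact h.1
            · intro ht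
              by_cases htB : t ∈ B
              · exact Or.inr ⟨ht, htB⟩
              · exact Or.inl ⟨ht, f1 ht, htB⟩
          · rw [disjoint_left]; intro t h1 h2
            exact (mem_sdiff.1 (mem_inter.1 h1).2).2 (mem_inter.1 h2).2
        have d2 : ((S \ F) ∩ B).card + (F ∩ B).card = B.card := by
          rw [← card_union_of_disjoint]
          · congr 1
            ext t; simp only [mem_union, mem_inter, mem_sdiff]
            constructor
            · rintro (h | h) <;> exact h.2
            · intro ht
              by_cases htF : t ∈ F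
              · exact Or.inr ⟨htF, ht⟩
              · exact Or.inl ⟨⟨hB.1 ht, htF⟩, ht⟩
          · rw [disjoint_left]; intro t h1 h2
            exact (mem_sdiff.1 (mem_inter.1 h1).1).2 (mem_inter.1 h2).1
        have d3 := rk_le_card_add h f1
        have d4 := hB.2.2
        rw [Nat.cast_sub d3]
        push_cast
        have d1' : ((F ∩ (S \ B)).card : ℤ) + ((F ∩ B).card : ℤ) = (F.card : ℤ) := by
          exact_mod_cast d1
        have d2' : (((S \ F) ∩ B).card : ℤ) + ((F ∩ B).card : ℤ) = (ρ S : ℤ) := by
          rw [← d4]; exact_mod_cast d2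
        linarith
      rw [c1]; ring

end Pool.Agent.H146.BV
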