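import Pool.Agent.H146.BV.Null
import Pool.Agent.H146.BV.Sums

/-!
# The base polytope, its volume and the pyramid inequality
-/

namespace Pool.Agent.H146.BV

open MeasureTheory Finset Function
open scoped ENNReal Nat Pointwise

variable {α : Type} [DecidableEq α] {S : Finset α} {ρ : Finset α → ℕ}

/-- Indicator vector. -/
noncomputable def ev (B : Finset α) : α → ℝ := fun i => if i ∈ B then 1 else 0

theorem sum_ev (A B : Finset α) : ∑ i ∈ A, ev B i = ((A ∩ B).card : ℝ) := by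
  unfold ev
  rw [sum_ite_mem, sum_const, nsmul_eq_mul, mul_one]

/-- The base polytope. -/
noncomputable def PP (S : Finset α) (ρ : Finset α → ℕ) : Set (α → ℝ) :=
  convexHull ℝ {x | ∃ B, IsBas S ρ B ∧ x = ev B}

theorem PP_congr {ρ σ : Finset α → ℕ} (h : ∀ A ⊆ S, ρ A = σ A) : PP S ρ = PP S σ := by
  unfold PP
  congr 1
  ext x
  constructor
  · rintro ⟨B, ⟨h1, h2, h3⟩, rfl⟩
    exact ⟨B, ⟨h1, by rw [← h B h1, h2], by rw [h3, h S subset_rfl]⟩, rfl⟩
  · rintro ⟨B, ⟨h1, h2, h3⟩, rfl⟩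
    exact ⟨B, ⟨h1, by rw [h B h1, h2], by rw [h3, h S subset_rfl]⟩, rfl⟩

theorem isCompact_PP : IsCompact (PP S ρ) := by
  apply Set.Finite.isCompact_convexHull
  apply Set.Finite.subset (S.powerset.finite_toSet.image ev)
  rintro x ⟨B, hB, rfl⟩
  exact ⟨B, by simpa using hB.1, rfl⟩

theorem ev_mem_PP {B : Finset α} (hB : IsBas S ρ B) : ev B ∈ PP S ρ :=
  subset_convexHull ℝ _ ⟨B, hB, rfl⟩

theorem PP_facts (h : IsRk S ρ) {x : α → ℝ} (hx : x ∈ PP S ρ) :
    (∀ i ∉ S, x i = 0) ∧ ∑ i ∈ S, x i = ρ S ∧ (∀ i, 0 ≤ x i ∧ x i ≤ 1) ∧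
      ∀ A ⊆ S, ∑ i ∈ A, x i ≤ ρ A := by
  have hconv : Convex ℝ {x : α → ℝ | (∀ i ∉ S, x i = 0) ∧ ∑ i ∈ S, x i = ρ S ∧
      (∀ i, 0 ≤ x i ∧ x i ≤ 1) ∧ ∀ A ⊆ S, ∑ i ∈ A, x i ≤ ρ A} := by
    intro x hx y hy a b ha hb hab
    obtain ⟨x1, x2, x3, x4⟩ := hx
    obtain ⟨y1, y2, y3, y4⟩ := hy
    have hsum : ∀ A : Finset α, ∑ i ∈ A, (a • x + b • y) i =
        a * ∑ i ∈ A, x i + b * ∑ i ∈ A, y i := by
      intro A
      simp only [Pi.add_apply, Pi.smul_apply, smul_eq_mul]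
      rw [sum_add_distrib, mul_sum, mul_sum]
    refine ⟨?_, ?_, ?_, ?_⟩
    · intro i hi
      simp [x1 i hi, y1 i hi]
    · rw [hsum, x2, y2, ← add_mul, hab, one_mul]
    · intro i
      simp only [Pi.add_apply, Pi.smul_apply, smul_eq_mul]
      constructor
      · have := mul_nonneg ha (x3 i).1
        have := mul_nonneg hb (y3 i).1
        linarith
      · have h1 := mul_le_mul_of_nonneg_left (x3 i).2 ha
        have h2 := mul_le_mul_of_nonneg_left (y3 i).2 hb
        linarith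
    · intro A hA
      rw [hsum]
      have h1 := mul_le_mul_of_nonneg_left (x4 A hA) ha
      have h2 := mul_le_mul_of_nonneg_left (y4 A hA) hb
      have h3 : a * (ρ A : ℝ) + b * ρ A = ρ A := by rw [← add_mul, hab, one_mul]
      linarith
  have hsub : {x : α → ℝ | ∃ B, IsBas S ρ B ∧ x = ev B} ⊆ {x : α → ℝ | (∀ i ∉ S, x i = 0) ∧
      ∑ i ∈ S, x i = ρ S ∧ (∀ i, 0 ≤ x i ∧ x i ≤ 1) ∧ ∀ A ⊆ S, ∑ i ∈ A, x i ≤ ρ A} := by
    rintro x ⟨B, hB, rfl⟩
    refine ⟨?_, ?_, ?_, ?_⟩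
    · intro i hi
      exact if_neg fun h => hi (hB.1 h)
    · rw [sum_ev, inter_eq_right.2 hB.1, hB.2.2]
    · intro i
      unfold ev
      split_ifs <;> norm_num
    · intro A hA
      rw [sum_ev]
      exact_mod_cast hB.inter_le h hA
  exact convexHull_min hsub hconv hx

theorem IsBas.union (h : IsRk S ρ) {F B1 B2 : Finset α} (hF : F ⊆ S) (h1 : IsBas F ρ B1)
    (h2 : IsBas (S \ F) (con ρ F) B2) : IsBas S ρ (B1 ∪ B2) := by
  obtain ⟨a1, a2, a3⟩ := h1
  obtain ⟨b1, b2, b3⟩ := h2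
  have hd : Disjoint B1 B2 := by
    rw [disjoint_left]; intro t t1 t2; exact (mem_sdiff.1 (b1 t2)).2 (a1 t1)
  have c0 : B1 ∪ B2 ⊆ S := union_subset (a1.trans hF) (b1.trans sdiff_subset)
  have c1 := card_union_of_disjoint hd
  have hFS := h.mono hF subset_rfl
  have hFB : ρ F ≤ ρ (B2 ∪ F) := h.mono subset_union_right (union_subset (b1.trans sdiff_subset) hF)
  simp only [con, sdiff_union_of_subset hF] at b2 b3
  have h3 := h.submod _ c0 _ hF
  have h4 : ρ (B2 ∪ F) ≤ ρ (B1 ∪ B2 ∪ F) := by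
    apply h.mono _ (union_subset c0 hF)
    intro t; simp only [mem_union]; tauto
  have h5 : ρ B1 ≤ ρ ((B1 ∪ B2) ∩ F) := by
    apply h.mono _ (inter_subset_right.trans hF)
    intro t ht
    exact mem_inter.2 ⟨mem_union_left _ ht, a1 ht⟩
  have h6 := h.mono c0 subset_rfl
  refine ⟨c0, ?_, ?_⟩
  · rw [c1]; omega
  · rw [c1]; omega

theorem add_mem_PP (h : IsRk S ρ) {F : Finset α} (hF : F ⊆ S) {x y : α → ℝ} (hx : x ∈ PP F ρ)
    (hy : y ∈ PP (S \ F) (con ρ F)) : x + y ∈ PP S ρ := by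
  have h1 : x + y ∈ PP F ρ + PP (S \ F) (con ρ F) := Set.add_mem_add hx hy
  unfold PP at h1
  rw [← convexHull_add] at h1
  refine convexHull_mono ?_ h1
  rintro z ⟨u, ⟨B1, hB1, rfl⟩, v, ⟨B2, hB2, rfl⟩, rfl⟩
  refine ⟨B1 ∪ B2, IsBas.union h hF hB1 hB2, ?_⟩
  funext i
  simp only [ev, Pi.add_apply, mem_union]
  have hd : i ∈ B1 → i ∉ B2 := fun h1 h2 => (mem_sdiff.1 (hB2.1 h2)).2 (hB1.1 h1)
  by_cases h1 : i ∈ B1
  · simp [h1, hd h1]
  · simp [h1]

/-- The pyramid of `F`. -/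
noncomputable def Lam (S : Finset α) (ρ : Finset α → ℕ) (B F : Finset α) : Set (α → ℝ) :=
  pyr (ev B) (PP F ρ) (PP (S \ F) (con ρ F))

theorem Lam_subset (h : IsRk S ρ) {B F : Finset α} (hB : IsBas S ρ B) (hF : F ⊆ S) :
    Lam S ρ B F ⊆ PP S ρ := by
  rintro z ⟨s, hs, x, hx, y, hy, rfl⟩
  exact (convex_convexHull ℝ _) (ev_mem_PP hB) (add_mem_PP h hF hx hy) (by linarith [hs.2]) hs.1
    (by ring)

theorem isCompact_Lam {B F : Finset α} : IsCompact (Lam S ρ B F) :=
  isCompact_pyr isCompact_PP isCompact_PP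

/-- Normalised volume. -/
noncomputable def Vol (S : Finset α) (ρ : Finset α → ℕ) : ℝ :=
  if h : S.Nonempty then ((S.card - 1)! : ℝ) * (hm S h.choose (ρ S) (PP S ρ)).toReal else 1

theorem Vol_eq {e : α} (he : e ∈ S) [Fintype α] :
    Vol S ρ = ((S.card - 1)! : ℝ) * (hm S e (ρ S) (PP S ρ)).toReal := by
  have h : S.Nonempty := ⟨e, he⟩
  unfold Vol
  rw [dif_pos h, hm_indep h.choose_spec he isCompact_PP.measurableSet]

theorem Vol_congr {ρ σ : Finset α → ℕ} (h : ∀ A ⊆ S, ρ A = σ A) : Vol S ρ = Vol S σ := by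
  unfold Vol
  rw [PP_congr h, h S subset_rfl]

theorem Vol_nonneg : 0 ≤ Vol S ρ := by
  unfold Vol
  split_ifs
  · positivity
  · exact zero_le_one

theorem Vol_single {e : α} (h : IsRk {e} ρ) : Vol {e} ρ = 1 := by
  have hne : ({e} : Finset α).Nonempty := singleton_nonempty e
  unfold Vol
  rw [dif_pos hne]
  have he : hne.choose = e := mem_singleton.1 hne.choose_spec
  rw [he]
  have h1 : hm {e} e (ρ {e}) (PP {e} ρ) = 1 := by
    have hle := h.le_card (subset_refl {e})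
    rw [card_singleton] at hle
    obtain ⟨B, hB⟩ : ∃ B, IsBas {e} ρ B := by
      have h0 : ρ {e} = 0 ∨ ρ {e} = 1 := by omega
      rcases h0 with h0 | h0
      · exact ⟨∅, empty_subset _, by rw [h.zero, card_empty], by rw [h0, card_empty]⟩
      · exact ⟨{e}, subset_rfl, by rw [h0, card_singleton], by rw [h0, card_singleton]⟩
    have key : ∀ y : (↥(({e} : Finset α).erase e) → ℝ),
        tr {e} e (ρ {e}) (updateFinset (0 : α → ℝ) (({e} : Finset α).erase e) y) = ev B := by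
      intro y
      funext i
      simp only [tr, ev]
      by_cases hi : i = e
      · have hz : ∑ j ∈ ({e} : Finset α).erase e,
            updateFinset (0 : α → ℝ) (({e} : Finset α).erase e) y j = 0 :=
          sum_eq_zero fun j hj => absurd hj (by simp)
        rw [if_pos hi, hz, sub_zero, hi]
        rcases Finset.subset_singleton_iff.1 hB.1 with h3 | h3
        · have := hB.2.2
          rw [h3, card_empty] at this
          rw [← this, h3]; simp
        · have := hB.2.2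
          rw [h3, card_singleton] at this
          rw [← this, h3]; simp
      · have hi2 : i ∉ ({e} : Finset α) := by simp [hi]
        rw [if_neg hi, if_neg hi2, if_neg fun h => hi2 (hB.1 h)]
    have hpre : (fun y : (↥(({e} : Finset α).erase e) → ℝ) =>
        tr {e} e (ρ {e}) (updateFinset (0 : α → ℝ) (({e} : Finset α).erase e) y)) =
        fun _ => ev B := by
      funext y; exact key y
    unfold hm
    rw [hpre, Measure.map_const]
    have : IsEmpty ↥(({e} : Finset α).erase e) := by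
      rw [erase_singleton]; infer_instance
    have hvol : (volume : Measure (↥(({e} : Finset α).erase e) → ℝ)) Set.univ = 1 := by
      rw [volume_pi, Measure.pi_of_empty]
      exact measure_univ
    rw [hvol, one_smul]
    exact Measure.dirac_apply_of_mem (ev_mem_PP hB)
  rw [h1]; simp

/-- The volume of a pyramid. -/
theorem vol_Lam [Fintype α] (h : IsRk S ρ) {B F : Finset α} (hB : IsBas S ρ B) (hF : F ⊆ S)
    (hne : F.Nonempty) (hneS : F ≠ S) (hlt : (F ∩ B).card < ρ F) {e : α} (he : e ∈ S) :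
    ((S.card - 1)! : ℝ) * (hm S e (ρ S) (Lam S ρ B F)).toReal =
      ((ρ F : ℝ) - (F ∩ B).card) * ((S.card - 2).choose (F.card - 1)) *
        (Vol F ρ * Vol (S \ F) (con ρ F)) := by
  obtain ⟨f, hf⟩ := hne
  have hGne : (S \ F).Nonempty := by
    rw [sdiff_nonempty]; exact fun h => hneS (subset_antisymm hF h)
  obtain ⟨g, hg⟩ := hGne
  have hgS : g ∈ S := (mem_sdiff.1 hg).1
  have hU : F ∪ S \ F = S := union_sdiff_of_subset hF
  have hr : con ρ F (S \ F) = ρ S - ρ F := by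
    simp only [con]; rw [sdiff_union_of_subset hF]
  have hFS := h.mono hF subset_rfl
  have hcast : ((con ρ F (S \ F) : ℕ) : ℝ) = (ρ S : ℝ) - ρ F := by
    rw [hr, Nat.cast_sub hFS]
  have hsum : (ρ F : ℝ) + (con ρ F (S \ F) : ℕ) = ρ S := by rw [hcast]; ring
  have hs1 : ∑ i ∈ F, ev B i = ((F ∩ B).card : ℝ) := sum_ev F B
  have key := hm_pyr (F := F) (G := S \ F) (c1 := ρ F) (c2 := (con ρ F (S \ F) : ℕ)) (b := ev B)
    (K1 := PP F ρ) (K2 := PP (S \ F) (con ρ F)) disjoint_sdiff hf hg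
    (by
      intro i hi
      rw [hU] at hi
      exact if_neg fun h => hi (hB.1 h))
    (by
      rw [← sum_union disjoint_sdiff, hU, sum_ev, inter_eq_right.2 hB.1, hB.2.2, hsum])
    (by rw [hs1]; exact_mod_cast hlt)
    isCompact_PP isCompact_PP
    (fun x hx => ⟨(PP_facts (h.sub hF) hx).1, (PP_facts (h.sub hF) hx).2.1⟩)
    (fun x hx => ⟨(PP_facts (h.con hF) hx).1, (PP_facts (h.con hF) hx).2.1⟩)
  rw [hU, hsum, hs1] at key
  have mL : MeasurableSet (Lam S ρ B F) := isCompact_Lam.measurableSet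
  rw [hm_indep he hgS mL, Vol_eq (S := F) hf, Vol_eq (S := S \ F) hg]
  change ((S.card - 1)! : ℝ) * (hm S g (ρ S) (pyr (ev B) (PP F ρ) (PP (S \ F) (con ρ F)))).toReal = _
  rw [key, ENNReal.toReal_mul, ENNReal.toReal_mul, ENNReal.toReal_ofReal]
  swap
  · apply div_nonneg
    · have : ((F ∩ B).card : ℝ) < ρ F := by exact_mod_cast hlt
      linarith
    · positivity
  have cF : 1 ≤ F.card := card_pos.2 ⟨f, hf⟩
  have cG : 1 ≤ (S \ F).card := card_pos.2 ⟨g, hg⟩
  have cS : F.card + (S \ F).card = S.card := by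
    rw [← card_union_of_disjoint disjoint_sdiff, hU]
  obtain ⟨p, hp⟩ : ∃ p, F.card = p + 1 := ⟨F.card - 1, by omega⟩
  obtain ⟨q, hq⟩ : ∃ q, (S \ F).card = q + 1 := ⟨(S \ F).card - 1, by omega⟩
  have hS : S.card = p + q + 2 := by omega
  rw [hp, hq, hS]
  have e1 : p + 1 - 1 = p := rfl
  have e2 : q + 1 - 1 = q := rfl
  have e3 : p + q + 2 - 1 = p + q + 1 := rfl
  have e4 : p + q + 2 - 2 = p + q := rfl
  rw [e1, e2, e3, e4]
  have hfac : ((p + q + 1)! : ℝ) = ((p + q : ℕ) + 1 : ℝ) * (((p + q).choose p : ℝ) * p ! * q !) := by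
    rw [Nat.factorial_succ]
    push_cast
    congr 1
    have := Nat.add_choose_mul_factorial_mul_factorial p q
    rw [← Nat.choose_symm_add] at this
    exact_mod_cast this.symm
  rw [hfac]
  have hpos : ((p + q : ℕ) + 1 : ℝ) ≠ 0 := by positivity
  field_simp

end Pool.Agent.H146.BV
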