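import Pool.Agent.H146.BV.Geom

/-!
# The volume of a pyramid over a product
-/

namespace Pool.Agent.H146.BV

open MeasureTheory Finset Function
open scoped ENNReal

theorem lint_pow {a b : ℝ} (hab : a < b) (m : ℕ) :
    ∫⁻ h in Set.Ioc a b, ENNReal.ofReal (((h - a) / (b - a)) ^ m) =
      ENNReal.ofReal ((b - a) / (m + 1)) := by
  have hcont : Continuous (fun h : ℝ => ((h - a) / (b - a)) ^ m) :=
    ((continuous_id.sub continuous_const).div_const _).pow m
  have hint : IntegrableOn (fun h : ℝ => ((h - a) / (b - a)) ^ m) (Set.Ioc a b) :=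
    (hcont.integrableOn_Icc).mono_set Set.Ioc_subset_Icc_self
  have hnn : 0 ≤ᵐ[volume.restrict (Set.Ioc a b)] (fun h : ℝ => ((h - a) / (b - a)) ^ m) := by
    rw [Filter.EventuallyLE, ae_restrict_iff' measurableSet_Ioc]
    refine Filter.Eventually.of_forall fun h hh => ?_
    have h1 : 0 < h - a := by linarith [hh.1]
    have h2 : 0 < b - a := by linarith
    have : 0 ≤ (h - a) / (b - a) := by positivity
    exact pow_nonneg this m
  rw [← ofReal_integral_eq_lintegral_ofReal hint hnn]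
  congr 1
  rw [← intervalIntegral.integral_of_le hab.le]
  have hne : b - a ≠ 0 := by linarith
  have h1 := intervalIntegral.integral_comp_sub_right (a := a) (b := b)
    (fun h : ℝ => (h / (b - a)) ^ m) a
  rw [h1]
  have h2 := intervalIntegral.integral_comp_div (a := a - a) (b := b - a)
    (fun h : ℝ => h ^ m) hne
  rw [h2, integral_pow, sub_self, zero_div, div_self hne]
  simp
  ring

variable {α : Type} [DecidableEq α]

/-- Restriction of a vector. -/
noncomputable def rs (F : Finset α) (b : α → ℝ) : α → ℝ := fun i => if i ∈ F then b i else 0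

theorem sum_rs (F : Finset α) (b : α → ℝ) : ∑ i ∈ F, rs F b i = ∑ i ∈ F, b i :=
  sum_congr rfl fun i hi => by simp [rs, hi]

/-- The pyramid with apex `b` over `K1 + K2`. -/
def pyr (b : α → ℝ) (K1 K2 : Set (α → ℝ)) : Set (α → ℝ) :=
  {z | ∃ s ∈ Set.Icc (0 : ℝ) 1, ∃ x ∈ K1, ∃ y ∈ K2, z = (1 - s) • b + s • (x + y)}

/-- inverse of the contraction towards `b` -/
noncomputable def iv (b : α → ℝ) (s : ℝ) (u : α → ℝ) : α → ℝ := s⁻¹ • (u - (1 - s) • b)

theorem measurable_iv (b : α → ℝ) (s : ℝ) : Measurable (iv b s) := by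
  have h : Measurable (fun u : α → ℝ => u - (1 - s) • b) := measurable_id.sub_const _
  exact h.const_smul s⁻¹

theorem hm_iv {S : Finset α} {e : α} (he : e ∈ S) {c : ℝ} {b : α → ℝ}
    {s : ℝ} (hs : 0 < s) (hb : ∀ i ∉ S, b i = 0) {K : Set (α → ℝ)} (hK : MeasurableSet K) :
    hm S e ((1 - s) * (∑ i ∈ S, b i) + s * c) (iv b s ⁻¹' K) =
      ENNReal.ofReal (s ^ (S.card - 1)) * hm S e c K := by
  rw [hm_scale he hs hb (measurable_iv b s hK), ← Set.preimage_comp]
  congr 2
  have : (iv b s ∘ fun z => (1 - s) • b + s • z) = id := by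
    funext z
    simp only [Function.comp, iv, id, add_sub_cancel_left, smul_smul, inv_mul_cancel₀ hs.ne',
      one_smul]
  rw [this, Set.preimage_id]

theorem sum_zero_of_disj {F G : Finset α} (hFG : Disjoint F G) {y : α → ℝ}
    (hy : ∀ i ∉ G, y i = 0) : ∑ i ∈ F, y i = 0 :=
  sum_eq_zero fun i hi => hy i fun h => disjoint_left.1 hFG hi h

section
variable {F G : Finset α} {c1 c2 : ℝ} {b : α → ℝ} {K1 K2 : Set (α → ℝ)}

theorem pyr_sum (hFG : Disjoint F G)
    (h1 : ∀ x ∈ K1, (∀ i ∉ F, x i = 0) ∧ ∑ i ∈ F, x i = c1)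
    (h2 : ∀ x ∈ K2, (∀ i ∉ G, x i = 0) ∧ ∑ i ∈ G, x i = c2) {s : ℝ} {x y : α → ℝ}
    (hx : x ∈ K1) (hy : y ∈ K2) :
    ∑ i ∈ F, ((1 - s) • b + s • (x + y)) i = (1 - s) * (∑ i ∈ F, b i) + s * c1 := by
  have e1 := (h1 x hx).2
  have e2 := sum_zero_of_disj hFG (h2 y hy).1
  simp only [Pi.add_apply, Pi.smul_apply, smul_eq_mul]
  rw [sum_add_distrib, ← mul_sum, ← mul_sum, sum_add_distrib, e1, e2, add_zero]

theorem mem_pyr_iff (hFG : Disjoint F G) (hb : ∀ i ∉ F ∪ G, b i = 0) (hlt : ∑ i ∈ F, b i ≠ c1)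
    (h1 : ∀ x ∈ K1, (∀ i ∉ F, x i = 0) ∧ ∑ i ∈ F, x i = c1)
    (h2 : ∀ x ∈ K2, (∀ i ∉ G, x i = 0) ∧ ∑ i ∈ G, x i = c2) {z : α → ℝ}
    (hz : ∀ i ∉ F ∪ G, z i = 0) {s : ℝ} (hs0 : 0 < s) (hs1 : s ≤ 1)
    (hs : ∑ i ∈ F, z i = (1 - s) * (∑ i ∈ F, b i) + s * c1) :
    z ∈ pyr b K1 K2 ↔ iv (rs F b) s (rs F z) ∈ K1 ∧ iv (rs G b) s (rs G z) ∈ K2 := by
  constructor
  · rintro ⟨s', hs', x, hx, y, hy, rfl⟩
    rw [pyr_sum hFG h1 h2 hx hy] at hs
    have hss : s' = s := by
      have : (s' - s) * (c1 - ∑ i ∈ F, b i) = 0 := by linarith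
      rcases mul_eq_zero.1 this with h | h
      · linarith
      · exact absurd (by linarith) hlt
    subst hss
    have ex : iv (rs F b) s' (rs F ((1 - s') • b + s' • (x + y))) = x := by
      funext i
      simp only [iv, rs, Pi.smul_apply, Pi.sub_apply, Pi.add_apply, smul_eq_mul]
      by_cases hi : i ∈ F
      · rw [if_pos hi, if_pos hi, (h2 y hy).1 i (disjoint_left.1 hFG hi)]
        field_simp
        ring
      · rw [if_neg hi, if_neg hi, (h1 x hx).1 i hi]; ring
    have ey : iv (rs G b) s' (rs G ((1 - s') • b + s' • (x + y))) = y := by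
      funext i
      simp only [iv, rs, Pi.smul_apply, Pi.sub_apply, Pi.add_apply, smul_eq_mul]
      by_cases hi : i ∈ G
      · rw [if_pos hi, if_pos hi, (h1 x hx).1 i (disjoint_right.1 hFG hi)]
        field_simp
        ring
      · rw [if_neg hi, if_neg hi, (h2 y hy).1 i hi]; ring
    rw [ex, ey]
    exact ⟨hx, hy⟩
  · rintro ⟨hx, hy⟩
    refine ⟨s, ⟨hs0.le, hs1⟩, _, hx, _, hy, ?_⟩
    funext i
    simp only [iv, rs, Pi.smul_apply, Pi.sub_apply, Pi.add_apply, smul_eq_mul]
    by_cases hi : i ∈ F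
    · have hi2 := disjoint_left.1 hFG hi
      rw [if_pos hi, if_pos hi, if_neg hi2, if_neg hi2]
      field_simp
      ring
    · by_cases hi2 : i ∈ G
      · rw [if_neg hi, if_neg hi, if_pos hi2, if_pos hi2]
        field_simp
        ring
      · have : i ∉ F ∪ G := by simp [hi, hi2]
        rw [if_neg hi, if_neg hi, if_neg hi2, if_neg hi2, hz i this, hb i this]
        ring

theorem isCompact_pyr (hK1 : IsCompact K1) (hK2 : IsCompact K2) : IsCompact (pyr b K1 K2) := by
  have : pyr b K1 K2 = (fun p : ℝ × (α → ℝ) × (α → ℝ) =>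
      (1 - p.1) • b + p.1 • (p.2.1 + p.2.2)) '' (Set.Icc (0 : ℝ) 1 ×ˢ K1 ×ˢ K2) := by
    ext z
    simp only [pyr, Set.mem_ofPred_eq, Set.mem_image, Set.mem_prod, Prod.exists]
    constructor
    · rintro ⟨s, hs, x, hx, y, hy, rfl⟩
      exact ⟨s, x, y, ⟨hs, hx, hy⟩, rfl⟩
    · rintro ⟨s, x, y, ⟨hs, hx, hy⟩, rfl⟩
      exact ⟨s, hs, x, hx, y, hy, rfl⟩
  rw [this]
  apply IsCompact.image (isCompact_Icc.prod (hK1.prod hK2))
  fun_prop

/-- volume of a pyramid over a product -/
theorem hm_pyr [Fintype α] (hFG : Disjoint F G) {e g : α} (he : e ∈ F) (hg : g ∈ G)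
    (hb : ∀ i ∉ F ∪ G, b i = 0) (hbs : ∑ i ∈ F, b i + ∑ i ∈ G, b i = c1 + c2)
    (hlt : ∑ i ∈ F, b i < c1) (hK1 : IsCompact K1) (hK2 : IsCompact K2)
    (h1 : ∀ x ∈ K1, (∀ i ∉ F, x i = 0) ∧ ∑ i ∈ F, x i = c1)
    (h2 : ∀ x ∈ K2, (∀ i ∉ G, x i = 0) ∧ ∑ i ∈ G, x i = c2) :
    hm (F ∪ G) g (c1 + c2) (pyr b K1 K2) =
      ENNReal.ofReal ((c1 - ∑ i ∈ F, b i) / (((F.card - 1 + (G.card - 1) : ℕ) : ℝ) + 1)) *
        (hm F e c1 K1 * hm G g c2 K2) := by
  set h0 := ∑ i ∈ F, b i with hh0
  set k := c1 + c2 with hk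
  have mΛ : MeasurableSet (pyr b K1 K2) := (isCompact_pyr hK1 hK2).measurableSet
  have mK1 := hK1.measurableSet
  have mK2 := hK2.measurableSet
  have hgF : g ∉ F := disjoint_right.1 hFG hg
  have heG : e ∉ G := disjoint_left.1 hFG he
  set TF := F.erase e with hTF
  set TG := G.erase g with hTG
  have hS : (F ∪ G).erase g = F ∪ TG := by
    ext i; simp only [mem_erase, mem_union, hTG]
    constructor
    · rintro ⟨a, b | b⟩
      · exact Or.inl b
      · exact Or.inr ⟨a, b⟩
    · rintro (a | ⟨a, b⟩)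
      · exact ⟨ne_of_mem_of_not_mem a hgF, Or.inl a⟩
      · exact ⟨a, Or.inr b⟩
  have hdisj : Disjoint F TG := disjoint_of_subset_right (erase_subset _ _) hFG
  have hFins : F = insert e TF := (insert_erase he).symm
  have heTF : e ∉ TF := notMem_erase e F
  have heTG : e ∉ TG := fun h => heG (mem_of_mem_erase h)
  set μ : α → Measure ℝ := fun _ => volume with hμ
  set f := ind (F ∪ G) g k (pyr b K1 K2) with hf
  have mf : Measurable f := measurable_ind mΛ
  set I := (∫⋯∫⁻_TG, f ∂μ) with hI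
  have mI : Measurable I := Measurable.lmarginal μ mf
  have st1 : hm (F ∪ G) g k (pyr b K1 K2) = (∫⋯∫⁻_F, I ∂μ) 0 := by
    rw [hm_lmarg mΛ 0, hS, lmarginal_union μ f mf hdisj]
  -- shear
  set I' : (α → ℝ) → ℝ≥0∞ := fun x => I (update x e (x e - ∑ j ∈ TF, x j)) with hI'
  have mI' : Measurable I' := by
    have mupd : Measurable (fun x : α → ℝ => update x e (x e - ∑ j ∈ TF, x j)) :=
      measurable_update'.comp (measurable_id.prodMk ((measurable_pi_apply e).sub
        (Finset.measurable_sum _ fun j _ => measurable_pi_apply j)))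
    exact mI.comp mupd
  have st2 : (∫⋯∫⁻_F, I ∂μ) 0 = (∫⋯∫⁻_F, I' ∂μ) 0 := by
    rw [hFins, lmarginal_insert' _ mI heTF, lmarginal_insert' _ mI' heTF]
    congr 1
    funext x
    have h3 : ∀ t : ℝ, I' (update x e t) = I (update x e (t - ∑ j ∈ TF, x j)) := by
      intro t
      simp only [hI']
      have : ∑ j ∈ TF, update x e t j = ∑ j ∈ TF, x j :=
        sum_congr rfl fun j hj => update_of_ne (ne_of_mem_of_not_mem hj heTF) _ _
      rw [this, update_self, update_idem]
    simp_rw [h3]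
    exact (lintegral_sub_right_eq_self (fun t => I (update x e t)) _).symm
  have st3 : (∫⋯∫⁻_F, I' ∂μ) 0 = ∫⁻ h, (∫⋯∫⁻_TF, I' ∂μ) (update 0 e h) := by
    conv_lhs => rw [hFins]
    rw [lmarginal_insert _ mI' heTF]
  -- common facts
  have hz1 : ∀ (z : α → ℝ) (y : ↥TG → ℝ), ∀ i ∈ F,
      tr (F ∪ G) g k (updateFinset z TG y) i = z i := by
    intro z y i hi
    have i1 : i ≠ g := ne_of_mem_of_not_mem hi hgF
    have i2 : i ∉ TG := disjoint_left.1 hdisj hi
    simp only [tr, if_neg i1, if_pos (mem_union_left G hi), updateFinset, dif_neg i2]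
  have hz2 : ∀ (z : α → ℝ) (y : ↥TG → ℝ), ∀ i ∉ F ∪ G,
      tr (F ∪ G) g k (updateFinset z TG y) i = 0 := by
    intro z y i hi
    have i1 : i ≠ g := fun h => hi (h ▸ mem_union_right F hg)
    simp only [tr, if_neg i1, if_neg hi]
  have inner0 : ∀ z : α → ℝ, (∑ i ∈ F, z i < h0 ∨ c1 < ∑ i ∈ F, z i) → I z = 0 := by
    intro z hz
    simp only [hI, lmarginal]
    rw [lintegral_eq_zero_of_ae_eq_zero]
    apply Filter.Eventually.of_forall
    intro y
    simp only [hf, ind, Pi.zero_apply]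
    apply Set.indicator_of_notMem
    rintro ⟨s, hs, x, hx, y', hy', heq⟩
    have e1 := pyr_sum (b := b) (s := s) hFG h1 h2 hx hy'
    rw [← heq, sum_congr rfl (hz1 z y), ← hh0] at e1
    rcases hz with hz | hz
    · have : 0 ≤ s * (c1 - h0) := mul_nonneg hs.1 (by linarith)
      linarith
    · have : 0 ≤ (1 - s) * (c1 - h0) := mul_nonneg (by linarith [hs.2]) (by linarith)
      linarith
  have hsG : ∑ i ∈ G, rs G b i = k - h0 := by rw [sum_rs]; linarith
  have hsF : ∑ i ∈ F, rs F b i = h0 := by rw [sum_rs]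
  have inner1 : ∀ (z : α → ℝ) (h s : ℝ), 0 < s → s ≤ 1 → h = (1 - s) * h0 + s * c1 →
      ∑ i ∈ F, z i = h → I z = (iv (rs F b) s ⁻¹' K1).indicator (fun _ => 1) (rs F z) *
        (ENNReal.ofReal (s ^ (G.card - 1)) * hm G g c2 K2) := by
    intro z h s hs0 hs1 hh hz
    have hkh : k - h = (1 - s) * (∑ i ∈ G, rs G b i) + s * c2 := by
      rw [hsG, hh, hk]; ring
    have e1 : hm G g (k - h) (iv (rs G b) s ⁻¹' K2) =
        ENNReal.ofReal (s ^ (G.card - 1)) * hm G g c2 K2 := by
      rw [hkh]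
      exact hm_iv hg hs0 (fun i hi => by simp [rs, hi]) mK2
    rw [← e1, hm_lmarg (measurable_iv _ _ mK2) z]
    simp only [hI, lmarginal]
    have mm : Measurable (fun y : ↥(G.erase g) → ℝ =>
        ind G g (k - h) (iv (rs G b) s ⁻¹' K2) (updateFinset z (G.erase g) y)) :=
      (measurable_ind (measurable_iv _ _ mK2)).comp measurable_updateFinset
    rw [← lintegral_const_mul _ mm]
    apply lintegral_congr
    intro y
    set w := updateFinset z TG y with hw
    have k1 : rs F (tr (F ∪ G) g k w) = rs F z := by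
      funext i
      simp only [rs]
      by_cases hi : i ∈ F
      · rw [if_pos hi, if_pos hi]; exact hz1 z y i hi
      · rw [if_neg hi, if_neg hi]
    have k2 : rs G (tr (F ∪ G) g k w) = tr G g (k - h) w := by
      funext i
      simp only [rs]
      by_cases hi : i ∈ G
      · rw [if_pos hi]
        simp only [tr]
        by_cases hig : i = g
        · rw [if_pos hig, if_pos hig, hS, sum_union hdisj]
          have : ∑ j ∈ F, w j = h := by
            rw [← hz]
            apply sum_congr rfl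
            intro j hj
            have i2 : j ∉ TG := disjoint_left.1 hdisj hj
            simp only [hw, updateFinset, dif_neg i2]
          rw [this]; ring
        · rw [if_neg hig, if_neg hig, if_pos (mem_union_right F hi), if_pos hi]
      · rw [if_neg hi]
        have hig : i ≠ g := fun h => hi (h ▸ hg)
        simp only [tr, if_neg hig, if_neg hi]
    have k3 : ∑ i ∈ F, tr (F ∪ G) g k w i = (1 - s) * (∑ i ∈ F, b i) + s * c1 := by
      rw [sum_congr rfl (hz1 z y), hz, hh]
    have k4 := mem_pyr_iff (b := b) hFG hb hlt.ne h1 h2 (hz2 z y) hs0 hs1 k3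
    rw [← hw, k1, k2] at k4
    simp only [hf, ind]
    by_cases a1 : iv (rs F b) s (rs F z) ∈ K1
    · have a1' : rs F z ∈ iv (rs F b) s ⁻¹' K1 := a1
      rw [Set.indicator_of_mem a1', one_mul]
      by_cases a2 : iv (rs G b) s (tr G g (k - h) w) ∈ K2
      · have a2' : tr G g (k - h) w ∈ iv (rs G b) s ⁻¹' K2 := a2
        rw [Set.indicator_of_mem (k4.2 ⟨a1, a2⟩), Set.indicator_of_mem a2']
      · have a2' : tr G g (k - h) w ∉ iv (rs G b) s ⁻¹' K2 := a2
        rw [Set.indicator_of_notMem (fun h => a2 (k4.1 h).2), Set.indicator_of_notMem a2']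
    · have a1' : rs F z ∉ iv (rs F b) s ⁻¹' K1 := a1
      rw [Set.indicator_of_notMem a1', zero_mul,
        Set.indicator_of_notMem (fun h => a1 (k4.1 h).1)]
  -- the slice
  have hsum_z : ∀ (h : ℝ) (y : ↥TF → ℝ), ∑ i ∈ F, update (updateFinset (update (0 : α → ℝ) e h) TF y) e
      ((updateFinset (update (0 : α → ℝ) e h) TF y) e -
        ∑ j ∈ TF, (updateFinset (update (0 : α → ℝ) e h) TF y) j) i = h := by
    intro h y
    set w := updateFinset (update (0 : α → ℝ) e h) TF y with hw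
    have hwe : w e = h := by
      simp only [hw, updateFinset, dif_neg heTF, update_self]
    rw [hFins, sum_insert heTF, update_self, hwe]
    have : ∑ j ∈ TF, update w e (h - ∑ j ∈ TF, w j) j = ∑ j ∈ TF, w j :=
      sum_congr rfl fun j hj => update_of_ne (ne_of_mem_of_not_mem hj heTF) _ _
    rw [this]; ring
  have slice0 : ∀ h : ℝ, (h < h0 ∨ c1 < h) → (∫⋯∫⁻_TF, I' ∂μ) (update 0 e h) = 0 := by
    intro h hh
    simp only [lmarginal]
    rw [lintegral_eq_zero_of_ae_eq_zero]
    apply Filter.Eventually.of_forall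
    intro y
    simp only [hI', Pi.zero_apply]
    apply inner0
    rw [hsum_z]; exact hh
  have slice1 : ∀ (h s : ℝ), 0 < s → s ≤ 1 → h = (1 - s) * h0 + s * c1 →
      (∫⋯∫⁻_TF, I' ∂μ) (update 0 e h) =
        ENNReal.ofReal (s ^ (F.card - 1 + (G.card - 1))) * (hm F e c1 K1 * hm G g c2 K2) := by
    intro h s hs0 hs1 hh
    have e1 : hm F e h (iv (rs F b) s ⁻¹' K1) =
        ENNReal.ofReal (s ^ (F.card - 1)) * hm F e c1 K1 := by
      have := hm_iv he (c := c1) hs0 (b := rs F b) (fun i hi => by simp [rs, hi]) mK1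
      rw [hsF, ← hh] at this
      exact this
    have e2 : (∫⋯∫⁻_TF, I' ∂μ) (update 0 e h) = hm F e h (iv (rs F b) s ⁻¹' K1) *
        (ENNReal.ofReal (s ^ (G.card - 1)) * hm G g c2 K2) := by
      rw [hm_lmarg (measurable_iv _ _ mK1) (update 0 e h)]
      simp only [lmarginal]
      have mm : Measurable (fun y : ↥(F.erase e) → ℝ =>
          ind F e h (iv (rs F b) s ⁻¹' K1) (updateFinset (update 0 e h) (F.erase e) y)) :=
        (measurable_ind (measurable_iv _ _ mK1)).comp measurable_updateFinset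
      rw [← lintegral_mul_const _ mm]
      apply lintegral_congr
      intro y
      simp only [hI']
      rw [inner1 _ h s hs0 hs1 hh (hsum_z h y)]
      congr 1
      unfold ind
      congr 1
      funext i
      set w := updateFinset (update (0 : α → ℝ) e h) TF y with hw
      have hwe : w e = h := by
        simp only [hw, updateFinset, dif_neg heTF, update_self]
      simp only [rs, tr]
      by_cases hie : i = e
      · subst hie
        rw [if_pos he, if_pos rfl, update_self, hwe]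
      · rw [if_neg hie]
        by_cases hi : i ∈ F
        · rw [if_pos hi, if_pos hi, update_of_ne hie]
        · rw [if_neg hi, if_neg hi]
    rw [e2, e1, pow_add, ENNReal.ofReal_mul (pow_nonneg hs0.le _)]
    ring
  rw [st1, st2, st3]
  set m := F.card - 1 + (G.card - 1) with hm'
  set v := hm F e c1 K1 * hm G g c2 K2 with hv
  have hd : 0 < c1 - h0 := by linarith
  have st4 : ∫⁻ h, (∫⋯∫⁻_TF, I' ∂μ) (update 0 e h) =
      ∫⁻ h, (Set.Ioc h0 c1).indicator (fun h => ENNReal.ofReal (((h - h0) / (c1 - h0)) ^ m) * v) h := by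
    apply lintegral_congr_ae
    have hne : ∀ᵐ h : ℝ, h ≠ h0 := by
      rw [ae_iff]; simp
    filter_upwards [hne] with h hh
    by_cases hmem : h ∈ Set.Ioc h0 c1
    · rw [Set.indicator_of_mem hmem]
      apply slice1 h ((h - h0) / (c1 - h0))
      · exact div_pos (by linarith [hmem.1]) hd
      · rw [div_le_one hd]; linarith [hmem.2]
      · field_simp; ring
    · rw [Set.indicator_of_notMem hmem]
      apply slice0
      rw [Set.mem_Ioc, not_and_or, not_lt, not_le] at hmem
      rcases hmem with h3 | h3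
      · exact Or.inl (lt_of_le_of_ne h3 hh)
      · exact Or.inr h3
  rw [st4, lintegral_indicator measurableSet_Ioc, lintegral_mul_const, lint_pow hlt]
  apply Measurable.ennreal_ofReal
  exact ((measurable_id.sub_const _).div_const _).pow_const m

end

end Pool.Agent.H146.BV
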