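import Pool.Agent.H146.BV.Poly

/-!
# The pyramid inequality
-/

namespace Pool.Agent.H146.BV

open MeasureTheory Finset Function
open scoped ENNReal Nat Pointwise

variable {α : Type} [DecidableEq α] {S : Finset α} {ρ : Finset α → ℕ}

theorem Lam_null (h : IsRk S ρ) {B F F' : Finset α} (hB : IsBas S ρ B) (hF : F ⊆ S)
    (hF' : F' ⊆ S) (hFS : F ≠ S) (hFS' : F' ≠ S) (hne : F ≠ F') (hlt : (F ∩ B).card < ρ F)
    (hlt' : (F' ∩ B).card < ρ F') {e : α} (he : e ∈ S) :
    hm S e (ρ S) (Lam S ρ B F ∩ Lam S ρ B F') = 0 := by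
  set d : ℝ := (ρ F : ℝ) - (F ∩ B).card with hd
  set d' : ℝ := (ρ F' : ℝ) - (F' ∩ B).card with hd'
  have hdp : 0 < d := by
    have : ((F ∩ B).card : ℝ) < ρ F := by exact_mod_cast hlt
    linarith
  have hdp' : 0 < d' := by
    have : ((F' ∩ B).card : ℝ) < ρ F' := by exact_mod_cast hlt'
    linarith
  set a : α → ℝ := fun l => d' * ev F l - d * ev F' l with ha
  set c' : ℝ := d' * (F ∩ B).card - d * (F' ∩ B).card with hc'
  -- the containment
  have hsub : Lam S ρ B F ∩ Lam S ρ B F' ⊆ {z | ∑ l ∈ S, a l * z l = c'} := by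
    rintro z ⟨⟨s, hs, x, hx, y, hy, hz⟩, ⟨s', hs', x', hx', y', hy', hz'⟩⟩
    rw [Set.mem_ofPred_eq]
    have hp := PP_facts h (add_mem_PP h hF hx hy)
    have hp' := PP_facts h (add_mem_PP h hF' hx' hy')
    have e1 : ∑ i ∈ F, z i = (1 - s) * (F ∩ B).card + s * ρ F := by
      rw [hz, pyr_sum (F := F) (G := S \ F) (K1 := PP F ρ) (K2 := PP (S \ F) (con ρ F))
        disjoint_sdiff (fun x hx => ⟨(PP_facts (h.sub hF) hx).1, (PP_facts (h.sub hF) hx).2.1⟩)
        (fun x hx => ⟨(PP_facts (h.con hF) hx).1, (PP_facts (h.con hF) hx).2.1⟩) hx hy, sum_ev]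
    have e2 : ∑ i ∈ F', z i = (1 - s') * (F' ∩ B).card + s' * ρ F' := by
      rw [hz', pyr_sum (F := F') (G := S \ F') (K1 := PP F' ρ) (K2 := PP (S \ F') (con ρ F'))
        disjoint_sdiff (fun x hx => ⟨(PP_facts (h.sub hF') hx).1, (PP_facts (h.sub hF') hx).2.1⟩)
        (fun x hx => ⟨(PP_facts (h.con hF') hx).1, (PP_facts (h.con hF') hx).2.1⟩) hx' hy', sum_ev]
    have gen : ∀ (A : Finset α) (t : ℝ) (p : α → ℝ), ∑ i ∈ A, ((1 - t) • ev B + t • p) i =
        (1 - t) * (A ∩ B).card + t * ∑ i ∈ A, p i := by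
      intro A t p
      simp only [Pi.add_apply, Pi.smul_apply, smul_eq_mul]
      rw [sum_add_distrib, ← mul_sum, ← mul_sum, sum_ev]
    have e3 : ∑ i ∈ F', z i ≤ (1 - s) * (F' ∩ B).card + s * ρ F' := by
      rw [hz, gen]
      have := mul_le_mul_of_nonneg_left (hp.2.2.2 F' hF') hs.1
      linarith
    have e4 : ∑ i ∈ F, z i ≤ (1 - s') * (F ∩ B).card + s' * ρ F := by
      rw [hz', gen]
      have := mul_le_mul_of_nonneg_left (hp'.2.2.2 F hF) hs'.1
      linarith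
    have h1 : s' ≤ s := by
      rw [e2] at e3
      have : (s - s') * d' ≥ 0 := by rw [hd']; linarith
      by_contra hcon
      push Not at hcon
      have : (s - s') * d' < 0 := mul_neg_of_neg_of_pos (by linarith) hdp'
      linarith
    have h2 : s ≤ s' := by
      rw [e1] at e4
      have : (s' - s) * d ≥ 0 := by rw [hd]; linarith
      by_contra hcon
      push Not at hcon
      have : (s' - s) * d < 0 := mul_neg_of_neg_of_pos (by linarith) hdp
      linarith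
    have hss : s = s' := le_antisymm h2 h1
    have hrest : ∀ A ⊆ S, ∑ l ∈ S, ev A l * z l = ∑ l ∈ A, z l := by
      intro A hA
      unfold ev
      simp only [ite_mul, one_mul, zero_mul]
      rw [sum_ite_mem, inter_eq_right.2 hA]
    have hsplit : ∑ l ∈ S, a l * z l = d' * ∑ l ∈ F, z l - d * ∑ l ∈ F', z l := by
      rw [← hrest F hF, ← hrest F' hF', mul_sum, mul_sum, ← sum_sub_distrib]
      apply sum_congr rfl
      intro l _
      simp only [ha]; ring
    rw [hsplit, e1, e2, hc', ← hss, hd, hd']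
    ring
  -- nontrivial
  have hnt : ∃ i ∈ S, ∃ j ∈ S, a i ≠ a j := by
    by_cases hout : ∃ l ∈ S, l ∉ F ∧ l ∉ F'
    · obtain ⟨l, hl, l1, l2⟩ := hout
      have al : a l = 0 := by simp [ha, ev, l1, l2]
      by_cases hFF : F ⊆ F'
      · obtain ⟨i, hi, hi2⟩ : ∃ i ∈ F', i ∉ F := by
          by_contra hcon
          push Not at hcon
          exact hne (subset_antisymm hFF hcon)
        refine ⟨i, hF' hi, l, hl, ?_⟩
        rw [al]
        simp [ha, ev, hi, hi2, hdp.ne']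
      · rw [not_subset] at hFF
        obtain ⟨i, hi, hi2⟩ := hFF
        refine ⟨i, hF hi, l, hl, ?_⟩
        rw [al]
        simp [ha, ev, hi, hi2, hdp'.ne']
    · push Not at hout
      obtain ⟨i, hi, hi2⟩ : ∃ i ∈ S, i ∉ F := by
        by_contra hcon
        push Not at hcon
        exact hFS (subset_antisymm hF hcon)
      obtain ⟨j, hj, hj2⟩ : ∃ j ∈ S, j ∉ F' := by
        by_contra hcon
        push Not at hcon
        exact hFS' (subset_antisymm hF' hcon)
      have hi3 := hout i hi hi2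
      have hj3 : j ∈ F := by
        by_contra hcon
        exact hj2 (hout j hj hcon)
      refine ⟨i, hi, j, hj, ?_⟩
      have ai : a i = -d := by simp [ha, ev, hi2, hi3]
      have aj : a j = d' := by simp [ha, ev, hj2, hj3]
      rw [ai, aj]
      linarith
  obtain ⟨i, hi, j, hj, hij⟩ := hnt
  exact measure_mono_null hsub (hm_null he hi hj hij c')

/-- **Pyramid inequality.** -/
theorem pyr_ineq [Fintype α] (h : IsRk S ρ) (hS : S.Nonempty) {B : Finset α} (hB : IsBas S ρ B)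
    (𝓕 : Finset (Finset α)) (h𝓕 : ∀ F ∈ 𝓕, F ⊆ S ∧ F.Nonempty ∧ F ≠ S) :
    ∑ F ∈ 𝓕, ((ρ F : ℝ) - (F ∩ B).card) * ((S.card - 2).choose (F.card - 1)) *
        (Vol F ρ * Vol (S \ F) (con ρ F)) ≤ Vol S ρ := by
  obtain ⟨e, he⟩ := hS
  set 𝓟 := 𝓕.filter (fun F => (F ∩ B).card < ρ F) with h𝓟
  have hz : ∑ F ∈ 𝓕, ((ρ F : ℝ) - (F ∩ B).card) * ((S.card - 2).choose (F.card - 1)) *
        (Vol F ρ * Vol (S \ F) (con ρ F)) =
      ∑ F ∈ 𝓟, ((ρ F : ℝ) - (F ∩ B).card) * ((S.card - 2).choose (F.card - 1)) *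
        (Vol F ρ * Vol (S \ F) (con ρ F)) := by
    rw [h𝓟, sum_filter]
    apply sum_congr rfl
    intro F hF
    split_ifs with h1
    · rfl
    · have h2 := hB.inter_le h (h𝓕 F hF).1
      have h3 : (F ∩ B).card = ρ F := by omega
      rw [h3]; ring
  rw [hz, Vol_eq he]
  have hfin : hm S e (ρ S) (PP S ρ) < ⊤ :=
    hm_lt_top isCompact_PP.measurableSet fun z hz => (PP_facts h hz).2.2.1
  have h1 : ∑ F ∈ 𝓟, ((ρ F : ℝ) - (F ∩ B).card) * ((S.card - 2).choose (F.card - 1)) *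
        (Vol F ρ * Vol (S \ F) (con ρ F)) =
      ((S.card - 1)! : ℝ) * ∑ F ∈ 𝓟, (hm S e (ρ S) (Lam S ρ B F)).toReal := by
    rw [mul_sum]
    apply sum_congr rfl
    intro F hF
    rw [h𝓟, mem_filter] at hF
    obtain ⟨a1, a2, a3⟩ := h𝓕 F hF.1
    exact (vol_Lam h hB a1 a2 a3 hF.2 he).symm
  rw [h1]
  apply mul_le_mul_of_nonneg_left _ (by positivity)
  have h2 : hm S e (ρ S) (⋃ F ∈ 𝓟, Lam S ρ B F) = ∑ F ∈ 𝓟, hm S e (ρ S) (Lam S ρ B F) := by
    apply measure_biUnion_finset₀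
    · intro F hF F' hF' hne
      rw [mem_coe, h𝓟, mem_filter] at hF hF'
      obtain ⟨a1, a2, a3⟩ := h𝓕 F hF.1
      obtain ⟨b1, b2, b3⟩ := h𝓕 F' hF'.1
      exact Lam_null h hB a1 b1 a3 b3 hne hF.2 hF'.2 he
    · intro F _
      exact isCompact_Lam.measurableSet.nullMeasurableSet
  have h3 : (⋃ F ∈ 𝓟, Lam S ρ B F) ⊆ PP S ρ := by
    apply Set.iUnion₂_subset
    intro F hF
    rw [h𝓟, mem_filter] at hF
    exact Lam_subset h hB (h𝓕 F hF.1).1
  have h4 := measure_mono (μ := hm S e (ρ S)) h3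
  rw [h2] at h4
  rw [← ENNReal.toReal_sum]
  · exact ENNReal.toReal_mono hfin.ne h4
  · intro F hF
    rw [h𝓟, mem_filter] at hF
    exact ((measure_mono (Lam_subset h hB (h𝓕 F hF.1).1)).trans_lt hfin).ne

end Pool.Agent.H146.BV
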