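import Mathlib

/-!
# Rank functions on finite sets and the beta invariant
-/

namespace Pool.Agent.H146.BV

open Finset

variable {α : Type} [DecidableEq α]

/-- `ρ` is (the restriction to subsets of `S` of) a matroid rank function on `S`. -/
structure IsRk (S : Finset α) (ρ : Finset α → ℕ) : Prop where
  zero : ρ ∅ = 0
  mono1 : ∀ A ⊆ S, ∀ e ∈ S, ρ A ≤ ρ (insert e A)
  unit : ∀ A ⊆ S, ∀ e ∈ S, ρ (insert e A) ≤ ρ A + 1
  submod : ∀ A ⊆ S, ∀ B ⊆ S, ρ (A ∪ B) + ρ (A ∩ B) ≤ ρ A + ρ B

/-- Rank function of the contraction by `F`. -/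
def con (ρ : Finset α → ℕ) (F : Finset α) : Finset α → ℕ := fun A => ρ (A ∪ F) - ρ F

/-- Connectivity. -/
def Conn (S : Finset α) (ρ : Finset α → ℕ) : Prop :=
  ∀ A ⊆ S, A.Nonempty → A ≠ S → ρ S < ρ A + ρ (S \ A)

/-- The alternating sum of ranks. -/
def altSum (S : Finset α) (ρ : Finset α → ℕ) : ℤ := ∑ A ∈ S.powerset, (-1) ^ A.card * (ρ A : ℤ)

/-- The beta invariant. -/
def beta (S : Finset α) (ρ : Finset α → ℕ) : ℤ := (-1) ^ (ρ S) * altSum S ρ

variable {S : Finset α} {ρ : Finset α → ℕ}

theorem IsRk.mono (h : IsRk S ρ) {A B : Finset α} (hAB : A ⊆ B) (hB : B ⊆ S) : ρ A ≤ ρ B := by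
  induction B using Finset.induction_on generalizing A with
  | empty => rw [subset_empty.1 hAB]
  | insert x B hx ih =>
    have hxS : x ∈ S := hB (mem_insert_self _ _)
    have hBS : B ⊆ S := (subset_insert _ _).trans hB
    by_cases hxA : x ∈ A
    · have h1 : A.erase x ⊆ B := by
        intro t ht
        rw [mem_erase] at ht
        rcases mem_insert.1 (hAB ht.2) with h | h
        · exact absurd h ht.1
        · exact h
      -- use submodularity: ρ (A) + ρ (B) ≥ ρ (A ∪ B) + ...; simpler: induct with insert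
      have hA : insert x (A.erase x) = A := insert_erase hxA
      have h2 : A ⊆ insert x B := hAB
      -- chain from A to insert x B by inserting the elements of B
      have key : ∀ C : Finset α, C ⊆ B → ρ A ≤ ρ (A ∪ C) := by
        intro C
        induction C using Finset.induction_on with
        | empty => intro _; rw [union_empty]
        | insert y C hy ih2 =>
          intro hC
          have h3 := ih2 ((subset_insert _ _).trans hC)
          have h4 : A ∪ insert y C = insert y (A ∪ C) := by rw [union_insert]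
          rw [h4]
          refine h3.trans (h.mono1 _ ?_ y (hBS (hC (mem_insert_self _ _))))
          exact union_subset (hAB.trans hB) (((subset_insert _ _).trans hC).trans hBS)
      have h5 := key B subset_rfl
      have h6 : A ∪ B = insert x B := by
        ext t; simp only [mem_union, mem_insert]
        constructor
        · rintro (h | h)
          · exact mem_insert.1 (hAB h)
          · exact Or.inr h
        · rintro (h | h)
          · exact Or.inl (h ▸ hxA)
          · exact Or.inr h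
      rwa [h6] at h5
    · have h1 : A ⊆ B := by
        intro t ht
        rcases mem_insert.1 (hAB ht) with h | h
        · exact absurd (h ▸ ht) hxA
        · exact h
      exact (ih h1 hBS).trans (h.mono1 B hBS x hxS)

theorem IsRk.sub (h : IsRk S ρ) {T : Finset α} (hT : T ⊆ S) : IsRk T ρ where
  zero := h.zero
  mono1 := fun A hA e he => h.mono1 A (hA.trans hT) e (hT he)
  unit := fun A hA e he => h.unit A (hA.trans hT) e (hT he)
  submod := fun A hA B hB => h.submod A (hA.trans hT) B (hB.trans hT)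

theorem IsRk.con (h : IsRk S ρ) {F : Finset α} (hF : F ⊆ S) : IsRk (S \ F) (con ρ F) where
  zero := by simp [BV.con]
  mono1 := fun A hA e he => by
    have h1 : A ∪ F ⊆ S := union_subset (hA.trans sdiff_subset) hF
    have h2 := h.mono1 (A ∪ F) h1 e (mem_sdiff.1 he).1
    simp only [BV.con, insert_union]
    omega
  unit := fun A hA e he => by
    have h1 : A ∪ F ⊆ S := union_subset (hA.trans sdiff_subset) hF
    have h2 := h.unit (A ∪ F) h1 e (mem_sdiff.1 he).1
    have h3 := h.mono (subset_union_right : F ⊆ A ∪ F) h1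
    simp only [BV.con, insert_union]
    omega
  submod := fun A hA B hB => by
    have h1 : A ∪ F ⊆ S := union_subset (hA.trans sdiff_subset) hF
    have h2 : B ∪ F ⊆ S := union_subset (hB.trans sdiff_subset) hF
    have h3 := h.submod _ h1 _ h2
    have e1 : A ∪ F ∪ (B ∪ F) = A ∪ B ∪ F := by
      ext t; simp only [mem_union]; tauto
    have e2 : (A ∪ F) ∩ (B ∪ F) = A ∩ B ∪ F := by
      ext t; simp only [mem_union, mem_inter]; tauto
    rw [e1, e2] at h3
    have h4 := h.mono (subset_union_right : F ⊆ A ∪ F) h1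
    have h5 := h.mono (subset_union_right : F ⊆ B ∪ F) h2
    have h6 : A ∩ B ∪ F ⊆ S := union_subset ((inter_subset_left.trans hA).trans sdiff_subset) hF
    have h7 := h.mono (subset_union_right : F ⊆ A ∩ B ∪ F) h6
    have h8 : A ∪ B ∪ F ⊆ S :=
      union_subset (union_subset (hA.trans sdiff_subset) (hB.trans sdiff_subset)) hF
    have h9 := h.mono (subset_union_right : F ⊆ A ∪ B ∪ F) h8
    simp only [BV.con]
    omega

theorem IsRk.le_card (h : IsRk S ρ) {A : Finset α} (hA : A ⊆ S) : ρ A ≤ A.card := by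
  induction A using Finset.induction_on with
  | empty => rw [h.zero]; exact Nat.zero_le _
  | insert x A hx ih =>
    have h1 := ih ((subset_insert _ _).trans hA)
    have h2 := h.unit A ((subset_insert _ _).trans hA) x (hA (mem_insert_self _ _))
    rw [card_insert_of_notMem hx]; omega

theorem IsRk.union_le (h : IsRk S ρ) {A B : Finset α} (hA : A ⊆ S) (hB : B ⊆ S) :
    ρ (A ∪ B) ≤ ρ A + ρ B := by
  have := h.submod A hA B hB; omega

/-- rank can grow by at most the number of added elements -/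
theorem IsRk.union_le_card (h : IsRk S ρ) {A B : Finset α} (hA : A ⊆ S) (hB : B ⊆ S) :
    ρ (A ∪ B) ≤ ρ A + B.card := (h.union_le hA hB).trans (by have := h.le_card hB; omega)

/-- the contraction of an empty set -/
theorem con_con (h : IsRk S ρ) {F G : Finset α} (hF : F ⊆ S) (hG : G ⊆ S) {A : Finset α}
    (hA : A ⊆ S) : con (con ρ F) G A = con ρ (G ∪ F) A := by
  simp only [con]
  have h1 := h.mono (subset_union_right : F ⊆ G ∪ F) (union_subset hG hF)
  have h2 := h.mono (A := G ∪ F) (B := A ∪ G ∪ F) (by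
    intro t; simp only [mem_union]; tauto) (union_subset (union_subset hA hG) hF)
  have e : A ∪ (G ∪ F) = A ∪ G ∪ F := by rw [union_assoc]
  rw [e]; omega

/-! ### alternating sums -/

theorem altSum_congr {ρ σ : Finset α → ℕ} (h : ∀ A ⊆ S, ρ A = σ A) : altSum S ρ = altSum S σ := by
  unfold altSum
  apply sum_congr rfl
  intro A hA
  rw [h A (mem_powerset.1 hA)]

theorem beta_congr {ρ σ : Finset α → ℕ} (h : ∀ A ⊆ S, ρ A = σ A) : beta S ρ = beta S σ := by
  unfold beta
  rw [altSum_congr h, h S subset_rfl]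

theorem sum_powerset_erase {S : Finset α} {e : α} (he : e ∈ S) (g : Finset α → ℤ) :
    ∑ A ∈ S.powerset, g A = ∑ A ∈ (S.erase e).powerset, (g A + g (insert e A)) := by
  conv_lhs => rw [← insert_erase he]
  rw [sum_powerset_insert (by simp), sum_add_distrib]

theorem alt_card_zero {S : Finset α} (hS : S.Nonempty) :
    ∑ A ∈ S.powerset, (-1 : ℤ) ^ A.card = 0 := by
  obtain ⟨e, he⟩ := hS
  rw [sum_powerset_erase he]
  apply sum_eq_zero
  intro A hA
  have : e ∉ A := fun h => by
    have := (mem_powerset.1 hA) h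
    simp at this
  rw [card_insert_of_notMem this, pow_succ]; ring

/-- deletion–contraction -/
theorem beta_del_con (h : IsRk S ρ) {e : α} (he : e ∈ S) (h1 : ρ {e} = 1)
    (h2 : ρ (S.erase e) = ρ S) (hS : 2 ≤ S.card) :
    beta S ρ = beta (S.erase e) ρ + beta (S.erase e) (con ρ {e}) := by
  have hpos : 1 ≤ ρ S := by
    rw [← h1]; exact h.mono (singleton_subset_iff.2 he) subset_rfl
  have hne : (S.erase e).Nonempty := by
    rw [← card_pos, card_erase_of_mem he]; omega
  have hcon : con ρ {e} (S.erase e) = ρ S - 1 := by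
    simp only [con, h1]
    rw [union_comm, ← insert_eq, insert_erase he]
  have hsum : altSum S ρ = altSum (S.erase e) ρ - altSum (S.erase e) (con ρ {e}) := by
    unfold altSum
    rw [sum_powerset_erase he, ← sum_sub_distrib]
    have h3 : ∀ A ∈ (S.erase e).powerset, (-1 : ℤ) ^ A.card * (ρ A : ℤ) +
        (-1) ^ (insert e A).card * (ρ (insert e A) : ℤ) =
        ((-1) ^ A.card * (ρ A : ℤ) - (-1) ^ A.card * (con ρ {e} A : ℤ)) - (-1) ^ A.card := by
      intro A hA
      have hA' := mem_powerset.1 hA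
      have heA : e ∉ A := fun h => by
        have := hA' h
        simp at this
      have h4 : 1 ≤ ρ (insert e A) := by
        rw [← h1]
        refine h.mono (singleton_subset_iff.2 (mem_insert_self _ _)) ?_
        exact insert_subset he (hA'.trans (erase_subset _ _))
      have h5 : con ρ {e} A = ρ (insert e A) - 1 := by
        simp only [con, h1]; rw [union_comm, ← insert_eq]
      rw [h5, card_insert_of_notMem heA, pow_succ, Nat.cast_sub h4]
      push_cast; ring
    rw [sum_congr rfl h3, sum_sub_distrib, alt_card_zero hne, sub_zero]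
  unfold beta
  rw [hsum, hcon, h2]
  obtain ⟨m, hm⟩ : ∃ m, ρ S = m + 1 := ⟨ρ S - 1, by omega⟩
  rw [hm, Nat.add_sub_cancel, pow_succ]; ring

/-- separators split the rank function -/
theorem split_rank (h : IsRk S ρ) {A : Finset α} (hA : A ⊆ S) (hsep : ρ A + ρ (S \ A) ≤ ρ S)
    {X : Finset α} (hX : X ⊆ S) : ρ X = ρ (X ∩ A) + ρ (X \ A) := by
  apply le_antisymm
  · have h1 := h.union_le (A := X ∩ A) (B := X \ A) (inter_subset_left.trans hX)
      (sdiff_subset.trans hX)
    have e : X ∩ A ∪ X \ A = X := by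
      ext t; simp only [mem_union, mem_inter, mem_sdiff]; tauto
    rwa [e] at h1
  · have h1 := h.submod A hA X hX
    have h2 := h.submod (S \ A) sdiff_subset (A ∪ X) (union_subset hA hX)
    have e1 : S \ A ∪ (A ∪ X) = S := by
      ext t; simp only [mem_union, mem_sdiff]
      constructor
      · rintro (h | h | h)
        · exact h.1
        · exact hA h
        · exact hX h
      · intro h
        by_cases ht : t ∈ A
        · exact Or.inr (Or.inl ht)
        · exact Or.inl ⟨h, ht⟩
    have e2 : (S \ A) ∩ (A ∪ X) = X \ A := by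
      ext t; simp only [mem_union, mem_sdiff, mem_inter]
      constructor
      · rintro ⟨⟨h1, h2⟩, h3 | h3⟩
        · exact absurd h3 h2
        · exact ⟨h3, h2⟩
      · rintro ⟨h1, h2⟩
        exact ⟨⟨hX h1, h2⟩, Or.inr h1⟩
    rw [e1, e2] at h2
    rw [inter_comm] at h1
    omega

theorem beta_eq_zero_of_not_conn (h : IsRk S ρ) (hc : ¬ Conn S ρ) : beta S ρ = 0 := by
  unfold Conn at hc
  push Not at hc
  obtain ⟨A, hA, hne, hneS, hsep⟩ := hc
  unfold beta
  have hS : altSum S ρ = 0 := by
    unfold altSum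
    have h1 : ∀ X ∈ S.powerset, (-1 : ℤ) ^ X.card * (ρ X : ℤ) =
        (-1) ^ X.card * (ρ (X ∩ A) : ℤ) + (-1) ^ X.card * (ρ (X \ A) : ℤ) := by
      intro X hX
      rw [split_rank h hA hsep (mem_powerset.1 hX)]; push_cast; ring
    rw [sum_congr rfl h1, sum_add_distrib]
    have h2 : ∑ X ∈ S.powerset, (-1 : ℤ) ^ X.card * (ρ (X ∩ A) : ℤ) = 0 := by
      obtain ⟨e, he, heA⟩ : ∃ e ∈ S, e ∉ A := by
        by_contra hcon
        push Not at hcon
        exact hneS (subset_antisymm hA hcon)
      rw [sum_powerset_erase he]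
      apply sum_eq_zero
      intro X hX
      have heX : e ∉ X := fun h => by
        have := (mem_powerset.1 hX) h
        simp at this
      rw [insert_inter_of_notMem heA, card_insert_of_notMem heX, pow_succ]; ring
    have h3 : ∑ X ∈ S.powerset, (-1 : ℤ) ^ X.card * (ρ (X \ A) : ℤ) = 0 := by
      obtain ⟨e, he⟩ := hne
      rw [sum_powerset_erase (hA he)]
      apply sum_eq_zero
      intro X hX
      have heX : e ∉ X := fun h => by
        have := (mem_powerset.1 hX) h
        simp at this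
      rw [insert_sdiff_of_mem _ he, card_insert_of_notMem heX, pow_succ]; ring
    rw [h2, h3, add_zero]
  rw [hS, mul_zero]

theorem Conn.elem (hc : Conn S ρ) (h : IsRk S ρ) (hS : 2 ≤ S.card) {e : α} (he : e ∈ S) :
    ρ {e} = 1 ∧ ρ (S.erase e) = ρ S := by
  have h1 := hc {e} (singleton_subset_iff.2 he) (singleton_nonempty e) (by
    intro h
    have := congrArg card h
    rw [card_singleton] at this; omega)
  have h2 := h.le_card (singleton_subset_iff.2 he)
  rw [card_singleton] at h2
  have h3 := h.mono (erase_subset e S) subset_rfl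
  rw [sdiff_singleton_eq_erase] at h1
  omega

theorem beta_singleton (e : α) (h0 : ρ ∅ = 0) (h1 : ρ {e} ≤ 1) : beta {e} ρ = ρ {e} := by
  unfold beta altSum
  rw [sum_powerset_erase (mem_singleton_self e)]
  simp only [erase_singleton, powerset_empty, sum_singleton, card_empty, pow_zero, one_mul, h0,
    Nat.cast_zero, zero_add, insert_empty_eq, card_singleton, pow_one]
  interval_cases h : ρ {e} <;> simp

theorem beta_nonneg : ∀ (m : ℕ) (S : Finset α) (ρ : Finset α → ℕ), S.card = m → IsRk S ρ →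
    0 ≤ beta S ρ := by
  intro m
  induction m using Nat.strong_induction_on with
  | _ m ih =>
    intro S ρ hm h
    by_cases h2 : 2 ≤ S.card
    · by_cases hc : Conn S ρ
      · obtain ⟨e, he⟩ : S.Nonempty := by rw [← card_pos]; omega
        obtain ⟨g1, g2⟩ := hc.elem h h2 he
        rw [beta_del_con h he g1 g2 h2]
        have c1 : (S.erase e).card = S.card - 1 := card_erase_of_mem he
        have a1 := ih _ (by omega) (S.erase e) ρ rfl (h.sub (erase_subset _ _))
        have a2 := ih _ (by omega) (S.erase e) (con ρ {e}) rfl (by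
          rw [← sdiff_singleton_eq_erase]; exact h.con (singleton_subset_iff.2 he))
        omega
      · rw [beta_eq_zero_of_not_conn h hc]
    · have : S.card = 0 ∨ S.card = 1 := by omega
      rcases this with h3 | h3
      · rw [card_eq_zero] at h3
        subst h3
        simp [beta, altSum, h.zero]
      · obtain ⟨e, rfl⟩ := card_eq_one.1 h3
        have h4 := h.le_card (subset_refl {e})
        rw [card_singleton] at h4
        rw [beta_singleton e h.zero h4]
        positivity

theorem IsRk.beta_nonneg (h : IsRk S ρ) : 0 ≤ beta S ρ := BV.beta_nonneg _ S ρ rfl h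

theorem IsRk.conE (h : IsRk S ρ) {e : α} (he : e ∈ S) : IsRk (S.erase e) (BV.con ρ {e}) := by
  rw [← sdiff_singleton_eq_erase]; exact h.con (singleton_subset_iff.2 he)

theorem IsRk.delE (h : IsRk S ρ) (e : α) : IsRk (S.erase e) ρ := h.sub (erase_subset _ _)

/-- Tutte's lemma. -/
theorem Conn.del_or_con (hc : Conn S ρ) (h : IsRk S ρ) (hS : 2 ≤ S.card) {e : α} (he : e ∈ S) :
    Conn (S.erase e) ρ ∨ Conn (S.erase e) (con ρ {e}) := by
  by_contra hcon
  push Not at hcon
  obtain ⟨hd, hk⟩ := hcon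
  unfold Conn at hd hk
  push Not at hd hk
  obtain ⟨A, hA, hAne, hAS, hA1⟩ := hd
  obtain ⟨C, hC, hCne, hCS, hC1⟩ := hk
  obtain ⟨g1, g2⟩ := hc.elem h hS he
  set B := S.erase e \ A with hB
  set D := S.erase e \ C with hD
  have heA : e ∉ A := fun h => by simpa using hA h
  have heC : e ∉ C := fun h => by simpa using hC h
  have hAsub : A ⊆ S := hA.trans (erase_subset _ _)
  have hCsub : C ⊆ S := hC.trans (erase_subset _ _)
  have hBsub : B ⊆ S := sdiff_subset.trans (erase_subset _ _)
  have hDsub : D ⊆ S := sdiff_subset.trans (erase_subset _ _)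
  have heB : e ∉ B := fun h => by simp [hB] at h
  have heD : e ∉ D := fun h => by simp [hD] at h
  have hBne : B.Nonempty := by
    rw [hB, sdiff_nonempty]; exact fun h => hAS (subset_antisymm hA h)
  have hDne : D.Nonempty := by
    rw [hD, sdiff_nonempty]; exact fun h => hCS (subset_antisymm hC h)
  have c1 : con ρ {e} (S.erase e) = ρ S - 1 := by
    simp only [con, g1]; rw [union_comm, ← insert_eq, insert_erase he]
  have c2 : con ρ {e} C = ρ (insert e C) - 1 := by
    simp only [con, g1]; rw [union_comm, ← insert_eq]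
  have c3 : con ρ {e} D = ρ (insert e D) - 1 := by
    simp only [con, g1]; rw [union_comm, ← insert_eq]
  rw [c1, c2, c3] at hC1
  have p1 : 1 ≤ ρ (insert e C) := by
    rw [← g1]; exact h.mono (singleton_subset_iff.2 (mem_insert_self _ _)) (insert_subset he hCsub)
  have p2 : 1 ≤ ρ (insert e D) := by
    rw [← g1]; exact h.mono (singleton_subset_iff.2 (mem_insert_self _ _)) (insert_subset he hDsub)
  have p3 : 1 ≤ ρ S := by
    rw [← g1]; exact h.mono (singleton_subset_iff.2 he) subset_rfl
  rw [g2] at hA1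
  -- memberships
  have hBmem : ∀ t, t ∈ B ↔ t ∈ S ∧ t ≠ e ∧ t ∉ A := fun t => by
    simp only [hB, mem_sdiff, mem_erase]; tauto
  have hDmem : ∀ t, t ∈ D ↔ t ∈ S ∧ t ≠ e ∧ t ∉ C := fun t => by
    simp only [hD, mem_sdiff, mem_erase]; tauto
  have key : ∀ P P' Q Q' : Finset α, P ⊆ S → Q ⊆ S → P' ⊆ S → Q' ⊆ S → e ∉ P → e ∉ P' →
      (∀ t, t ∈ P' ↔ t ∈ S ∧ t ≠ e ∧ t ∉ P) → (∀ t, t ∈ Q' ↔ t ∈ S ∧ t ≠ e ∧ t ∉ Q) →
      ρ P + ρ P' ≤ ρ S → ρ (insert e Q) + ρ (insert e Q') ≤ ρ S + 1 →
      (P ∩ Q).Nonempty → (P' ∩ Q').Nonempty → False := by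
    intro P P' Q Q' hP hQ hP' hQ' heP heP' hPP hQQ hs1 hs2 hn1 hn2
    have s1 := h.submod P hP (insert e Q) (insert_subset he hQ)
    have s2 := h.submod P' hP' (insert e Q') (insert_subset he hQ')
    have e1 : P ∩ insert e Q = P ∩ Q := by
      ext t; simp only [mem_inter, mem_insert]
      constructor
      · rintro ⟨a, b | b⟩
        · exact absurd (b ▸ a) heP
        · exact ⟨a, b⟩
      · rintro ⟨a, b⟩; exact ⟨a, Or.inr b⟩
    have e2 : P' ∩ insert e Q' = P' ∩ Q' := by
      ext t; simp only [mem_inter, mem_insert]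
      constructor
      · rintro ⟨a, b | b⟩
        · exact absurd (b ▸ a) heP'
        · exact ⟨a, b⟩
      · rintro ⟨a, b⟩; exact ⟨a, Or.inr b⟩
    have e3 : P' ∪ insert e Q' = S \ (P ∩ Q) := by
      ext t; rw [mem_union, mem_insert, mem_sdiff, mem_inter, hPP, hQQ]
      constructor
      · rintro (⟨h1, h2, h3⟩ | rfl | ⟨h1, h2, h3⟩)
        · exact ⟨h1, fun h => h3 h.1⟩
        · exact ⟨he, fun h => heP h.1⟩
        · exact ⟨h1, fun h => h3 h.2⟩
      · rintro ⟨h1, h2⟩
        by_cases hte : t = e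
        · exact Or.inr (Or.inl hte)
        · by_cases h3 : t ∈ P
          · exact Or.inr (Or.inr ⟨h1, hte, fun h => h2 ⟨h3, h⟩⟩)
          · exact Or.inl ⟨h1, hte, h3⟩
    have e4 : P ∪ insert e Q = S \ (P' ∩ Q') := by
      ext t; rw [mem_union, mem_insert, mem_sdiff, mem_inter, hPP, hQQ]
      constructor
      · rintro (h1 | rfl | h1)
        · exact ⟨hP h1, fun h => h.1.2.2 h1⟩
        · exact ⟨he, fun h => h.1.2.1 rfl⟩
        · exact ⟨hQ h1, fun h => h.2.2.2 h1⟩
      · rintro ⟨h1, h2⟩
        by_cases hte : t = e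
        · exact Or.inr (Or.inl hte)
        · by_cases h3 : t ∈ P
          · exact Or.inl h3
          · refine Or.inr (Or.inr ?_)
            by_contra h4
            exact h2 ⟨⟨h1, hte, h3⟩, ⟨h1, hte, h4⟩⟩
    rw [e1, e4] at s1
    rw [e2, e3] at s2
    have t1 := hc (P ∩ Q) (inter_subset_left.trans hP) hn1 (by
      intro heq; exact heP (mem_inter.1 (heq ▸ he : e ∈ P ∩ Q)).1)
    have t2 := hc (P' ∩ Q') (inter_subset_left.trans hP') hn2 (by
      intro heq; exact heP' (mem_inter.1 (heq ▸ he : e ∈ P' ∩ Q')).1)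
    omega
  -- memberships of A from B etc.
  have hAmem : ∀ t, t ∈ A ↔ t ∈ S ∧ t ≠ e ∧ t ∉ B := fun t => by
    rw [hBmem]
    constructor
    · intro ht
      exact ⟨hAsub ht, fun h => heA (h ▸ ht), fun h => h.2.2 ht⟩
    · rintro ⟨h1, h2, h3⟩
      by_contra h4
      exact h3 ⟨h1, h2, h4⟩
  have hCmem : ∀ t, t ∈ C ↔ t ∈ S ∧ t ≠ e ∧ t ∉ D := fun t => by
    rw [hDmem]
    constructor
    · intro ht
      exact ⟨hCsub ht, fun h => heC (h ▸ ht), fun h => h.2.2 ht⟩
    · rintro ⟨h1, h2, h3⟩
      by_contra h4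
      exact h3 ⟨h1, h2, h4⟩
  have k1 : ¬ ((A ∩ C).Nonempty ∧ (B ∩ D).Nonempty) := fun ⟨h1, h2⟩ =>
    key A B C D hAsub hCsub hBsub hDsub heA heB hBmem hDmem (by omega) (by omega) h1 h2
  have k2 : ¬ ((A ∩ D).Nonempty ∧ (B ∩ C).Nonempty) := fun ⟨h1, h2⟩ =>
    key A B D C hAsub hDsub hBsub hCsub heA heB hBmem hCmem (by omega) (by omega) h1 h2
  -- conclude
  obtain ⟨a, ha⟩ := hAne
  obtain ⟨b, hb⟩ := hBne
  obtain ⟨c, hc'⟩ := hCne
  obtain ⟨d, hd⟩ := hDne
  have nA : (A ∩ C).Nonempty ∨ (A ∩ D).Nonempty := by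
    by_cases h1 : a ∈ C
    · exact Or.inl ⟨a, mem_inter.2 ⟨ha, h1⟩⟩
    · exact Or.inr ⟨a, mem_inter.2 ⟨ha, (hDmem a).2 ⟨hAsub ha, fun h => heA (h ▸ ha), h1⟩⟩⟩
  have nB : (B ∩ C).Nonempty ∨ (B ∩ D).Nonempty := by
    by_cases h1 : b ∈ C
    · exact Or.inl ⟨b, mem_inter.2 ⟨hb, h1⟩⟩
    · exact Or.inr ⟨b, mem_inter.2 ⟨hb, (hDmem b).2 ⟨hBsub hb, fun h => heB (h ▸ hb), h1⟩⟩⟩
  have nC : (A ∩ C).Nonempty ∨ (B ∩ C).Nonempty := by
    by_cases h1 : c ∈ A
    · exact Or.inl ⟨c, mem_inter.2 ⟨h1, hc'⟩⟩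
    · exact Or.inr ⟨c, mem_inter.2 ⟨(hBmem c).2 ⟨hCsub hc', fun h => heC (h ▸ hc'), h1⟩, hc'⟩⟩
  have nD : (A ∩ D).Nonempty ∨ (B ∩ D).Nonempty := by
    by_cases h1 : d ∈ A
    · exact Or.inl ⟨d, mem_inter.2 ⟨h1, hd⟩⟩
    · exact Or.inr ⟨d, mem_inter.2 ⟨(hBmem d).2 ⟨hDsub hd, fun h => heD (h ▸ hd), h1⟩, hd⟩⟩
  rcases nA with x1 | x1
  · have y1 : ¬ (B ∩ D).Nonempty := fun h => k1 ⟨x1, h⟩
    rcases nB with x2 | x2
    · rcases nD with x3 | x3
      · exact k2 ⟨x3, x2⟩
      · exact y1 x3
    · exact y1 x2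
  · have y1 : ¬ (B ∩ C).Nonempty := fun h => k2 ⟨x1, h⟩
    rcases nB with x2 | x2
    · exact y1 x2
    · rcases nC with x3 | x3
      · exact k1 ⟨x3, x2⟩
      · exact y1 x3

theorem beta_pos : ∀ (m : ℕ) (S : Finset α) (ρ : Finset α → ℕ), S.card = m → 2 ≤ m → IsRk S ρ →
    Conn S ρ → 1 ≤ beta S ρ := by
  intro m
  induction m using Nat.strong_induction_on with
  | _ m ih =>
    intro S ρ hm hm2 h hc
    obtain ⟨e, he⟩ : S.Nonempty := by rw [← card_pos]; omega
    obtain ⟨g1, g2⟩ := hc.elem h (by omega) he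
    rw [beta_del_con h he g1 g2 (by omega)]
    have c1 : (S.erase e).card = S.card - 1 := card_erase_of_mem he
    have b1 := (h.delE e).beta_nonneg
    have b2 := (h.conE he).beta_nonneg
    by_cases hm3 : m = 2
    · -- the deletion is a single coloop
      have : (S.erase e).card = 1 := by omega
      obtain ⟨f, hf⟩ := card_eq_one.1 this
      have hfS : f ∈ S := by
        have : f ∈ S.erase e := by rw [hf]; exact mem_singleton_self f
        exact mem_of_mem_erase this
      have g3 := (hc.elem h (by omega) hfS).1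
      have : beta (S.erase e) ρ = 1 := by
        rw [hf, beta_singleton f h.zero (by omega), g3]; rfl
      omega
    · rcases hc.del_or_con h (by omega) he with h3 | h3
      · have := ih (m - 1) (by omega) (S.erase e) ρ (by omega) (by omega) (h.delE e) h3
        omega
      · have := ih (m - 1) (by omega) (S.erase e) (con ρ {e}) (by omega) (by omega) (h.conE he) h3
        omega

theorem Conn.beta_pos (hc : Conn S ρ) (h : IsRk S ρ) (hS : 2 ≤ S.card) : 1 ≤ beta S ρ :=
  BV.beta_pos _ S ρ rfl hS h hc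

end Pool.Agent.H146.BV
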