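import Pool.Agent.H146.BV.Conv

/-!
# The uniform matroid of rank two on four elements
-/

namespace Pool.Agent.H146.BV

open MeasureTheory Finset
open scoped ENNReal Nat Pointwise

variable {α : Type} [DecidableEq α] {S : Finset α} {ρ : Finset α → ℕ}

theorem U24_rank (h : IsRk S ρ) (hU : IsU24 S ρ) :
    (∀ x ∈ S, ρ {x} = 1) ∧ (∀ x ∈ S, ∀ y ∈ S, x ≠ y → ρ {x, y} = 2) ∧
      (∀ A ⊆ S, 2 ≤ A.card → ρ A = 2) := by
  obtain ⟨hn, hk, hbas⟩ := hU
  have hpair : ∀ x ∈ S, ∀ y ∈ S, x ≠ y → ρ {x, y} = 2 := by
    intro x hx y hy hxy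
    have hc := card_pair hxy
    have := ((hbas {x, y}).2 ⟨by
      intro t ht
      rw [mem_insert, mem_singleton] at ht
      rcases ht with rfl | rfl
      · exact hx
      · exact hy, hc⟩).2.1
    rw [this, hc]
  refine ⟨?_, hpair, ?_⟩
  · intro x hx
    obtain ⟨y, hy⟩ : (S.erase x).Nonempty := by
      rw [← card_pos, card_erase_of_mem hx]; omega
    have hyS := mem_of_mem_erase hy
    have hxy : x ≠ y := (ne_of_mem_erase hy).symm
    have hsub : ({x, y} : Finset α) ⊆ S := by
      intro t ht
      rw [mem_insert, mem_singleton] at ht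
      rcases ht with rfl | rfl
      · exact hx
      · exact hyS
    have := indep_sub h hsub (by rw [hpair x hx y hyS hxy, card_pair hxy])
      (show ({x} : Finset α) ⊆ {x, y} by simp)
    rwa [card_singleton] at this
  · intro A hA hA2
    obtain ⟨x, hx, y, hy, hxy⟩ := one_lt_card.1 (show 1 < A.card by omega)
    have hsub : ({x, y} : Finset α) ⊆ A := by
      intro t ht
      rw [mem_insert, mem_singleton] at ht
      rcases ht with rfl | rfl
      · exact hx
      · exact hy
    have h1 := h.mono hsub hA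
    have h2 := h.mono hA subset_rfl
    rw [hpair x (hA hx) y (hA hy) hxy] at h1
    omega

theorem U24_conC (h : IsRk S ρ) (hU : IsU24 S ρ) {c : α} (hc : c ∈ S) :
    con ρ {c} (S.erase c) = 1 ∧ ∀ x ∈ S.erase c, con ρ {c} {x} = 1 := by
  obtain ⟨r1, r2, r3⟩ := U24_rank h hU
  constructor
  · simp only [con]
    rw [union_comm, ← insert_eq, insert_erase hc, hU.2.1, r1 c hc]
  · intro x hx
    simp only [con]
    rw [← insert_eq, r2 x (mem_of_mem_erase hx) c hc (ne_of_mem_erase hx), r1 c hc]

theorem U24_delB (h : IsRk S ρ) (hU : IsU24 S ρ) {b : α} (hb : b ∈ S) :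
    ρ (S.erase b) = 2 ∧ ∀ x ∈ S.erase b, ρ ((S.erase b).erase x) = 2 := by
  obtain ⟨r1, r2, r3⟩ := U24_rank h hU
  have hn := hU.1
  constructor
  · exact r3 _ (erase_subset _ _) (by rw [card_erase_of_mem hb]; omega)
  · intro x hx
    exact r3 _ ((erase_subset _ _).trans (erase_subset _ _)) (by
      rw [card_erase_of_mem hx, card_erase_of_mem hb]; omega)

/-- the set attached to an element -/
def Fi (S B : Finset α) (i : α) : Finset α := if i ∈ B then S.erase i else {i}

theorem U24_cover (h : IsRk S ρ) (hU : IsU24 S ρ) {B : Finset α} (hB : IsBas S ρ B) :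
    PP S ρ ⊆ ⋃ i ∈ S, Lam S ρ B (Fi S B i) := by
  intro z hz
  obtain ⟨z1, z2, z3, z4⟩ := PP_facts h hz
  have hn := hU.1
  have hk := hU.2.1
  have hBc : B.card = 2 := by rw [hB.2.2, hk]
  obtain ⟨i0, hi0, hmax⟩ := exists_max_image S (fun i => if i ∈ B then 1 - z i else z i)
    (by rw [← card_pos]; omega)
  rw [Set.mem_iUnion₂]
  refine ⟨i0, hi0, ?_⟩
  have hsumB : ∑ i ∈ S, ev B i = 2 := by
    rw [sum_ev, inter_eq_right.2 hB.1, hBc]; norm_num
  have z2' : ∑ i ∈ S, z i = 2 := by rw [z2, hk]; norm_num
  by_cases hi0B : i0 ∈ B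
  · -- facet x_{i0} = 0
    have hF : Fi S B i0 = S.erase i0 := if_pos hi0B
    rw [hF]
    have hr := U24_delB h hU hi0
    have hS1 : S \ S.erase i0 = {i0} := by
      rw [← sdiff_singleton_eq_erase, Finset.sdiff_sdiff_eq_self (singleton_subset_iff.2 hi0)]
    set s := 1 - z i0 with hs
    have hmax' : ∀ i ∈ S, (if i ∈ B then 1 - z i else z i) ≤ s := by
      intro i hi
      have := hmax i hi
      rwa [if_pos hi0B] at this
    have hs0 : 0 ≤ s := by have := (z3 i0).2; linarith
    have hs1 : s ≤ 1 := by have := (z3 i0).1; linarith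
    unfold Lam pyr
    rw [Set.mem_ofPred_eq, hS1]
    have hIs1 : IsRk {i0} (con ρ (S.erase i0)) := by
      have := h.con (erase_subset i0 S)
      rwa [hS1] at this
    by_cases hs00 : s = 0
    · obtain ⟨x, hx⟩ := PP_nonempty (h.delE i0)
      obtain ⟨y, hy⟩ := PP_nonempty hIs1
      refine ⟨0, ⟨le_rfl, zero_le_one⟩, x, hx, y, hy, ?_⟩
      funext i
      simp only [sub_zero, one_smul, zero_smul, add_zero, ev]
      by_cases hi : i ∈ S
      · have h1 := hmax' i hi
        have h2 := z3 i
        by_cases hiB : i ∈ B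
        · rw [if_pos hiB] at h1 ⊢
          linarith
        · rw [if_neg hiB] at h1 ⊢
          linarith
      · rw [z1 i hi, if_neg fun h => hi (hB.1 h)]
    · have hspos : 0 < s := lt_of_le_of_ne hs0 (Ne.symm hs00)
      set x : α → ℝ := fun i => if i ∈ S.erase i0 then (z i - (1 - s) * ev B i) / s else 0 with hx
      refine ⟨s, ⟨hs0, hs1⟩, x, ?_, 0, ?_, ?_⟩
      · apply mem_PP_circuit
        · rw [hr.1, card_erase_of_mem hi0]; omega
        · intro t ht; rw [hr.1, hr.2 t ht]
        · intro i hi; exact if_neg hi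
        · intro i hi
          simp only [hx, if_pos hi]
          rw [div_le_one hspos]
          have hiS := mem_of_mem_erase hi
          have h1 := hmax' i hiS
          have h2 := z3 i
          unfold ev
          by_cases hiB : i ∈ B
          · rw [if_pos hiB]; linarith
          · rw [if_neg hiB] at h1 ⊢; linarith
        · rw [hr.1]
          have e1 : ∑ i ∈ S.erase i0, x i = (∑ i ∈ S.erase i0, z i -
              (1 - s) * ∑ i ∈ S.erase i0, ev B i) / s := by
            rw [mul_sum, ← sum_sub_distrib, sum_div]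
            apply sum_congr rfl
            intro i hi
            simp only [hx, if_pos hi]
          have e2 : ∑ i ∈ S.erase i0, z i = 2 - z i0 := by
            rw [← z2', ← add_sum_erase S z hi0]; ring
          have e3 : ∑ i ∈ S.erase i0, ev B i = (1 : ℝ) := by
            have := add_sum_erase S (ev B) hi0
            rw [hsumB] at this
            have h5 : ev B i0 = (1 : ℝ) := if_pos hi0B
            linarith
          rw [e1, e2, e3, div_eq_iff hspos.ne']
          push_cast
          rw [hs]; ring
      · have hb0 : IsBas {i0} (con ρ (S.erase i0)) ∅ := by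
          refine ⟨empty_subset _, by rw [hIs1.zero, card_empty], ?_⟩
          simp only [con]
          rw [← insert_eq, insert_erase hi0, hk, hr.1]; rfl
        have := ev_mem_PP hb0
        have e0 : (ev ∅ : α → ℝ) = 0 := by funext i; simp [ev]
        rwa [e0] at this
      · funext i
        simp only [Pi.add_apply, Pi.smul_apply, smul_eq_mul, Pi.zero_apply, add_zero, hx]
        by_cases hi : i ∈ S.erase i0
        · rw [if_pos hi]; field_simp; ring
        · rw [if_neg hi, mul_zero, add_zero]
          by_cases hii : i = i0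
          · subst hii
            unfold ev
            rw [if_pos hi0B, hs]; ring
          · have hiS : i ∉ S := fun h => hi (mem_erase.2 ⟨hii, h⟩)
            unfold ev
            rw [z1 i hiS, if_neg fun h => hiS (hB.1 h), mul_zero]
  · have hF : Fi S B i0 = {i0} := if_neg hi0B
    rw [hF]
    have hr := U24_conC h hU hi0
    set s := z i0 with hs
    have hmax' : ∀ i ∈ S, (if i ∈ B then 1 - z i else z i) ≤ s := by
      intro i hi
      have := hmax i hi
      rwa [if_neg hi0B] at this
    have hs0 : 0 ≤ s := (z3 i0).1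
    have hs1 : s ≤ 1 := (z3 i0).2
    unfold Lam pyr
    rw [Set.mem_ofPred_eq, sdiff_singleton_eq_erase]
    have h1s : IsRk {i0} ρ := h.sub (singleton_subset_iff.2 hi0)
    by_cases hs00 : s = 0
    · obtain ⟨x, hx⟩ := PP_nonempty h1s
      obtain ⟨y, hy⟩ := PP_nonempty (h.conE hi0)
      refine ⟨0, ⟨le_rfl, zero_le_one⟩, x, hx, y, hy, ?_⟩
      funext i
      simp only [sub_zero, one_smul, zero_smul, add_zero, ev]
      by_cases hi : i ∈ S
      · have h1 := hmax' i hi
        have h2 := z3 i
        by_cases hiB : i ∈ B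
        · rw [if_pos hiB] at h1 ⊢
          linarith
        · rw [if_neg hiB] at h1 ⊢
          linarith
      · rw [z1 i hi, if_neg fun h => hi (hB.1 h)]
    · have hspos : 0 < s := lt_of_le_of_ne hs0 (Ne.symm hs00)
      set y : α → ℝ := fun i => if i ∈ S.erase i0 then (z i - (1 - s) * ev B i) / s else 0 with hy
      refine ⟨s, ⟨hs0, hs1⟩, ev {i0}, ?_, y, ?_, ?_⟩
      · apply ev_mem_PP
        exact ⟨subset_rfl, by rw [(U24_rank h hU).1 i0 hi0, card_singleton],
          by rw [(U24_rank h hU).1 i0 hi0, card_singleton]⟩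
      · apply mem_PP_rank1 (h.conE hi0) hr.1 hr.2
        · intro i hi; exact if_neg hi
        · intro i hi
          simp only [hy, if_pos hi]
          apply div_nonneg _ hspos.le
          have hiS := mem_of_mem_erase hi
          have h1 := hmax' i hiS
          have h2 := z3 i
          unfold ev
          by_cases hiB : i ∈ B
          · rw [if_pos hiB] at h1 ⊢; linarith
          · rw [if_neg hiB]; linarith
        · have e1 : ∑ i ∈ S.erase i0, y i = (∑ i ∈ S.erase i0, z i -
              (1 - s) * ∑ i ∈ S.erase i0, ev B i) / s := by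
            rw [mul_sum, ← sum_sub_distrib, sum_div]
            apply sum_congr rfl
            intro i hi
            simp only [hy, if_pos hi]
          have e2 : ∑ i ∈ S.erase i0, z i = 2 - z i0 := by
            rw [← z2', ← add_sum_erase S z hi0]; ring
          have e3 : ∑ i ∈ S.erase i0, ev B i = (2 : ℝ) := by
            have := add_sum_erase S (ev B) hi0
            rw [hsumB] at this
            have h5 : ev B i0 = (0 : ℝ) := if_neg hi0B
            linarith
          rw [e1, e2, e3, div_eq_iff hspos.ne', ← hs]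
          ring
      · funext i
        simp only [Pi.add_apply, Pi.smul_apply, smul_eq_mul, hy]
        by_cases hi : i ∈ S.erase i0
        · have hne : i ∉ ({i0} : Finset α) := by
            rw [mem_singleton]; exact ne_of_mem_erase hi
          have e5 : (ev {i0} : α → ℝ) i = 0 := if_neg hne
          rw [if_pos hi, e5]; field_simp; ring
        · rw [if_neg hi, add_zero]
          by_cases hii : i = i0
          · subst hii
            have e5 : (ev {i} : α → ℝ) i = 1 := if_pos (mem_singleton_self i)
            have e6 : (ev B : α → ℝ) i = 0 := if_neg hi0B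
            rw [e5, e6, hs]; ring
          · have hiS : i ∉ S := fun h => hi (mem_erase.2 ⟨hii, h⟩)
            have hne : i ∉ ({i0} : Finset α) := by rw [mem_singleton]; exact hii
            have e5 : (ev {i0} : α → ℝ) i = 0 := if_neg hne
            have e6 : (ev B : α → ℝ) i = 0 := if_neg fun h => hiS (hB.1 h)
            rw [e5, e6, z1 i hiS]; ring

theorem Vol_U24 [Fintype α] (h : IsRk S ρ) (hU : IsU24 S ρ) : Vol S ρ ≤ 4 := by
  obtain ⟨B, hB⟩ := exists_IsBas h
  obtain ⟨r1, r2, r3⟩ := U24_rank h hU
  have hn := hU.1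
  have hk := hU.2.1
  have hBc : B.card = 2 := by rw [hB.2.2, hk]
  obtain ⟨e, he⟩ : S.Nonempty := by rw [← card_pos]; omega
  have hFS : ∀ i ∈ S, Fi S B i ⊆ S := by
    intro i hi
    unfold Fi
    split_ifs
    · exact erase_subset _ _
    · exact singleton_subset_iff.2 hi
  have hterm : ∀ i ∈ S, ((S.card - 1)! : ℝ) *
      (hm S e (ρ S) (Lam S ρ B (Fi S B i))).toReal ≤ 1 := by
    intro i hi
    have ce : (S.erase i).card = 3 := by rw [card_erase_of_mem hi]; omega
    by_cases hiB : i ∈ B
    · have hF : Fi S B i = S.erase i := if_pos hiB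
      rw [hF]
      have hr := U24_delB h hU hi
      have hic : (S.erase i ∩ B).card = 1 := by
        have : S.erase i ∩ B = B.erase i := by
          ext t; simp only [mem_inter, mem_erase]
          constructor
          · rintro ⟨⟨a, _⟩, b⟩; exact ⟨a, b⟩
          · rintro ⟨a, b⟩; exact ⟨⟨a, hB.1 b⟩, b⟩
        rw [this, card_erase_of_mem hiB]; omega
      rw [vol_Lam h hB (erase_subset _ _) (by rw [← card_pos]; omega)
        (by intro heq; rw [heq] at ce; omega) (by rw [hic, hr.1]; norm_num) he]
      have hS1 : S \ S.erase i = {i} := by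
        rw [← sdiff_singleton_eq_erase, Finset.sdiff_sdiff_eq_self (singleton_subset_iff.2 hi)]
      have hv1 : Vol (S \ S.erase i) (con ρ (S.erase i)) = 1 := by
        have := h.con (erase_subset i S)
        rw [hS1] at this ⊢
        exact Vol_single this
      have hv2 : Vol (S.erase i) ρ ≤ 1 := by
        apply Vol_circuit 3 _ ρ ce (by norm_num) (h.delE i)
        · rw [hr.1]
        · intro x hx; rw [hr.1, hr.2 x hx]
      rw [hv1, hr.1, hic, hn, ce]
      norm_num
      exact hv2
    · have hF : Fi S B i = {i} := if_neg hiB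
      rw [hF]
      have hr := U24_conC h hU hi
      have hic : (({i} : Finset α) ∩ B).card = 0 := by
        rw [singleton_inter_of_notMem hiB, card_empty]
      rw [vol_Lam h hB (singleton_subset_iff.2 hi) (singleton_nonempty i)
        (by intro heq; rw [← heq, card_singleton] at hn; omega) (by rw [hic, r1 i hi]; norm_num) he]
      have hv1 : Vol {i} ρ = 1 := Vol_single (h.sub (singleton_subset_iff.2 hi))
      have hv2 : Vol (S.erase i) (con ρ {i}) ≤ 1 := by
        apply Vol_rank1 3 _ _ ce (by norm_num) (h.conE hi) hr.1 hr.2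
      rw [hv1, r1 i hi, hic, hn, card_singleton, sdiff_singleton_eq_erase]
      norm_num
      exact hv2
  have hfin : hm S e (ρ S) (PP S ρ) < ⊤ :=
    hm_lt_top isCompact_PP.measurableSet fun z hz => (PP_facts h hz).2.2.1
  have hle : hm S e (ρ S) (PP S ρ) ≤ ∑ i ∈ S, hm S e (ρ S) (Lam S ρ B (Fi S B i)) :=
    (measure_mono (U24_cover h hU hB)).trans (measure_biUnion_finset_le S _)
  have hfi : ∀ i ∈ S, hm S e (ρ S) (Lam S ρ B (Fi S B i)) ≠ ⊤ := fun i hi =>
    ((measure_mono (Lam_subset h hB (hFS i hi))).trans_lt hfin).ne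
  have hle2 : (hm S e (ρ S) (PP S ρ)).toReal ≤
      ∑ i ∈ S, (hm S e (ρ S) (Lam S ρ B (Fi S B i))).toReal := by
    rw [← ENNReal.toReal_sum hfi]
    exact ENNReal.toReal_mono (ENNReal.sum_ne_top.2 hfi) hle
  rw [Vol_eq he]
  calc ((S.card - 1)! : ℝ) * (hm S e (ρ S) (PP S ρ)).toReal
      ≤ ((S.card - 1)! : ℝ) * ∑ i ∈ S, (hm S e (ρ S) (Lam S ρ B (Fi S B i))).toReal :=
        mul_le_mul_of_nonneg_left hle2 (by positivity)
    _ = ∑ i ∈ S, ((S.card - 1)! : ℝ) * (hm S e (ρ S) (Lam S ρ B (Fi S B i))).toReal := mul_sum _ _ _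
    _ ≤ ∑ i ∈ S, (1 : ℝ) := sum_le_sum hterm
    _ = 4 := by rw [sum_const, hn]; norm_num

theorem beta_U24 (h : IsRk S ρ) (hU : IsU24 S ρ) : 2 ≤ beta S ρ := by
  obtain ⟨r1, r2, r3⟩ := U24_rank h hU
  have hn := hU.1
  have hk := hU.2.1
  obtain ⟨e, he⟩ : S.Nonempty := by rw [← card_pos]; omega
  have ce : (S.erase e).card = 3 := by rw [card_erase_of_mem he]; omega
  have hD := U24_delB h hU he
  have hC := U24_conC h hU he
  rw [beta_del_con h he (r1 e he) (by rw [hD.1, hk]) (by omega)]
  have rA : ∀ A ⊆ S, A.Nonempty → 1 ≤ ρ A := by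
    intro A hA ⟨x, hx⟩
    rw [← r1 x (hA hx)]
    exact h.mono (singleton_subset_iff.2 hx) hA
  have c1 : Conn (S.erase e) ρ := by
    intro A hA hne hneS
    have hAS := hA.trans (erase_subset e S)
    have hcs : ((S.erase e) \ A).card = 3 - A.card := by rw [card_sdiff_of_subset hA, ce]
    have hne2 : ((S.erase e) \ A).Nonempty := by
      rw [sdiff_nonempty]; exact fun h => hneS (subset_antisymm hA h)
    have q1 := rA A hAS hne
    have q2 := rA ((S.erase e) \ A) (sdiff_subset.trans (erase_subset _ _)) hne2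
    rw [hD.1]
    by_cases hA2 : 2 ≤ A.card
    · have := r3 A hAS hA2
      omega
    · have := r3 ((S.erase e) \ A) (sdiff_subset.trans (erase_subset _ _)) (by omega)
      omega
  have c2 : Conn (S.erase e) (con ρ {e}) := by
    intro A hA hne hneS
    have hne2 : ((S.erase e) \ A).Nonempty := by
      rw [sdiff_nonempty]; exact fun h => hneS (subset_antisymm hA h)
    have gen : ∀ A ⊆ S.erase e, A.Nonempty → 1 ≤ con ρ {e} A := by
      intro A hA ⟨x, hx⟩
      rw [← hC.2 x (hA hx)]
      exact (h.conE he).mono (singleton_subset_iff.2 hx) hA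
    have q1 := gen A hA hne
    have q2 := gen _ sdiff_subset hne2
    rw [hC.1]
    omega
  have b1 := c1.beta_pos (h.delE e) (by omega)
  have b2 := c2.beta_pos (h.conE he) (by omega)
  omega

/-- **Main theorem**, in terms of rank functions. -/
theorem full [Fintype α] (h : IsRk S ρ) (hc : Conn S ρ) (hS : 2 ≤ S.card) :
    (beta S ρ : ℝ) * ((S.card - 2).choose (ρ S - 1)) ≤ Vol S ρ ∧
      ((beta S ρ : ℝ) * ((S.card - 2).choose (ρ S - 1)) = Vol S ρ ↔ (IsT S ρ ∨ IsU24 S ρ)) := by
  have hm := main_ineq' S ρ hS h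
  refine ⟨hm, ?_⟩
  constructor
  · intro heq
    exact classify h hc hS heq.symm.le
  · rintro (hT | hU)
    · apply le_antisymm hm
      refine (Vol_T h hc hS hT).trans ?_
      have h1 := hc.beta_pos h hS
      have h2 : (1 : ℝ) ≤ beta S ρ := by exact_mod_cast h1
      have h3 : (0 : ℝ) ≤ ((S.card - 2).choose (ρ S - 1) : ℝ) := Nat.cast_nonneg _
      nlinarith
    · apply le_antisymm hm
      refine (Vol_U24 h hU).trans ?_
      have h1 := beta_U24 h hU
      have h2 : (2 : ℝ) ≤ beta S ρ := by exact_mod_cast h1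
      rw [hU.1, hU.2.1]
      norm_num
      linarith

end Pool.Agent.H146.BV
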